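import Pool.Agent.H39.L.H447R3_NcA
import Pool.Agent.H39.L.H447R3_NcDefs
import Pool.Agent.H39.L.H447R3_DegB

/-!
# The Lefschetz standard conjecture and numerically central correspondences
-/

open CategoryTheory AlgebraicGeometry Finset

universe u v

namespace Pool.Agent.H447

open Pool.Agent.H914 VarClass Obj WeilCohomology

variable {k : Type u} [Field k] {𝒱 : VarClass k} {ops : CycleOps 𝒱}
  {W : WeilCohomology.{u, v} ops} {X Y : 𝒱.Obj}

lemma deg_eq_str {p q : ℕ} (hpq : p + q = 2 * X.dim) {z w : (X.prod X).Cycles}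
    (hz : (X.prod X).IsCyc p z) (hw : (X.prod X).IsCyc q w) :
    ((X.prod X).V.degCycle (ops.mul z w) : W.K) =
      LinearMap.trace W.K (W.H X) (par (W.isInternal X) *
        (W.corr (W.cl _ z) * W.corr (W.cl _ (ops.pull (swap X X) w)))) := by
  rw [← tr_mul_cl hz hw (by rw [dim_prod]; omega), tr_mul_eq_trace (W.cl_mem hz), W.cl_pull,
    mul_assoc]

/-- Numerical centrality in terms of operators. -/
lemma numCentral_iff {u : (X.prod X).Cycles} (hu : (X.prod X).IsCyc X.dim u) :
    NumCentral ops X u ↔ ∀ d x, ROp W X d x → NumR (W.isInternal X) (ROp W X) d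
      (x * W.corr (W.cl _ u) - W.corr (W.cl _ u) * x) := by
  have hOA := rop_opAlg (W := W) (X := X)
  have h2 : ∀ {p : ℕ} {x : (X.prod X).Cycles}, (X.prod X).IsCyc p x →
      W.corr (W.cl _ (compCyc ops u x)) = W.corr (W.cl _ x) * W.corr (W.cl _ u) :=
    fun hx => corr_compCyc W hx
  have h3 : ∀ x : (X.prod X).Cycles,
      W.corr (W.cl _ (compCyc ops x u)) = W.corr (W.cl _ u) * W.corr (W.cl _ x) :=
    fun x => corr_compCyc W hu
  constructor
  · intro hc d x hx
    refine ⟨hOA.sub (hOA.cast (hOA.mul hx (rop_corr (d := 0) (by simp) hu)) (by ring))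
      (hOA.cast (hOA.mul (rop_corr (d := 0) (by simp) hu) hx) (by ring)), ?_⟩
    intro y hy
    obtain ⟨Y, ⟨q, hq, y, hy, hY⟩ | ⟨hd, hY⟩, rfl⟩ := hy
    · obtain ⟨Z, ⟨p, hp, x, hx, hZ⟩ | ⟨hd, hZ⟩, rfl⟩ := hx
      · have h1 := hc p (by omega) x hx (ops.pull (swap X X) y) (by
          rw [dim_prod, show X.dim + X.dim - p = q by omega]
          exact ops.pull_mem _ hy)
        have e1 := str_eq_deg (W := W) (X := X) (p := p) (q := q) (by omega)
          (compCyc_mem (ops := ops) (r := p) hu hx (by omega)) hy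
        have e2 := str_eq_deg (W := W) (X := X) (p := p) (q := q) (by omega)
          (compCyc_mem (ops := ops) (r := p) hx hu (by omega)) hy
        rw [hY, hZ, sub_mul, mul_sub, map_sub, ← h2 hx, ← h3, e1, e2, h1, sub_self]
      · rw [hZ, zero_mul, mul_zero, sub_zero, zero_mul, mul_zero, map_zero]
    · rw [hY, mul_zero, mul_zero, map_zero]
  · intro hc p hp x hx y hy
    rw [dim_prod] at hy
    have h1 := (hc ((p : ℤ) - X.dim) _ (rop_corr (by ring) hx)).2 _
      (rop_corr (p := X.dim + X.dim - p) (by omega) (ops.pull_mem (swap X X) hy))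
    rw [← h2 hx, ← h3, sub_mul, mul_sub, map_sub, ← deg_eq_str (p := p)
      (q := X.dim + X.dim - p) (by omega) (compCyc_mem hu hx (by omega)) hy,
      ← deg_eq_str (p := p) (q := X.dim + X.dim - p) (by omega)
      (compCyc_mem (r := p) hx hu (by omega)) hy, sub_eq_zero] at h1
    exact_mod_cast h1

/-- Numerical equivalence in terms of operators. -/
lemma numEquiv_iff {u u' : (X.prod X).Cycles} (hu : (X.prod X).IsCyc X.dim u)
    (hu' : (X.prod X).IsCyc X.dim u') :
    NumEquiv ops (X.prod X) X.dim u u' ↔ NumR (W.isInternal X) (ROp W X) 0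
      (W.corr (W.cl _ u') - W.corr (W.cl _ u)) := by
  have hOA := rop_opAlg (W := W) (X := X)
  constructor
  · intro hc
    refine ⟨hOA.sub (rop_corr (by simp) hu') (rop_corr (by simp) hu), ?_⟩
    intro y hy
    rw [neg_zero] at hy
    obtain ⟨y, hy', rfl⟩ := exists_of_rop (p := X.dim) (by simp) hy
    clear hy
    rename' hy' => hy
    have h1 := hc (ops.pull (swap X X) y) (by
      rw [dim_prod, show X.dim + X.dim - X.dim = X.dim by omega]
      exact ops.pull_mem _ hy)
    rw [sub_mul, mul_sub, map_sub, str_eq_deg (q := X.dim) (by omega) hu hy,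
      str_eq_deg (q := X.dim) (by omega) hu' hy, h1, sub_self]
  · intro hc y hy
    rw [dim_prod, show X.dim + X.dim - X.dim = X.dim by omega] at hy
    have h1 := hc.2 _ (rop_corr (p := X.dim) (by simp) (ops.pull_mem (swap X X) hy))
    rw [sub_mul, mul_sub, map_sub, ← deg_eq_str (by omega) hu hy, ← deg_eq_str (by omega) hu' hy,
      sub_eq_zero] at h1
    exact_mod_cast h1.symm

/-- **The Lefschetz standard conjecture and numerically central correspondences.** -/
theorem central_tfae {D : X.Cycles} (hD : X.IsCyc 1 D) (hHL : HardLefschetz W X D) :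
    List.TFAE [LefschetzB W X D, KunnethStd W X ∧ CentralCommute W X D,
      KunnethStd W X ∧ CentralTraceZero W X] := by
  have h := W.isInternal X
  have hLR := rop_mulLeft (W := W) hD
  have hLh : IsHom (W.gr X) 2 (LinearMap.mulLeft W.K (W.cl X D)) := by
    simpa using rop_opAlg.hom hLR
  have hOA := rop_opAlg (W := W) (X := X)
  tfae_have 1 → 2 := by
    intro hB
    obtain ⟨Φ, hΦ, hLam⟩ := lefschetzB_iff_rop.1 hB
    have hP : ∀ i, ROp W X 0 (proj h i) := fun i => hOA.proj_mem h W_hbd hLR hHL hΦ hLam i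
    refine ⟨kunneth_of_rop hP, ?_⟩
    intro u hu hc
    obtain ⟨U, hU, hnum, hcomm⟩ := exists_lift hOA h W_hbd hLR hHL hΦ hLam hP
      (rop_corr (by simp) hu) ((numCentral_iff hu).1 hc)
    obtain ⟨u', hu', rfl⟩ := exists_of_rop (p := X.dim) (by simp) hU
    refine ⟨u', hu', (numEquiv_iff hu hu').2 hnum, ?_⟩
    intro a
    exact congrArg (fun F => F a) hcomm
  tfae_have 2 → 3 := by
    rintro ⟨hK, hc⟩
    refine ⟨hK, fun u hu hcu H hH => ?_⟩
    obtain ⟨u', hu', hnum, hcomm⟩ := hc u hu hcu
    rw [isWeightOp_iff.1 hH]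
    have hP := kunneth_rop hK
    have hpar : ROp W X 0 (par h) := by
      rw [par, scal_eq_sum h W_hbd]
      apply hOA.sum
      intro i _
      have h1 : ((-1 : W.K)) ^ i = (((-1 : ℚ) ^ i : ℚ) : W.K) := by push_cast; rfl
      rw [h1]
      exact hOA.smul _ (hP i)
    have hwt : ROp W X 0 (wt h X.dim) := by
      rw [wt, scal_eq_sum h W_hbd]
      exact hOA.sum (fun i _ => hOA.smul _ (hP i))
    have h1 := ((numEquiv_iff (W := W) hu hu').1 hnum).2 (wt h X.dim * par h)
      (hOA.cast (hOA.mul hwt hpar) (by ring))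
    rw [← mul_assoc, ← mul_assoc, LinearMap.trace_mul_comm, ← mul_assoc, ← mul_assoc,
      par_mul_par, one_mul, LinearMap.trace_mul_comm, mul_sub, map_sub,
      weighted_trace_zero h W_hbd hLh hHL (u := W.corr (W.cl _ u')) (by
        apply LinearMap.ext
        intro a
        exact hcomm a), zero_sub, neg_eq_zero] at h1
    exact h1
  tfae_have 3 → 1 := by
    rintro ⟨hK, hcrit⟩
    apply lefschetzB_of_inj hD hHL
    have hP' := kunneth_rop hK
    have hP : ∀ i, proj h i ∈ KS (ROp W X) 0 := fun i => Submodule.subset_span (hP' i)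
    obtain ⟨s, z, w, hz, hw, hSR, hS⟩ := exists_comm_of_central (n := X.dim) hOA h W_hbd
      (fun y hy => rop_str y hy) hP' (by
        intro U hU hcU
        obtain ⟨u, hu, rfl⟩ := exists_of_rop (p := X.dim) (by simp) hU
        exact hcrit u hu ((numCentral_iff hu).2 hcU) _ (isWeightOp_iff.2 rfl))
    have hwR : wt h X.dim ∈ KS (ROp W X) 0 := by
      rw [wt, scal_eq_sum h W_hbd]
      exact Submodule.sum_mem _ (fun i _ => Submodule.smul_mem _ _ (hP i))
    set S := ∑ i, (z i * w i - w i * z i) with hSdef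
    set c := S - wt h X.dim with hc
    have hcR : c ∈ KS (ROp W X) 0 := Submodule.sub_mem _ hSR hwR
    have hctr : ∀ y ∈ KS (ROp W X) 0, LinearMap.trace W.K (W.H X) (c * y) = 0 := by
      intro y hy
      rw [hc, sub_mul, map_sub, hS y hy, sub_self]
    have hcn : IsNilpotent c := by
      apply isNilpotent_of_trace_pow
      intro t
      rw [pow_succ']
      apply hctr
      exact hOA.kspan.cast (hOA.kspan.pow hcR t) (by simp)
    have key := exists_inverse_of_comm (A := tot (ROp W X)) h W_hbd hLh hHL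
      (mem_tot (Submodule.subset_span hOA.one)) (tot_mul hOA)
      (mem_tot (Submodule.subset_span hLR)) (fun i => mem_tot (hP i)) hz hw (c := c)
      (by rw [hc, add_sub_cancel]) hcn
    intro m hm
    obtain ⟨y, hy, hy1, hy2, hy3⟩ := key m hm
    refine ⟨y, ?_, ?_⟩
    · rw [← mem_KS_iff]
      have h1 := tot_extract hOA h hP hm hy
      rwa [hy1, hy2] at h1
    · intro a ha h0
      have h1 := congrArg (fun F => F a) hy3
      rw [Module.End.mul_apply, h0, map_zero, proj_same h ha] at h1
      exact h1.symm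
  tfae_finish

end Pool.Agent.H447
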