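import Pool.Agent.H39.L.H447R3_KuA
import Pool.Agent.H39.L.H447R3_KuDefs
import Pool.Agent.H39.L.H447R3_NcB
import Pool.Agent.H39.L.H447R3_SpC

/-!
# The Kunneth and sign conjectures modulo numerical equivalence
-/

open CategoryTheory AlgebraicGeometry Finset

universe u v

namespace Pool.Agent.H447

open Pool.Agent.H914 VarClass Obj WeilCohomology

section Abs

variable {K : Type*} [Field K] [CharZero K] {V : Type*} [AddCommGroup V] [Module K V]
  [Module.Finite K V] {gr : ℕ → Submodule K V} {n : ℕ} {R : ℤ → Module.End K V → Prop}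

/-- Projectors from numerical projectors. -/
lemma proj_of_num (hR : OpAlg gr R) (h : DirectSum.IsInternal gr) {T p ε : Module.End K V} {σ : K}
    (hT : R 0 T) (hp : p * p = p) (hp0 : IsHom gr 0 p) (hpd : ∃ c : ℕ → K, p = scal h c)
    (h1 : ε * p = p) (h2 : ε * (1 - p) = σ • (1 - p)) (hσ : σ ≠ 0) {δ : Module.End K V}
    (hδ : R 0 δ) (hε : ε = par h * δ) (hδc : ∃ c : ℕ → K, δ = scal h c)
    (hnum : ∀ y, R 0 y →
      LinearMap.trace K V (par h * (T * y)) = LinearMap.trace K V (par h * (p * y)))
    (hsq : NumR h R 0 (T * T - T)) : R 0 p := by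
  have hTh : IsHom gr 0 T := by simpa using hR.hom hT
  have hTk : ∀ k : ℕ, R 0 (T ^ k) := fun k => hR.cast (hR.pow hT k) (by simp)
  obtain ⟨c, hc⟩ := hpd
  obtain ⟨d, hd⟩ := hδc
  have hcomm : Commute T p := by
    rw [hc]
    have := hTh.scal_comm h (fun i => if 0 ≤ i then c i.toNat else 0)
      (fun i => if 0 ≤ i then c i.toNat else 0) (fun i => by rw [add_zero])
    simp only [Int.natCast_nonneg, if_true, Int.toNat_natCast] at this
    exact this.symm
  have hcommδ : Commute T δ := by
    rw [hd]
    have := hTh.scal_comm h (fun i => if 0 ≤ i then d i.toNat else 0)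
      (fun i => if 0 ≤ i then d i.toNat else 0) (fun i => by rw [add_zero])
    simp only [Int.natCast_nonneg, if_true, Int.toNat_natCast] at this
    exact this.symm
  have hδp : δ * p = p * δ := by
    rw [hc, hd, scal_mul, scal_mul]
    congr 1
    funext i
    rw [mul_comm]
  obtain ⟨g, hg⟩ := exists_poly_of_proj hp hcomm h1 h2 hσ
    (by
      intro k
      have e1 := hnum (δ * T ^ k) (hR.cast (hR.mul hδ (hTk k)) (by ring))
      have e2 : ε * T ^ (k + 1) = par h * (T * (δ * T ^ k)) := by
        rw [hε, pow_succ', ← mul_assoc T, hcommδ.eq]; simp only [mul_assoc]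
      have e3 : ε * (p * T ^ k) = par h * (p * (δ * T ^ k)) := by
        rw [hε, ← mul_assoc p, ← hδp]; simp only [mul_assoc]
      rw [e2, e3, e1])
    (by
      intro k hk
      obtain ⟨k, rfl⟩ : ∃ k', k = k' + 1 := ⟨k - 1, by omega⟩
      have e1 := hsq.2 (δ * T ^ k) (hR.cast (hR.mul hδ (hTk k)) (by simp))
      have e2 : par h * ((T * T - T) * (δ * T ^ k)) = ε * T ^ (k + 1 + 1) - ε * T ^ (k + 1) := by
        have e3 : T * (δ * T ^ k) = δ * T ^ (k + 1) := by
          rw [← mul_assoc, hcommδ.eq, mul_assoc, pow_succ']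
        rw [sub_mul, mul_assoc T T, e3, ← mul_assoc T, hcommδ.eq, mul_assoc δ, ← pow_succ',
          hε, mul_sub, mul_assoc, mul_assoc]
      rw [e2, map_sub, sub_eq_zero] at e1
      exact e1)
  rw [hg]
  exact hR.ev hT g

/-- The projector onto the even part. -/
noncomputable def evenProj (h : DirectSum.IsInternal gr) : Module.End K V :=
  scal h (fun j => if Even j then 1 else 0)

omit [Module.Finite K V] in
lemma par_evenProj (h : DirectSum.IsInternal gr) : par h * evenProj h = evenProj h := by
  rw [par, evenProj, scal_mul]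
  congr 1
  funext i
  split_ifs with hi
  · rw [hi.neg_one_pow, mul_one]
  · rw [mul_zero]

omit [Module.Finite K V] in
lemma par_one_sub_evenProj (h : DirectSum.IsInternal gr) :
    par h * (1 - evenProj h) = (-1 : K) • (1 - evenProj h) := by
  have h1 : (1 : Module.End K V) - evenProj h = scal h (fun j => if Even j then 0 else 1) := by
    rw [sub_eq_iff_eq_add, evenProj, scal_add, ← scal_one h]
    congr 1
    funext i
    split_ifs <;> simp
  have h2 : (-1 : K) • scal h (fun j => if Even j then (0 : K) else 1) =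
      scal h (fun j => if Even j then 0 else -1) := by
    apply gr_ext h
    intro i a ha
    rw [LinearMap.smul_apply, scal_apply h _ ha, scal_apply h _ ha, smul_smul]
    congr 1
    split_ifs <;> simp
  rw [h1, h2, par, scal_mul]
  congr 1
  funext i
  split_ifs with hi
  · rw [mul_zero]
  · rw [(Nat.not_even_iff_odd.1 hi).neg_one_pow, mul_one]

/-- The even projector from a numerical one. -/
lemma evenProj_of_num (hR : OpAlg gr R) (h : DirectSum.IsInternal gr) {T : Module.End K V}
    (hT : R 0 T) (hnum : ∀ y, R 0 y → LinearMap.trace K V (par h * (T * y)) =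
      LinearMap.trace K V (par h * (evenProj h * y)))
    (hsq : NumR h R 0 (T * T - T)) : R 0 (evenProj h) := by
  refine proj_of_num hR h (T := T) (p := evenProj h) (ε := par h) (σ := -1) (δ := 1) hT ?_
    (isHom_scal h _) ⟨_, rfl⟩ (par_evenProj h) (par_one_sub_evenProj h) (by norm_num) hR.one
    (by rw [mul_one]) ⟨fun _ => 1, (scal_one h).symm⟩ hnum hsq
  rw [evenProj, scal_mul]
  congr 1
  funext i
  split_ifs <;> simp

/-- The projectors onto the graded pieces from numerical ones. -/
lemma proj_of_num' (hR : OpAlg gr R) (h : DirectSum.IsInternal gr) (hpar : R 0 (par h))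
    {T : Module.End K V} (hT : R 0 T) {i : ℕ} (hnum : ∀ y, R 0 y →
      LinearMap.trace K V (par h * (T * y)) = LinearMap.trace K V (par h * (proj h i * y)))
    (hsq : NumR h R 0 (T * T - T)) : R 0 (proj h i) :=
  proj_of_num hR h (T := T) (p := proj h i) (ε := 1) (σ := 1) (δ := par h) hT (proj_mul_proj h i)
    (isHom_scal h _) ⟨_, rfl⟩ (one_mul _) (by rw [one_mul, one_smul]) one_ne_zero hpar
    (par_mul_par h).symm ⟨_, rfl⟩ hnum hsq

/-- All projectors from numerical ones. -/
theorem kunneth_of_num (hR : OpAlg gr R) (h : DirectSum.IsInternal gr)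
    (hbd : ∀ i, 2 * n + 1 ≤ i → gr i = ⊥) {T : ℕ → Module.End K V} (hT : ∀ i, R 0 (T i))
    (hnum : ∀ i, ∀ y, R 0 y →
      LinearMap.trace K V (par h * (T i * y)) = LinearMap.trace K V (par h * (proj h i * y)))
    (hmul : ∀ i j, NumR h R 0 (T j * T i - if i = j then T i else 0)) (i : ℕ) :
    R 0 (proj h i) := by
  set s := (range (2 * n + 1)).filter Even with hs
  have heven : evenProj h = ∑ i ∈ s, proj h i := by
    rw [evenProj, scal_eq_sum h hbd, hs, Finset.sum_filter]
    apply Finset.sum_congr rfl
    intro i _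
    split_ifs
    · rw [one_smul]
    · rw [zero_smul]
  have hE : R 0 (evenProj h) := by
    apply evenProj_of_num hR h (T := ∑ i ∈ s, T i) (hR.sum fun i _ => hT i)
    · intro y hy
      rw [heven, Finset.sum_mul, Finset.sum_mul, Finset.mul_sum, Finset.mul_sum, map_sum, map_sum]
      exact Finset.sum_congr rfl (fun i _ => hnum i y hy)
    · have h1 : (∑ i ∈ s, T i) * (∑ i ∈ s, T i) - ∑ i ∈ s, T i =
          ∑ j ∈ s, ∑ i ∈ s, (T j * T i - if i = j then T i else 0) := by
        rw [Finset.sum_mul]
        conv_rhs =>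
          enter [2, j]
          rw [Finset.sum_sub_distrib, Finset.sum_ite_eq' s j]
        rw [Finset.sum_sub_distrib]
        congr 1
        · exact Finset.sum_congr rfl (fun j _ => Finset.mul_sum _ _ _)
        · exact Finset.sum_congr rfl (fun j hj => by rw [if_pos hj])
      rw [h1]
      exact NumR.sum hR (fun j _ => NumR.sum hR (fun i _ => hmul i j))
  have hpar : R 0 (par h) := by
    have h1 : par h = ((2 : ℚ) : K) • evenProj h - 1 := by
      apply gr_ext h
      intro j a ha
      rw [par, scal_apply _ _ ha, LinearMap.sub_apply, LinearMap.smul_apply, evenProj,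
        scal_apply _ _ ha, Module.End.one_apply]
      split_ifs with hj
      · rw [hj.neg_one_pow, one_smul]
        push_cast
        rw [two_smul, add_sub_cancel_right]
      · rw [(Nat.not_even_iff_odd.1 hj).neg_one_pow, zero_smul, smul_zero, zero_sub, neg_one_smul]
    rw [h1]
    exact hR.sub (hR.smul _ hE) hR.one
  apply proj_of_num' hR h hpar (hT i) (hnum i)
  have := hmul i i
  rwa [if_pos rfl] at this

end Abs

variable {k : Type u} [Field k] {𝒱 : VarClass k} {ops : CycleOps 𝒱}
  {W : WeilCohomology.{u, v} ops} {X Y : 𝒱.Obj}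

/-- Intersection numbers with a class on `X × X` in terms of operators. -/
lemma numRep_iff {z : (X.prod X).Cycles} (hz : (X.prod X).IsCyc X.dim z) {τ : W.H (X.prod X)}
    (hτ : τ ∈ W.gr (X.prod X) (2 * X.dim)) :
    NumRep W (X.prod X) X.dim z τ ↔ ∀ y, ROp W X 0 y →
      LinearMap.trace W.K (W.H X) (par (W.isInternal X) * (W.corr (W.cl _ z) * y)) =
        LinearMap.trace W.K (W.H X) (par (W.isInternal X) * (W.corr τ * y)) := by
  constructor
  · intro hn y hy
    obtain ⟨w, hw, rfl⟩ := exists_of_rop (p := X.dim) (by simp) hy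
    have h1 := hn _ (ops.pull_mem (swap X X) hw)
    rw [inter, tr_mul_eq_trace hτ, W.cl_pull, map_swap_swap, mul_assoc] at h1
    rw [h1, str_eq_deg (by omega) hz hw]
  · intro hn u hu
    have h1 := hn _ (rop_corr (p := X.dim) (by simp) (ops.pull_mem (swap X X) hu))
    rw [inter, tr_mul_eq_trace hτ, deg_eq_str (by omega) hz hu, h1, W.cl_pull, mul_assoc]

lemma exists_class_zero {p : Module.End W.K (W.H X)} (hp : IsHom (W.gr X) 0 p) :
    ∃ τ, τ ∈ W.gr (X.prod X) (2 * X.dim) ∧ W.corr τ = p := by
  obtain ⟨τ, hτ⟩ := exists_corr p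
  refine ⟨τ, ?_, hτ⟩
  apply mem_gr_of_isHom
  rw [hτ, sub_self, mul_zero]
  exact hp

lemma isProjTo_iff {i : ℕ} {P : Module.End W.K (W.H X)} :
    IsProjTo (W.gr X) i P ↔ P = proj (W.isInternal X) i := by
  constructor
  · intro hP
    apply gr_ext (W.isInternal X)
    intro j a ha
    rw [hP j a ha]
    split_ifs with hj
    · subst hj; rw [proj_same _ ha]
    · rw [proj_ne _ ha hj]
  · rintro rfl j a ha
    split_ifs with hj
    · subst hj; rw [proj_same _ ha]
    · rw [proj_ne _ ha hj]

lemma isEvenProj_iff {P : Module.End W.K (W.H X)} :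
    IsEvenProj (W.gr X) P ↔ P = evenProj (W.isInternal X) := by
  constructor
  · intro hP
    apply gr_ext (W.isInternal X)
    intro j a ha
    rw [hP j a ha, evenProj, scal_apply _ _ ha]
    split_ifs with hj
    · rw [one_smul]
    · rw [zero_smul]
  · rintro rfl j a ha
    rw [evenProj, scal_apply _ _ ha]
    split_ifs with hj
    · rw [one_smul]
    · rw [zero_smul]

/-- **The Kunneth conjecture modulo numerical equivalence.** -/
theorem kunneth_iff_num : KunnethStd W X ↔ KunnethNum W X := by
  have h := W.isInternal X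
  have hOA := rop_opAlg (W := W) (X := X)
  constructor
  · intro hK
    have hz : ∀ i, ∃ z, (X.prod X).IsCyc X.dim z ∧ W.corr (W.cl _ z) = proj h i := fun i =>
      exists_of_rop (by simp) (kunneth_rop hK i)
    choose z hz hz' using hz
    refine ⟨z, hz, ?_, ?_⟩
    · rintro i τ ⟨hτ, hτi⟩
      rw [numRep_iff (hz i) hτ, isProjTo_iff.1 hτi, hz' i]
      exact fun _ _ => rfl
    · intro i j
      have hcomp : W.corr (W.cl _ (compCyc ops (z i) (z j))) = proj h j * proj h i := by
        rw [corr_compCyc W (hz j), hz', hz']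
        rfl
      rw [numEquiv_iff (W := W) (compCyc_mem (hz i) (hz j) rfl)
        (by split_ifs; exacts [hz i, SmVar.IsCyc.zero _ _]), hcomp]
      have : W.corr (W.cl _ (if i = j then z i else 0)) - proj h j * proj h i = 0 := by
        split_ifs with hij
        · subst hij; rw [hz', proj_mul_proj, sub_self]
        · rw [map_zero, corr_zero, proj_mul_ne h (Ne.symm hij), sub_zero]
      rw [this]
      exact NumR.zero hOA 0
  · rintro ⟨z, hz, hnum, hmul⟩
    apply kunneth_of_rop
    apply kunneth_of_num (n := X.dim) hOA h W_hbd (T := fun i => W.corr (W.cl _ (z i)))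
      (fun i => rop_corr (by simp) (hz i))
    · intro i
      obtain ⟨τ, hτ, hτi⟩ := exists_class_zero (X := X) (isHom_scal h
        (fun j => if j = i then (1 : W.K) else 0))
      have h1 := hnum i τ ⟨hτ, isProjTo_iff.2 hτi⟩
      rw [numRep_iff (hz i) hτ, hτi] at h1
      exact h1
    · intro i j
      have h1 := hmul i j
      rw [numEquiv_iff (W := W) (compCyc_mem (hz i) (hz j) rfl)
        (by split_ifs; exacts [hz i, SmVar.IsCyc.zero _ _]), corr_compCyc W (hz j)] at h1
      have h2 := NumR.neg hOA h1
      rw [neg_sub] at h2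
      have h3 : W.corr (W.cl _ (if i = j then z i else 0)) =
          if i = j then W.corr (W.cl _ (z i)) else 0 := by
        split_ifs
        · rfl
        · rw [map_zero, corr_zero]
      rw [h3] at h2
      exact h2

/-- **The sign conjecture modulo numerical equivalence.** -/
theorem sign_iff_num : SignStd W X ↔ SignNum W X := by
  have h := W.isInternal X
  have hOA := rop_opAlg (W := W) (X := X)
  constructor
  · rintro ⟨z, hz, hz'⟩
    rw [isEvenProj_iff] at hz'
    refine ⟨z, hz, ?_, ?_⟩
    · rintro τ ⟨hτ, hτi⟩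
      rw [numRep_iff hz hτ, isEvenProj_iff.1 hτi, hz']
      exact fun _ _ => rfl
    · rw [numEquiv_iff (W := W) (compCyc_mem hz hz rfl) hz, corr_compCyc W hz, hz']
      have : evenProj h - evenProj h ∘ₗ evenProj h = 0 := by
        change evenProj h - evenProj h * evenProj h = 0
        rw [evenProj, scal_mul, sub_eq_zero]
        congr 1
        funext i
        split_ifs <;> simp
      rw [this]
      exact NumR.zero hOA 0
  · rintro ⟨z, hz, hnum, hsq⟩
    have hE : ROp W X 0 (evenProj h) := by
      apply evenProj_of_num hOA h (T := W.corr (W.cl _ z)) (rop_corr (by simp) hz)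
      · obtain ⟨τ, hτ, hτi⟩ := exists_class_zero (X := X) (isHom_scal h
          (fun j => if Even j then (1 : W.K) else 0))
        have h1 := hnum τ ⟨hτ, isEvenProj_iff.2 hτi⟩
        rw [numRep_iff hz hτ, hτi] at h1
        exact h1
      · rw [numEquiv_iff (W := W) (compCyc_mem hz hz rfl) hz, corr_compCyc W hz] at hsq
        have h2 := NumR.neg hOA hsq
        rw [neg_sub] at h2
        exact h2
    obtain ⟨P, hP, hP'⟩ := exists_of_rop (p := X.dim) (by simp) hE
    exact ⟨P, hP, isEvenProj_iff.2 hP'⟩

end Pool.Agent.H447
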