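import Pool.Agent.H89.L.H447R3_WtB
import Pool.Agent.H89.L.H914R2_Word

/-!
# Numerically central operators
-/

open Polynomial Finset

namespace Pool.Agent.H447

open Pool.Agent.H914

variable {K : Type*} [Field K] [CharZero K] {V : Type*} [AddCommGroup V] [Module K V]
variable {gr : ℕ → Submodule K V} {n : ℕ} {L : Module.End K V}
  {R : ℤ → Module.End K V → Prop}

/-- Numerically trivial operators. -/
def NumR (h : DirectSum.IsInternal gr) (R : ℤ → Module.End K V → Prop) (d : ℤ)
    (x : Module.End K V) : Prop :=
  R d x ∧ ∀ y, R (-d) y → LinearMap.trace K V (par h * (x * y)) = 0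

section

variable (hR : OpAlg gr R) {h : DirectSum.IsInternal gr}

include hR

lemma NumR.add {d : ℤ} {x y : Module.End K V} (hx : NumR h R d x) (hy : NumR h R d y) :
    NumR h R d (x + y) :=
  ⟨hR.add hx.1 hy.1, fun z hz => by rw [add_mul, mul_add, map_add, hx.2 z hz, hy.2 z hz, add_zero]⟩

lemma NumR.zero (d : ℤ) : NumR h R d 0 :=
  ⟨hR.zero d, fun z _ => by rw [zero_mul, mul_zero, map_zero]⟩

lemma NumR.sum {ι : Type*} {d : ℤ} {s : Finset ι} {y : ι → Module.End K V}
    (hy : ∀ i ∈ s, NumR h R d (y i)) : NumR h R d (∑ i ∈ s, y i) := by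
  classical
  induction s using Finset.induction_on with
  | empty => simpa using NumR.zero hR d
  | insert a s ha ih =>
    rw [Finset.sum_insert ha]
    exact NumR.add hR (hy a (by simp)) (ih (fun i hi => hy i (by simp [hi])))

omit hR in
lemma NumR.cast {d e : ℤ} {x : Module.End K V} (hx : NumR h R d x) (hde : d = e) :
    NumR h R e x := hde ▸ hx

lemma NumR.mul_left {d e : ℤ} {a x : Module.End K V} (ha : R e a) (hx : NumR h R d x) :
    NumR h R (e + d) (a * x) := by
  refine ⟨hR.mul ha hx.1, fun y hy => ?_⟩
  rw [mul_assoc, str_comm h (hR.hom ha), mul_assoc]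
  exact hx.2 _ (hR.cast (hR.mul hy ha) (by ring))

lemma NumR.mul_right {d e : ℤ} {a x : Module.End K V} (hx : NumR h R d x) (ha : R e a) :
    NumR h R (d + e) (x * a) := by
  refine ⟨hR.mul hx.1 ha, fun y hy => ?_⟩
  rw [mul_assoc]
  exact hx.2 _ (hR.cast (hR.mul ha hy) (by ring))

lemma NumR.neg {d : ℤ} {x : Module.End K V} (hx : NumR h R d x) : NumR h R d (-x) :=
  ⟨hR.neg hx.1, fun y hy => by rw [neg_mul, mul_neg, map_neg, hx.2 y hy, neg_zero]⟩

end

omit [CharZero K] in
lemma eij_eq (h : DirectSum.IsInternal gr) (L Lam : Module.End K V) (i j : ℕ) :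
    eij h L Lam i j = L ^ j * (eij h L Lam i 0 * Lam ^ j) := by
  simp only [eij, pow_zero, one_mul, mul_one]

omit [CharZero K] in
lemma eij_idem (h : DirectSum.IsInternal gr) (hL : IsHom gr 2 L)
    (hbd : ∀ i, 2 * n + 1 ≤ i → gr i = ⊥) (hHL : HardLef gr n L) {Lam : Module.End K V}
    (hLam : IsLam gr n L Lam) (i j : ℕ) :
    eij h L Lam i j * eij h L Lam i j = eij h L Lam i j := by
  apply LinearMap.ext
  intro x
  refine lef_induction' h hL hbd hHL
    (p := fun x => (eij h L Lam i j * eij h L Lam i j) x = eij h L Lam i j x) ?_ ?_ x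
  · intro a b ha hb; rw [map_add, map_add, ha, hb]
  · intro i' hi' a ha hp j'
    by_cases hj' : j' ≤ n - i'
    · rw [Module.End.mul_apply, eij_apply h hL hLam hi' ha hp hj']
      split_ifs with h1
      · rw [eij_apply h hL hLam hi' ha hp hj', if_pos h1]
      · rw [map_zero]
    · rw [L_pow_gt hp (by omega), map_zero, map_zero]

/-- **Lifting of numerically central operators.** -/
theorem exists_lift (hR : OpAlg gr R) (h : DirectSum.IsInternal gr)
    (hbd : ∀ i, 2 * n + 1 ≤ i → gr i = ⊥) (hL : R 1 L) (hHL : HardLef gr n L)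
    {Φ : Module.End K V} (hΦ : R (-1) Φ) (hLam : IsLam gr n L Φ)
    (hP : ∀ i, R 0 (proj h i)) {u : Module.End K V} (hu : R 0 u)
    (hc : ∀ d x, R d x → NumR h R d (x * u - u * x)) :
    ∃ u', R 0 u' ∧ NumR h R 0 (u' - u) ∧ u' * L = L * u' := by
  have hLh : IsHom gr 2 L := by simpa using hR.hom hL
  set e := fun i j => eij h L Φ i j with he
  have hLj : ∀ j : ℕ, R j (L ^ j) := fun j => hR.cast (hR.pow hL j) (by ring)
  have hΦj : ∀ j : ℕ, R (-j) (Φ ^ j) := fun j => hR.cast (hR.pow hΦ j) (by ring)
  have he0 : ∀ i, R 0 (e i 0) := by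
    intro i
    have h1 : R 0 (1 - L * Φ) := hR.sub hR.one (hR.cast (hR.mul hL hΦ) (by ring))
    have h2 : e i 0 = (1 - L * Φ) * proj h i := by
      simp only [he, eij, pow_zero, one_mul, mul_one]
    rw [h2]
    exact hR.cast (hR.mul h1 (hP i)) (by ring)
  have heR : ∀ i j, R 0 (e i j) := by
    intro i j
    simp only [he]
    rw [eij_eq]
    exact hR.cast (hR.mul (hLj j) (hR.mul (he0 i) (hΦj j))) (by ring)
  have hmid : ∀ i, R 0 (e i 0 * u * e i 0) := fun i =>
    hR.cast (hR.mul (hR.mul (he0 i) hu) (he0 i)) (by ring)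
  set u' : Module.End K V := ∑ i ∈ range (n + 1), ∑ j ∈ range (n - i + 1),
    L ^ j * (e i 0 * u * e i 0) * Φ ^ j * e i j with hu'
  refine ⟨u', ?_, ?_, ?_⟩
  · apply hR.sum
    intro i _
    apply hR.sum
    intro j _
    exact hR.cast (hR.mul (hR.mul (hR.mul (hLj j) (hmid i)) (hΦj j)) (heR i j)) (by ring)
  · have h1 : u' - u = ∑ i ∈ range (n + 1), ∑ j ∈ range (n - i + 1),
        (L ^ j * (e i 0 * u * e i 0) * Φ ^ j * e i j - u * e i j) := by
      have h2 : u = ∑ i ∈ range (n + 1), ∑ j ∈ range (n - i + 1), u * e i j := by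
        have h3 := sum_eij h hLh hbd hHL hLam
        conv_lhs => rw [← mul_one u, ← h3]
        rw [Finset.mul_sum]
        exact Finset.sum_congr rfl (fun i _ => Finset.mul_sum _ _ _)
      conv_lhs => rw [h2]
      rw [hu', ← Finset.sum_sub_distrib]
      apply Finset.sum_congr rfl
      intro i _
      rw [← Finset.sum_sub_distrib]
    rw [h1]
    apply NumR.sum hR
    intro i _
    apply NumR.sum hR
    intro j _
    have h4 : L ^ j * (e i 0 * u * e i 0) * Φ ^ j * e i j - u * e i j =
        L ^ j * ((e i 0 * u - u * e i 0) * (e i 0 * Φ ^ j * e i j)) +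
          (L ^ j * u - u * L ^ j) * (e i 0 * Φ ^ j * e i j) := by
      have h5 : e i 0 * e i 0 = e i 0 := eij_idem h hLh hbd hHL hLam i 0
      have h6 : L ^ j * (e i 0 * Φ ^ j) = e i j := (eij_eq h L Φ i j).symm
      have h7 : e i j * e i j = e i j := eij_idem h hLh hbd hHL hLam i j
      have h8 : L ^ j * ((e i 0 * u - u * e i 0) * (e i 0 * Φ ^ j * e i j)) =
          L ^ j * (e i 0 * u * e i 0) * Φ ^ j * e i j -
            L ^ j * u * (e i 0 * e i 0) * Φ ^ j * e i j := by noncomm_ring
      have h9 : (L ^ j * u - u * L ^ j) * (e i 0 * Φ ^ j * e i j) =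
          L ^ j * u * e i 0 * Φ ^ j * e i j - u * (L ^ j * (e i 0 * Φ ^ j) * e i j) := by
        noncomm_ring
      rw [h8, h9, h5, h6, h7]
      abel
    rw [h4]
    have h5 : R (-j) (e i 0 * Φ ^ j * e i j) :=
      hR.cast (hR.mul (hR.mul (he0 i) (hΦj j)) (heR i j)) (by ring)
    apply NumR.add hR
    · exact (NumR.mul_left hR (hLj j) (NumR.mul_right hR (hc 0 _ (he0 i)) h5)).cast (by ring)
    · exact (NumR.mul_right hR (hc _ _ (hLj j)) h5).cast (by ring)
  · -- values on the strings
    have hval : ∀ i ≤ n, ∀ a ∈ gr i, (L ^ (n - i + 1)) a = 0 → ∀ j,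
        u' ((L ^ j) a) = (L ^ j) ((e i 0 * u * e i 0) a) := by
      intro i hi a ha hp j
      have hb : (L ^ (n - i + 1)) ((e i 0 * u * e i 0) a) = 0 := by
        have h2 : e i 0 = (1 - L * Φ) * proj h i := by
          simp only [he, eij, pow_zero, one_mul, mul_one]
        rw [mul_assoc, Module.End.mul_apply, h2, Module.End.mul_apply]
        exact (prim_part hLh hbd hHL hLam hi (proj_mem h i _)).2
      by_cases hj : j ≤ n - i
      · rw [hu', LinearMap.sum_apply, Finset.sum_eq_single i]
        · rw [LinearMap.sum_apply, Finset.sum_eq_single j]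
          · rw [Module.End.mul_apply]
            simp only [he]
            rw [eij_apply h hLh hLam hi ha hp hj, if_pos ⟨rfl, rfl⟩, Module.End.mul_apply,
              lam_pow hLam hi ha hp hj j le_rfl, Nat.sub_self, pow_zero, Module.End.one_apply,
              Module.End.mul_apply]
          · intro j' _ hj'
            rw [Module.End.mul_apply]
            simp only [he]
            rw [eij_apply h hLh hLam hi ha hp hj, if_neg (by tauto), map_zero]
          · intro h'; exact absurd (Finset.mem_range.2 (by omega)) h'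
        · intro i' _ hi'
          rw [LinearMap.sum_apply]
          apply Finset.sum_eq_zero
          intro j' _
          rw [Module.End.mul_apply]
          simp only [he]
          rw [eij_apply h hLh hLam hi ha hp hj, if_neg (by tauto), map_zero]
        · intro h'; exact absurd (Finset.mem_range.2 (by omega)) h'
      · rw [L_pow_gt hp (by omega), map_zero, L_pow_gt hb (by omega)]
    apply LinearMap.ext
    intro x
    refine lef_induction' h hLh hbd hHL (p := fun x => (u' * L) x = (L * u') x) ?_ ?_ x
    · intro a b ha hb; rw [map_add, map_add, ha, hb]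
    · intro i hi a ha hp j
      rw [Module.End.mul_apply, Module.End.mul_apply, ← Module.End.mul_apply L, ← pow_succ',
        hval i hi a ha hp, hval i hi a ha hp, ← Module.End.mul_apply L, ← pow_succ']

/-- The weighted trace of an operator commuting with `L` vanishes. -/
lemma weighted_trace_zero [Module.Finite K V] (h : DirectSum.IsInternal gr)
    (hbd : ∀ i, 2 * n + 1 ≤ i → gr i = ⊥) (hLh : IsHom gr 2 L) (hHL : HardLef gr n L)
    {u : Module.End K V} (hu : u * L = L * u) :
    LinearMap.trace K V (wt h n * u) = 0 := by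
  obtain ⟨f, t, -, -⟩ := exists_sl2 h hLh hbd hHL
  rw [← t.ef, sub_mul, map_sub, sub_eq_zero, mul_assoc, LinearMap.trace_mul_comm, mul_assoc,
    mul_assoc f, hu]

/-- **Duality.** If the weighted traces of the numerically central operators vanish, then the
weight operator has the traces of a sum of commutators. -/
theorem exists_comm_of_central [Module.Finite K V] (hR : OpAlg gr R)
    (h : DirectSum.IsInternal gr) (hbd : ∀ i, 2 * n + 1 ≤ i → gr i = ⊥)
    (hstr : ∀ y, R 0 y → ∃ q : ℚ, LinearMap.trace K V (par h * y) = q)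
    (hP : ∀ i, R 0 (proj h i))
    (hcrit : ∀ u, R 0 u → (∀ d x, R d x → NumR h R d (x * u - u * x)) →
      LinearMap.trace K V (wt h n * u) = 0) :
    ∃ (s : ℕ) (u v : Fin s → Module.End K V), (∀ i, u i ∈ tot R) ∧ (∀ i, v i ∈ tot R) ∧
      ∑ i, (u i * v i - v i * u i) ∈ KS R 0 ∧
      ∀ γ ∈ KS R 0, LinearMap.trace K V ((∑ i, (u i * v i - v i * u i)) * γ) =
        LinearMap.trace K V (wt h n * γ) := by
  have hpar : R 0 (par h) := by
    rw [par, scal_eq_sum h hbd]
    apply hR.sum
    intro i _
    have h1 : ((-1 : K)) ^ i = (((-1 : ℚ) ^ i : ℚ) : K) := by push_cast; rfl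
    rw [h1]
    exact hR.smul _ (hP i)
  have hwt : R 0 (wt h n) := by
    rw [wt, scal_eq_sum h hbd]
    exact hR.sum (fun i _ => hR.smul _ (hP i))
  set C : Submodule K (Module.End K V) := Submodule.span K
    {w | ∃ (d : ℤ) (x y : Module.End K V), x ∈ KS R d ∧ y ∈ KS R (-d) ∧ w = x * y - y * x} with hC
  obtain ⟨w, hw, hw'⟩ := exists_rep_of_orth
    ((LinearMap.mul K (Module.End K V)).compr₂ (LinearMap.trace K V)) C (KS R 0)
    (LinearMap.trace K V ∘ₗ LinearMap.mulLeft K (wt h n)) (by
      intro γ hγ horth
      obtain ⟨m, c, z, hz, rfl⟩ := OpAlg.exists_rep hγ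
      set γ := ∑ i, c i • z i with hγdef
      change LinearMap.trace K V (wt h n * γ) = 0
      have horth' : ∀ w ∈ C, LinearMap.trace K V (w * γ) = 0 := horth
      rw [← Module.forall_dual_apply_eq_zero_iff ℚ]
      intro ret
      set u : Module.End K V := ∑ i, ((ret (c i) : ℚ) : K) • z i with hu
      have huR : R 0 u := hR.sum (fun i _ => hR.smul _ (hz i))
      have key : ∀ (F : Module.End K V →ₗ[K] K) (r : Fin m → ℚ), (∀ i, F (z i) = (r i : K)) →
          F u = ((ret (F γ) : ℚ) : K) := by
        intro F r hr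
        rw [hu, hγdef, map_sum, map_sum, map_sum]
        push_cast
        apply Finset.sum_congr rfl
        intro i _
        rw [map_smul, map_smul, hr, smul_eq_mul, smul_eq_mul, ret_mul]
        push_cast; rfl
      have h1 : LinearMap.trace K V (wt h n * u) = 0 := by
        apply hcrit u huR
        intro d x hx
        refine ⟨hR.sub (hR.cast (hR.mul hx huR) (by ring)) (hR.cast (hR.mul huR hx) (by ring)), ?_⟩
        intro y hy
        set F : Module.End K V →ₗ[K] K := LinearMap.trace K V ∘ₗ LinearMap.mulLeft K (par h) ∘ₗ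
          LinearMap.mulRight K y ∘ₗ (LinearMap.mulLeft K x - LinearMap.mulRight K x) with hF
        have hFa : ∀ g, F g = LinearMap.trace K V (par h * ((x * g - g * x) * y)) := fun g => rfl
        have hrat : ∀ i, ∃ q : ℚ, F (z i) = q := by
          intro i
          rw [hFa]
          apply hstr
          exact hR.cast (hR.mul (hR.sub (hR.cast (hR.mul hx (hz i)) (by ring : d + 0 = d))
            (hR.cast (hR.mul (hz i) hx) (by ring))) hy) (by ring)
        choose r hr using hrat
        rw [← hFa, key F r hr]
        have hpx : par h * x = x * par h := (hR.hom hx).par_comm h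
        have hpy : par h * y = y * par h := (hR.hom hy).par_comm h
        have h2 : F γ = 0 := by
          rw [hFa]
          have h3 : LinearMap.trace K V (par h * ((x * γ - γ * x) * y)) =
              LinearMap.trace K V (((par h * y) * x - x * (par h * y)) * γ) := by
            rw [sub_mul, mul_sub, map_sub, sub_mul, map_sub]
            congr 1
            · rw [show par h * (x * γ * y) = (par h * x * γ) * y by noncomm_ring,
                LinearMap.trace_mul_comm]
              congr 1
              rw [hpx, hpy]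
              simp only [mul_assoc]
              rw [← mul_assoc (par h) x, hpx]
              simp only [mul_assoc]
            · rw [show par h * (γ * x * y) = par h * γ * (x * y) by noncomm_ring,
                LinearMap.trace_mul_comm]
              congr 1
              rw [hpy]
              simp only [mul_assoc]
          rw [h3]
          apply horth'
          apply Submodule.subset_span
          refine ⟨-d, par h * y, x, ?_, ?_, rfl⟩
          · exact Submodule.subset_span (hR.cast (hR.mul hpar hy) (by ring))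
          · rw [neg_neg]; exact Submodule.subset_span hx
        rw [h2, map_zero, Rat.cast_zero]
      have hrat : ∀ i, ∃ q : ℚ, LinearMap.trace K V (wt h n * z i) = q := by
        intro i
        have h2 := hstr (par h * (wt h n * z i))
          (hR.cast (hR.mul hpar (hR.mul hwt (hz i))) (by ring))
        rwa [← mul_assoc (par h) (par h), par_mul_par, one_mul] at h2
      choose r hr using hrat
      have h2 := key (LinearMap.trace K V ∘ₗ LinearMap.mulLeft K (wt h n)) r hr
      rw [LinearMap.comp_apply, LinearMap.mulLeft_apply, h1, LinearMap.comp_apply,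
        LinearMap.mulLeft_apply] at h2
      exact_mod_cast h2.symm)
  have hw'' : ∀ γ ∈ KS R 0, LinearMap.trace K V (w * γ) = LinearMap.trace K V (wt h n * γ) := hw'
  have hCle : C ≤ KS R 0 := by
    rw [hC, Submodule.span_le]
    rintro _ ⟨d, x, y, hx, hy, rfl⟩
    exact Submodule.sub_mem _ (hR.kspan.cast (hR.kspan.mul hx hy) (by ring))
      (hR.kspan.cast (hR.kspan.mul hy hx) (by ring))
  have hwK := hCle hw
  rw [hC, Submodule.mem_span_set'] at hw
  obtain ⟨s, c, g, hg⟩ := hw
  choose d x y hx hy hxy using fun i => (g i).2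
  have hsum : ∑ i, ((c i • x i) * y i - y i * (c i • x i)) = w := by
    rw [← hg]
    apply Finset.sum_congr rfl
    intro i _
    rw [hxy i, smul_mul_assoc, mul_smul_comm, smul_sub]
  refine ⟨s, fun i => c i • x i, y, fun i => mem_tot (Submodule.smul_mem _ _ (hx i)),
    fun i => mem_tot (hy i), ?_, ?_⟩
  · rw [hsum]; exact hwK
  · rw [hsum]; exact hw''

end Pool.Agent.H447
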