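import Pool.Agent.H89.L.H914R2_TBase
import Pool.Agent.H89.L.H447R3_NumA

/-!
# Spectral projectors and traces
-/

open Polynomial Finset TensorProduct

namespace Pool.Agent.H447

open Pool.Agent.H914

section Closed

variable {K : Type*} [Field K] [CharZero K] {V : Type*} [AddCommGroup V] [Module K V]
  [Module.Finite K V]

/-- The spectral projectors of an operator, as polynomials in the operator. -/
theorem exists_spectral [IsAlgClosed K] (T : Module.End K V) :
    ∃ (s : Finset K) (E : K → Module.End K V) (N : ℕ), (∀ ν, ∃ p : K[X], E ν = aeval T p) ∧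
      (∑ ν ∈ s, E ν = 1) ∧ (∀ ν ∈ s, E ν * E ν = E ν) ∧
      ∀ ν ∈ s, (T - algebraMap K (Module.End K V) ν) ^ N * E ν = 0 := by
  classical
  set m := minpoly K T with hm
  have hmon : m.Monic := minpoly.monic (Algebra.IsIntegral.isIntegral T)
  set s := m.roots.toFinset with hs
  set N := m.natDegree with hN
  set F : K → K[X] := fun ν => (X - C ν) ^ N with hF
  have hdvd : m ∣ ∏ ν ∈ s, F ν := by
    rw [(IsAlgClosed.splits m).eq_prod_roots_of_monic hmon, prod_multiset_root_eq_finset_root]
    apply Finset.prod_dvd_prod_of_dvd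
    intro ν _
    apply pow_dvd_pow
    rw [hN, ← count_roots]
    exact (Multiset.count_le_card _ _).trans (Polynomial.card_roots' m)
  have hzero : aeval T (∏ ν ∈ s, F ν) = 0 := by
    obtain ⟨q, hq⟩ := hdvd
    rw [hq, map_mul, hm, minpoly.aeval, zero_mul]
  rcases s.eq_empty_or_nonempty with hse | hsn
  · refine ⟨s, fun _ => 0, 0, fun _ => ⟨0, by simp⟩, ?_, ?_, ?_⟩
    · rw [hse, Finset.prod_empty, map_one] at hzero
      rw [hse, Finset.sum_empty, hzero]
    · intro ν hν; rw [hse] at hν; exact absurd hν (Finset.notMem_empty _)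
    · intro ν hν; rw [hse] at hν; exact absurd hν (Finset.notMem_empty _)
  have hcop : Pairwise (Function.onFun IsCoprime fun i : s => F i) := by
    intro i j hij
    apply IsCoprime.pow
    apply isCoprime_X_sub_C_of_isUnit_sub
    exact (sub_ne_zero_of_ne (fun h => hij (Subtype.ext h))).isUnit
  obtain ⟨μ, hμ⟩ := (exists_sum_eq_one_iff_pairwise_coprime hsn).2 hcop
  set p : K → K[X] := fun ν => μ ν * ∏ j ∈ s \ {ν}, F j with hp
  have hsum : ∑ ν ∈ s, aeval T (p ν) = 1 := by
    rw [← map_sum, hμ, map_one]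
  have hprod : ∀ ν ∈ s, F ν * ∏ j ∈ s \ {ν}, F j = ∏ j ∈ s, F j := by
    intro ν hν
    rw [← Finset.prod_sdiff (Finset.singleton_subset_iff.2 hν), Finset.prod_singleton, mul_comm]
  have horth : ∀ ν ∈ s, ∀ κ ∈ s, ν ≠ κ → aeval T (p ν) * aeval T (p κ) = 0 := by
    intro ν hν κ hκ hne
    have h1 : F ν ∣ ∏ j ∈ s \ {κ}, F j := by
      apply Finset.dvd_prod_of_mem
      rw [Finset.mem_sdiff, Finset.mem_singleton]
      exact ⟨hν, hne⟩
    obtain ⟨q, hq⟩ := h1
    have h2 : p ν * p κ = (∏ j ∈ s, F j) * (μ ν * μ κ * q) := by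
      rw [hp]
      beta_reduce
      rw [hq, ← hprod ν hν]; ring
    rw [← map_mul, h2, map_mul, hzero, zero_mul]
  refine ⟨s, fun ν => aeval T (p ν), N, fun ν => ⟨p ν, rfl⟩, hsum, ?_, ?_⟩
  · intro ν hν
    have h1 : aeval T (p ν) * (∑ κ ∈ s, aeval T (p κ)) = aeval T (p ν) * aeval T (p ν) := by
      rw [Finset.mul_sum]
      exact Finset.sum_eq_single ν (fun κ hκ hne => horth ν hν κ hκ (Ne.symm hne))
        (fun h => absurd hν h)
    rw [← h1, hsum, mul_one]
  · intro ν hν
    have h1 : (T - algebraMap K (Module.End K V) ν) ^ N = aeval T (F ν) := by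
      rw [hF]; simp
    rw [h1, ← map_mul, hp]
    beta_reduce
    rw [show F ν * (μ ν * ∏ j ∈ s \ {ν}, F j) = (F ν * ∏ j ∈ s \ {ν}, F j) * μ ν by ring,
      hprod ν hν, map_mul, hzero, zero_mul]

/-- Traces against a spectral projector. -/
lemma trace_spectral {T S E : Module.End K V} {ν : K} {N : ℕ} (hST : Commute S T)
    (hSE : Commute S E) (hTE : Commute T E)
    (hN : (T - algebraMap K (Module.End K V) ν) ^ N * E = 0) :
    LinearMap.trace K V (S * (T * E)) = ν * LinearMap.trace K V (S * E) := by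
  have hnil : IsNilpotent (S * ((T - algebraMap K (Module.End K V) ν) * E)) := by
    have hc1 : Commute S (algebraMap K (Module.End K V) ν) := (Algebra.commutes ν S).symm
    have hc2 : Commute (T - algebraMap K (Module.End K V) ν) E :=
      hTE.sub_left (Algebra.commutes ν E)
    have hc3 : Commute S ((T - algebraMap K (Module.End K V) ν) * E) :=
      (hST.sub_right hc1).mul_right hSE
    refine ⟨N + 1, ?_⟩
    set T' := T - algebraMap K (Module.End K V) ν with hT'
    have h1 : T' ^ (N + 1) * E ^ (N + 1) = 0 := by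
      calc T' ^ (N + 1) * E ^ (N + 1) = T' ^ N * (T' * E) * E ^ N := by
            rw [pow_succ, pow_succ' E]; simp only [mul_assoc]
        _ = (T' ^ N * E) * (T' * E ^ N) := by rw [hc2.eq]; simp only [mul_assoc]
        _ = 0 := by rw [hN, zero_mul]
    rw [hc3.mul_pow, hc2.mul_pow, h1, mul_zero]
  have h1 := (LinearMap.isNilpotent_trace_of_isNilpotent hnil).eq_zero
  have h2 : S * ((T - algebraMap K (Module.End K V) ν) * E) = S * (T * E) - ν • (S * E) := by
    rw [sub_mul, mul_sub, ← Algebra.smul_def, mul_smul_comm]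
  rw [h2, map_sub, map_smul, sub_eq_zero, smul_eq_mul] at h1
  exact h1

end Closed

/-- A finite system of orthogonal projectors with sum one. -/
structure ProjSys {K : Type*} [Field K] {V : Type*} [AddCommGroup V] [Module K V]
    (P : ℕ → Module.End K V) (m : ℕ) : Prop where
  idem : ∀ i, P i * P i = P i
  orth : ∀ i j, i ≠ j → P i * P j = 0
  sum : ∑ i ∈ range m, P i = 1

section

variable {K : Type*} [Field K] [CharZero K] {V : Type*} [AddCommGroup V] [Module K V]
  [Module.Finite K V]

omit [CharZero K] [Module.Finite K V] in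
lemma comm_aeval {A T : Module.End K V} (h : Commute A T) (p : K[X]) : Commute A (aeval T p) := by
  induction p using Polynomial.induction_on' with
  | add p q hp hq => rw [map_add]; exact hp.add_right hq
  | monomial k c =>
    rw [aeval_monomial]
    have h1 : Commute A (algebraMap K (Module.End K V) c) := (Algebra.commutes c A).symm
    exact h1.mul_right (h.pow_right k)

omit [CharZero K] [Module.Finite K V] in
lemma trace_aeval {c T : Module.End K V} (h : ∀ k : ℕ, LinearMap.trace K V (c * T ^ k) = 0)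
    (p : K[X]) : LinearMap.trace K V (c * aeval T p) = 0 := by
  induction p using Polynomial.induction_on' with
  | add p q hp hq => rw [map_add, mul_add, map_add, hp, hq, add_zero]
  | monomial k a =>
    rw [aeval_monomial, Algebra.algebraMap_eq_smul_one, smul_mul_assoc, one_mul, mul_smul_comm,
      map_smul, h, smul_zero]

/-- **The spectral argument**, over an algebraically closed field. -/
theorem nilp_closed [IsAlgClosed K] {P : ℕ → Module.End K V} {m : ℕ} (hP : ProjSys P m)
    (lam : ℕ → ℚ) {T H : Module.End K V} (hT : ∀ i, Commute T (P i))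
    (hH : H = ∑ i ∈ range m, (lam i : K) • P i)
    (h1 : ∀ k : ℕ, LinearMap.trace K V ((T - H) * T ^ k) = 0)
    (h2 : LinearMap.trace K V ((T - H) * (T - H)) = 0) : IsNilpotent (T - H) := by
  obtain ⟨s, E, N, hEp, hE1, hEE, hEN⟩ := exists_spectral T
  have hTE : ∀ ν, Commute T (E ν) := by
    intro ν
    obtain ⟨p, hp⟩ := hEp ν
    rw [hp]; exact comm_aeval (Commute.refl T) p
  have hPE : ∀ i ν, Commute (P i) (E ν) := by
    intro i ν
    obtain ⟨p, hp⟩ := hEp ν
    rw [hp]; exact comm_aeval (hT i).symm p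
  set r : K → ℕ → ℕ := fun ν i => Module.finrank K (LinearMap.range (P i * E ν)) with hr
  have hidem : ∀ ν ∈ s, ∀ i, P i * E ν * (P i * E ν) = P i * E ν := by
    intro ν hν i
    calc P i * E ν * (P i * E ν) = P i * (E ν * P i) * E ν := by simp only [mul_assoc]
      _ = (P i * P i) * (E ν * E ν) := by rw [← (hPE i ν).eq]; simp only [mul_assoc]
      _ = P i * E ν := by rw [hP.idem, hEE ν hν]
  have htr : ∀ ν ∈ s, ∀ i, LinearMap.trace K V (P i * E ν) = (r ν i : K) := fun ν hν i =>
    trace_idem (hidem ν hν i)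
  have hHP : ∀ i ∈ range m, H * P i = (lam i : K) • P i := by
    intro i hi
    rw [hH, Finset.sum_mul, Finset.sum_eq_single i]
    · rw [smul_mul_assoc, hP.idem]
    · intro j _ hj
      rw [smul_mul_assoc, hP.orth j i hj, smul_zero]
    · intro h; exact absurd hi h
  -- the first relation
  have hA : ∀ ν ∈ s, ν * ∑ i ∈ range m, (r ν i : K) = ∑ i ∈ range m, (lam i : K) * (r ν i : K) := by
    intro ν hν
    obtain ⟨p, hp⟩ := hEp ν
    have e1 := trace_aeval h1 p
    rw [← hp, sub_mul, map_sub, sub_eq_zero] at e1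
    have e2 : LinearMap.trace K V (T * E ν) = ν * ∑ i ∈ range m, (r ν i : K) := by
      have e3 := trace_spectral (S := (1 : Module.End K V)) (Commute.one_left T)
        (Commute.one_left (E ν)) (hTE ν) (hEN ν hν)
      rw [one_mul, one_mul] at e3
      rw [e3]
      congr 1
      conv_lhs => rw [← one_mul (E ν), ← hP.sum, Finset.sum_mul, map_sum]
      exact Finset.sum_congr rfl (fun i _ => htr ν hν i)
    rw [← e2, e1, hH, Finset.sum_mul, map_sum]
    apply Finset.sum_congr rfl
    intro i _
    rw [smul_mul_assoc, map_smul, htr ν hν i, smul_eq_mul]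
  -- the second relation
  have hcP : ∀ i ∈ range m, (T - H) * P i = (T - algebraMap K (Module.End K V) (lam i)) * P i := by
    intro i hi
    rw [sub_mul, hHP i hi, sub_mul, ← Algebra.smul_def]
  have hB : ∀ ν ∈ s, ∀ i ∈ range m, LinearMap.trace K V ((T - H) * (T - H) * (P i * E ν)) =
      (ν - lam i) ^ 2 * (r ν i : K) := by
    intro ν hν i hi
    set a : Module.End K V := algebraMap K (Module.End K V) (lam i) with ha
    have hca : ∀ x : Module.End K V, Commute a x := fun x => Algebra.commutes _ x
    have hcP' : (T - a) * P i = P i * (T - a) :=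
      (((hT i).sub_left (hca (P i))).eq)
    have e1 : (T - H) * (T - H) * (P i * E ν) = P i * (T - a) * ((T - a) * E ν) := by
      calc (T - H) * (T - H) * (P i * E ν) = (T - H) * ((T - H) * P i) * E ν := by
            simp only [mul_assoc]
        _ = (T - H) * (P i * (T - a)) * E ν := by rw [hcP i hi, hcP']
        _ = ((T - H) * P i) * (T - a) * E ν := by simp only [mul_assoc]
        _ = P i * (T - a) * ((T - a) * E ν) := by rw [hcP i hi, hcP']; simp only [mul_assoc]
    have hS : Commute (P i * (T - a)) T :=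
      (hT i).symm.mul_left ((Commute.refl T).sub_left (hca T))
    have hS' : Commute (P i * (T - a)) (E ν) :=
      (hPE i ν).mul_left ((hTE ν).sub_left (hca (E ν)))
    have e2 : ∀ S : Module.End K V, Commute S T → Commute S (E ν) →
        LinearMap.trace K V (S * ((T - a) * E ν)) = (ν - lam i) * LinearMap.trace K V (S * E ν) := by
      intro S h3 h4
      rw [sub_mul, mul_sub, map_sub, trace_spectral h3 h4 (hTE ν) (hEN ν hν), ha,
        ← Algebra.smul_def, mul_smul_comm, map_smul, smul_eq_mul, sub_mul]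
    rw [e1, e2 _ hS hS', mul_assoc (P i), e2 _ (hT i).symm (hPE i ν), htr ν hν i]
    ring
  have hdecomp : ∀ x : Module.End K V, x = ∑ ν ∈ s, ∑ i ∈ range m, x * (P i * E ν) := by
    intro x
    conv_lhs => rw [← mul_one x, ← hE1, Finset.mul_sum]
    apply Finset.sum_congr rfl
    intro ν _
    conv_lhs => rw [← one_mul (E ν), ← hP.sum, Finset.sum_mul, Finset.mul_sum]
  have hC : ∑ ν ∈ s, ∑ i ∈ range m, (ν - lam i) ^ 2 * (r ν i : K) = 0 := by
    rw [← h2]
    conv_rhs => rw [hdecomp ((T - H) * (T - H)), map_sum]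
    apply Finset.sum_congr rfl
    intro ν hν
    rw [map_sum]
    exact Finset.sum_congr rfl (fun i hi => (hB ν hν i hi).symm)
  -- rationality
  set q : K → ℚ := fun ν => (∑ i ∈ range m, lam i * (r ν i : ℚ)) / (∑ i ∈ range m, (r ν i : ℚ))
    with hq
  have hqν : ∀ ν ∈ s, ∀ i ∈ range m, r ν i ≠ 0 → ν = (q ν : K) := by
    intro ν hν i hi hri
    have hpos : (∑ i ∈ range m, (r ν i : K)) ≠ 0 := by
      have h3 : ∑ i ∈ range m, r ν i ≠ 0 := by
        intro h0
        exact hri (Finset.sum_eq_zero_iff.1 h0 i hi)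
      exact_mod_cast h3
    rw [hq]
    push_cast
    rw [eq_div_iff hpos]
    exact hA ν hν
  have hterm : ∀ ν ∈ s, ∀ i ∈ range m, (ν - lam i) ^ 2 * (r ν i : K) =
      (((q ν - lam i) ^ 2 * (r ν i : ℚ) : ℚ) : K) := by
    intro ν hν i hi
    by_cases h0 : r ν i = 0
    · rw [h0]; simp
    · push_cast
      rw [← hqν ν hν i hi h0]
  have hD : ∑ ν ∈ s, ∑ i ∈ range m, (q ν - lam i) ^ 2 * (r ν i : ℚ) = 0 := by
    have : ((∑ ν ∈ s, ∑ i ∈ range m, (q ν - lam i) ^ 2 * (r ν i : ℚ) : ℚ) : K) = 0 := by
      rw [Rat.cast_sum, ← hC]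
      apply Finset.sum_congr rfl
      intro ν hν
      rw [Rat.cast_sum]
      exact Finset.sum_congr rfl (fun i hi => (hterm ν hν i hi).symm)
    exact_mod_cast this
  have hnn : ∀ ν i, 0 ≤ (q ν - lam i) ^ 2 * (r ν i : ℚ) := fun ν i => by positivity
  have hE : ∀ ν ∈ s, ∀ i ∈ range m, r ν i = 0 ∨ ν = lam i := by
    intro ν hν i hi
    by_cases h0 : r ν i = 0
    · exact Or.inl h0
    · right
      have h3 := (Finset.sum_eq_zero_iff_of_nonneg (fun ν _ => Finset.sum_nonneg
        (fun i _ => hnn ν i))).1 hD ν hν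
      have h4 := (Finset.sum_eq_zero_iff_of_nonneg (fun i _ => hnn ν i)).1 h3 i hi
      have h5 : (q ν - lam i) ^ 2 = 0 := (mul_eq_zero.1 h4).resolve_right (by exact_mod_cast h0)
      have h6 : q ν = lam i := by
        have := pow_eq_zero_iff (two_ne_zero) |>.1 h5
        linarith
      rw [hqν ν hν i hi h0, h6]
  refine ⟨N, ?_⟩
  rw [hdecomp ((T - H) ^ N)]
  apply Finset.sum_eq_zero
  intro ν hν
  apply Finset.sum_eq_zero
  intro i hi
  rcases hE ν hν i hi with h0 | h0
  · have : P i * E ν = 0 := by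
      apply eq_zero_of_idem_of_trace_eq_zero (hidem ν hν i)
      rw [htr ν hν i, h0, Nat.cast_zero]
    rw [this, mul_zero]
  · have hpow : ∀ k : ℕ, (T - H) ^ k * P i = (T - algebraMap K (Module.End K V) ν) ^ k * P i := by
      intro k
      induction k with
      | zero => simp
      | succ k ih =>
        have hc : (T - algebraMap K (Module.End K V) ν) * P i =
            P i * (T - algebraMap K (Module.End K V) ν) :=
          ((hT i).sub_left (Algebra.commutes ν (P i))).eq
        rw [pow_succ, mul_assoc, hcP i hi, ← h0, hc, ← mul_assoc, ih, pow_succ, mul_assoc,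
          mul_assoc, hc]
    rw [← mul_assoc, hpow, mul_assoc, (hPE i ν).eq, ← mul_assoc, hEN ν hν, zero_mul]

/-- **The spectral argument.** -/
theorem nilp_of_traces {P : ℕ → Module.End K V} {m : ℕ} (hP : ProjSys P m)
    (lam : ℕ → ℚ) {T H : Module.End K V} (hT : ∀ i, Commute T (P i))
    (hH : H = ∑ i ∈ range m, (lam i : K) • P i)
    (h1 : ∀ k : ℕ, LinearMap.trace K V ((T - H) * T ^ k) = 0)
    (h2 : LinearMap.trace K V ((T - H) * (T - H)) = 0) : IsNilpotent (T - H) := by
  set Kb := AlgebraicClosure K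
  have key := nilp_closed (K := Kb) (V := Kb ⊗[K] V) (P := fun i => (P i).baseChange Kb) (m := m)
    ⟨fun i => by rw [← bc_mul, hP.idem], fun i j hij => by rw [← bc_mul, hP.orth i j hij, bc_zero],
      by
        have := congrArg (fun F => Module.End.baseChangeHom K Kb V F) hP.sum
        rw [map_sum, map_one] at this
        exact this⟩ lam (T := T.baseChange Kb) (H := H.baseChange Kb)
    (fun i => by
      have := (hT i).eq
      rw [Commute, SemiconjBy, ← bc_mul, ← bc_mul, this])
    (by
      have h3 := congrArg (fun F => Module.End.baseChangeHom K Kb V F) hH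
      rw [map_sum] at h3
      refine h3.trans (Finset.sum_congr rfl (fun i _ => ?_))
      have h4 := bc_smul Kb ((lam i : K)) (P i)
      rw [map_ratCast] at h4
      exact h4)
    (fun k => by
      rw [← bc_sub, ← bc_pow, ← bc_mul]
      have h3 := LinearMap.trace_baseChange ((T - H) * T ^ k) Kb
      rw [h1 k, map_zero] at h3
      exact h3)
    (by
      rw [← bc_sub, ← bc_mul]
      have h3 := LinearMap.trace_baseChange ((T - H) * (T - H)) Kb
      rw [h2, map_zero] at h3
      exact h3)
  obtain ⟨N, hN⟩ := key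
  refine ⟨N, bc_inj Kb ?_⟩
  rw [bc_pow, bc_sub, hN, bc_zero]

end

end Pool.Agent.H447
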