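import Pool.Agent.H39.L.H447R3_SpA
import Pool.Agent.H89.L.H447R3_WtB

/-!
# A numerical approximation of the lowering operator
-/

open Polynomial Finset

namespace Pool.Agent.H447

open Pool.Agent.H914

variable {K : Type*} [Field K] [CharZero K] {V : Type*} [AddCommGroup V] [Module K V]
  [Module.Finite K V] {gr : ℕ → Submodule K V} {n : ℕ} {L : Module.End K V}
  {R : ℤ → Module.End K V → Prop}

omit [CharZero K] [Module.Finite K V] in
lemma projSys (h : DirectSum.IsInternal gr) (hbd : ∀ i, 2 * n + 1 ≤ i → gr i = ⊥) :
    ProjSys (proj h) (2 * n + 1) where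
  idem := proj_mul_proj h
  orth i j hij := proj_mul_ne h hij
  sum := by
    rw [← scal_one h, scal_eq_sum h hbd]
    simp

/-- **The main lemma.** If the parity operator is in the algebra and the lowering operator has the
super traces of an element `z` of the algebra, then `[L, z]` differs from the weight operator by a
nilpotent operator. -/
theorem nilp_of_num (hR : OpAlg gr R) (h : DirectSum.IsInternal gr)
    (hbd : ∀ i, 2 * n + 1 ≤ i → gr i = ⊥) (hL : R 1 L) (hpar : R 0 (par h))
    {f : Module.End K V} (t : Sl2 (wt h n) L f) {z : Module.End K V} (hz : R (-1) z)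
    (hzf : ∀ y, R 1 y →
      LinearMap.trace K V (par h * (z * y)) = LinearMap.trace K V (par h * (f * y))) :
    IsNilpotent ((L * z - z * L) - wt h n) := by
  have hLh := hR.hom hL
  have hTR : R 0 (L * z - z * L) :=
    hR.sub (hR.cast (hR.mul hL hz) (by ring)) (hR.cast (hR.mul hz hL) (by ring))
  have hTh : IsHom gr 0 (L * z - z * L) := by simpa using hR.hom hTR
  have hpp : par h * par h = 1 := par_mul_par h
  -- super traces of commutators
  have hS : ∀ x w : Module.End K V, LinearMap.trace K V (par h * ((L * x - x * L) * w)) =
      LinearMap.trace K V (par h * (x * (w * L - L * w))) := by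
    intro x w
    have e1 : LinearMap.trace K V (par h * (L * (x * w))) =
        LinearMap.trace K V (par h * (x * w * L)) := str_comm h hLh
    rw [sub_mul, mul_sub, map_sub, mul_assoc L, e1, mul_assoc x w, mul_assoc x L, mul_sub x,
      mul_sub (par h), map_sub]
  have hkey : ∀ u, R 0 u → LinearMap.trace K V ((L * z - z * L) * u) =
      LinearMap.trace K V (wt h n * u) := by
    intro u hu
    have hw : R 0 (par h * u) := hR.cast (hR.mul hpar hu) (by ring)
    have e1 := hS z (par h * u)
    have e2 := hS f (par h * u)
    rw [t.ef] at e2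
    rw [hzf _ (hR.sub (hR.cast (hR.mul hw hL) (by ring)) (hR.cast (hR.mul hL hw) (by ring))),
      ← e2] at e1
    have e3 : ∀ x : Module.End K V, par h * x = x * par h →
        par h * (x * (par h * u)) = x * u := by
      intro x hx
      rw [← mul_assoc, ← mul_assoc, hx, mul_assoc x, hpp, mul_one]
    rw [e3 _ (IsHom.par_comm (d := 0) h (by simpa using hTh)), e3 _ ?_] at e1
    · exact e1
    · rw [par, wt, scal_mul, scal_mul]
      congr 1
      funext i
      rw [mul_comm]
  set T := L * z - z * L with hT
  have hH : wt h n = ∑ i ∈ range (2 * n + 1), ((node n i : ℚ) : K) • proj h i :=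
    scal_eq_sum h hbd _
  clear_value T
  apply nilp_of_traces (projSys h hbd) (node n) (fun i => (hTh.proj_comm h i).symm) hH
  · intro k
    rw [sub_mul, map_sub, hkey _ (hR.cast (hR.pow hTR k) (by simp)), sub_self]
  · have e1 : LinearMap.trace K V (T * T) = LinearMap.trace K V (wt h n * T) := hkey T hTR
    have e2 : ∀ x : Module.End K V, LinearMap.trace K V (wt h n * (L * x - x * L)) =
        2 * LinearMap.trace K V (x * L) := by
      intro x
      have e3 : LinearMap.trace K V (wt h n * (x * L)) = LinearMap.trace K V (L * wt h n * x) := by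
        rw [← mul_assoc, LinearMap.trace_mul_comm, mul_assoc]
      rw [mul_sub, map_sub, e3, ← mul_assoc, ← map_sub, ← sub_mul, t.he, mul_assoc, two_mul,
        map_add, LinearMap.trace_mul_comm, two_mul]
    have e4 : LinearMap.trace K V (z * L) = LinearMap.trace K V (f * L) := by
      have e5 := hzf (L * par h) (hR.cast (hR.mul hL hpar) (by ring))
      have e6 : ∀ x : Module.End K V, LinearMap.trace K V (par h * (x * (L * par h))) =
          LinearMap.trace K V (x * L) := by
        intro x
        rw [← mul_assoc x, ← mul_assoc, LinearMap.trace_mul_comm, ← mul_assoc, ← mul_assoc, hpp,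
          one_mul]
      rwa [e6, e6] at e5
    have e7 : LinearMap.trace K V (wt h n * T) = LinearMap.trace K V (wt h n * wt h n) := by
      rw [hT, e2, e4, ← e2, t.ef]
    rw [sub_mul, mul_sub, mul_sub, map_sub, map_sub, map_sub, e1, LinearMap.trace_mul_comm K T,
      sub_self, zero_sub, ← e7, sub_self, neg_zero]

end Pool.Agent.H447
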