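import Pool.Agent.H39.L.H447R3_KuDefs

/-!
# Numerical projectors and their intersection numbers with the diagonal: definitions
-/

open CategoryTheory AlgebraicGeometry

universe u v

namespace Pool.Agent.H578R3.Sgn

open Pool.Agent.H914 VarClass Obj WeilCohomology Pool.Agent.H447

variable {k : Type u} [Field k] {𝒱 : VarClass k} {ops : CycleOps 𝒱}

/-- The intersection number of the cycle `z` on `X × X` with the diagonal: the degree of the
pull-back of `z` by the diagonal map. -/
noncomputable def diagNumber (ops : CycleOps 𝒱) (X : 𝒱.Obj) (z : (X.prod X).Cycles) : ℚ :=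
  X.V.degCycle (ops.pull (diag X) z)

/-- `z` is a cycle of codimension `dim X` on `X × X` which is a projector modulo numerical
equivalence: `z ∘ z` is numerically equivalent to `z`. -/
def NumProjector (ops : CycleOps 𝒱) (X : 𝒱.Obj) (z : (X.prod X).Cycles) : Prop :=
  (X.prod X).IsCyc X.dim z ∧ NumEquiv ops (X.prod X) X.dim (compCyc ops z z) z

/-- The sum of the dimensions of the cohomology groups of `X` of even degree. -/
noncomputable def evenBetti (W : WeilCohomology.{u, v} ops) (X : 𝒱.Obj) : ℕ :=
  ∑ i ∈ (Finset.range (2 * X.dim + 1)).filter Even, Module.finrank W.K (W.gr X i)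

/-- The projector onto the even cohomology of `X` is induced by the cycle `P` on `X × X`. -/
def InducesEven (W : WeilCohomology.{u, v} ops) (X : 𝒱.Obj) (P : (X.prod X).Cycles) : Prop :=
  IsEvenProj (W.gr X) (W.corr (W.cl (X.prod X) P))

end Pool.Agent.H578R3.Sgn
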