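import Pool.Agent.H39.L.H447R3_KuA
import Pool.Agent.H89.L.H914R2_Core0
import Pool.Agent.H89.L.H914R2_Core2

/-!
# Operators whose powers all have the same super trace
-/

open Polynomial Finset

namespace Pool.Agent.H578R3.Sgn

open Pool.Agent.H914 Pool.Agent.H447

variable {K : Type*} [Field K] {V : Type*} [AddCommGroup V] [Module K V]

/-- If all the traces of `S T^(r+1)` are equal to `b` then `tr (S T g(T)) = b g(1)`. -/
lemma trace_mul {S T : Module.End K V} {b : K}
    (h : ∀ r : ℕ, LinearMap.trace K V (S * T ^ (r + 1)) = b) (g : K[X]) :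
    LinearMap.trace K V (S * (T * aeval T g)) = b * g.eval 1 := by
  induction g using Polynomial.induction_on' with
  | add p q hp hq => rw [map_add, mul_add, mul_add, map_add, hp, hq, eval_add]; ring
  | monomial r c =>
    rw [aeval_monomial]
    have : S * (T * ((algebraMap K (Module.End K V)) c * T ^ r)) = c • (S * T ^ (r + 1)) := by
      rw [Algebra.algebraMap_eq_smul_one, smul_mul_assoc, one_mul, mul_smul_comm, ← pow_succ',
        mul_smul_comm]
    rw [this, map_smul, h, smul_eq_mul, eval_monomial]
    ring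

/-- The spectral projector for the eigenvalue `1`. -/
lemma exists_one_proj [Module.Finite K V] (T : Module.End K V) : ∃ g : K[X], g.eval 1 = 1 ∧
    (T * aeval T g) * (T * aeval T g) = T * aeval T g ∧
    ∃ N : ℕ, (T - 1) ^ N * (T * aeval T g) = 0 := by
  set χ := minpoly K T with hχ
  have hχ0 : χ ≠ 0 := minpoly.ne_zero (Algebra.IsIntegral.isIntegral T)
  obtain ⟨r, hr, hnd⟩ := exists_eq_pow_rootMultiplicity_mul_and_not_dvd χ hχ0 1
  set n := rootMultiplicity 1 χ with hn
  have hirr : Irreducible (X - C (1 : K)) := irreducible_X_sub_C 1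
  have hX : ¬ (X - C (1 : K)) ∣ X := by
    intro h
    rw [dvd_iff_isRoot] at h
    simp at h
  have hcop : IsCoprime ((X - C (1 : K)) ^ (n + 1)) (X * r) := by
    apply IsCoprime.pow_left
    rw [hirr.coprime_iff_not_dvd]
    intro h
    rcases hirr.prime.dvd_or_dvd h with h | h
    · exact hX h
    · exact hnd h
  obtain ⟨a, b, hab⟩ := hcop
  have hT0 : aeval T ((X - C (1 : K)) ^ n * r) = 0 := by rw [← hr, hχ, minpoly.aeval]
  have hE : T * aeval T (b * r) = aeval T (b * (X * r)) := by
    rw [show b * (X * r) = X * (b * r) by ring, map_mul (aeval T) X, aeval_X]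
  refine ⟨b * r, ?_, ?_, n + 1, ?_⟩
  · have h1 := congrArg (fun f => f.eval 1) hab
    simpa using h1
  · rw [hE, ← map_mul]
    have h1 : b * (X * r) * (b * (X * r)) = b * (X * r) -
        ((X - C (1 : K)) ^ n * r) * ((X - C 1) * (a * b * X)) := by
      have h2 : b * (X * r) = 1 - a * (X - C 1) ^ (n + 1) := by rw [← hab]; ring
      calc b * (X * r) * (b * (X * r)) = b * (X * r) * (1 - a * (X - C 1) ^ (n + 1)) := by
            rw [← h2]
        _ = _ := by rw [pow_succ]; ring
    rw [h1, map_sub, map_mul (aeval T) ((X - C (1 : K)) ^ n * r), hT0, zero_mul, sub_zero]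
  · have h1 : (T - 1) ^ (n + 1) = aeval T ((X - C (1 : K)) ^ (n + 1)) := by simp
    rw [hE, h1, ← map_mul, show (X - C (1 : K)) ^ (n + 1) * (b * (X * r)) =
      ((X - C (1 : K)) ^ n * r) * ((X - C 1) * (b * X)) by rw [pow_succ]; ring,
      map_mul (aeval T) ((X - C (1 : K)) ^ n * r), hT0, zero_mul]

lemma idem_pow {p : Module.End K V} (hp : p * p = p) (k : ℕ) : p ^ (k + 1) = p := by
  induction k with
  | zero => rw [zero_add, pow_one]
  | succ k ih => rw [pow_succ, ih, hp]

variable [CharZero K] [Module.Finite K V]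

/-- **Operators whose powers all have the same super trace.** -/
theorem main {p T : Module.End K V} (hp : p * p = p) (hT : Commute T p) {d : K}
    (h : ∀ r : ℕ, LinearMap.trace K V ((p - (1 - p)) * T ^ (r + 1)) = d) :
    ∃ a b c : ℕ, d = (a : K) - b ∧ LinearMap.trace K V p = a + c ∧
      (b = 0 → c = 0 → ∀ N : ℕ, 1 ≤ N → Module.finrank K V ≤ N → p = 1 - (1 - T ^ N) ^ N) := by
  obtain ⟨g, hg1, hEE, M, hM⟩ := exists_one_proj T
  set E := T * aeval T g with hE
  have hEp : Commute E p := hT.mul_left (comm_aeval hT.symm g).symm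
  have hET : Commute E T := (Commute.refl T).mul_left (comm_aeval (Commute.refl T) g).symm
  have hq : (1 - p) * (1 - p) = 1 - p := by rw [mul_sub, sub_mul, sub_mul, hp]; simp
  have hF : (1 - E) * (1 - E) = 1 - E := by rw [mul_sub, sub_mul, sub_mul, hEE]; simp
  have hEq : Commute E (1 - p) := (Commute.one_right E).sub_right hEp
  have hpF : Commute (1 - E) p := (Commute.one_left p).sub_left hEp
  have i1 : (p * E) * (p * E) = p * E := by
    calc (p * E) * (p * E) = p * (E * p) * E := by simp only [mul_assoc]
      _ = (p * p) * (E * E) := by rw [hEp.eq]; simp only [mul_assoc]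
      _ = p * E := by rw [hp, hEE]
  have i2 : ((1 - p) * E) * ((1 - p) * E) = (1 - p) * E := by
    calc ((1 - p) * E) * ((1 - p) * E) = (1 - p) * (E * (1 - p)) * E := by simp only [mul_assoc]
      _ = ((1 - p) * (1 - p)) * (E * E) := by rw [hEq.eq]; simp only [mul_assoc]
      _ = (1 - p) * E := by rw [hq, hEE]
  have i3 : (p * (1 - E)) * (p * (1 - E)) = p * (1 - E) := by
    calc (p * (1 - E)) * (p * (1 - E)) = p * ((1 - E) * p) * (1 - E) := by simp only [mul_assoc]
      _ = (p * p) * ((1 - E) * (1 - E)) := by rw [hpF.eq]; simp only [mul_assoc]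
      _ = p * (1 - E) := by rw [hp, hF]
  have t1 := trace_idem i1
  have t2 := trace_idem i2
  have t3 := trace_idem i3
  refine ⟨Module.finrank K (LinearMap.range (p * E)),
    Module.finrank K (LinearMap.range ((1 - p) * E)),
    Module.finrank K (LinearMap.range (p * (1 - E))), ?_, ?_, ?_⟩
  · have h1 := trace_mul h g
    rw [hg1, mul_one, ← hE, sub_mul, map_sub, t1, t2] at h1
    exact h1.symm
  · rw [← t1, ← t3, ← map_add]
    congr 1
    noncomm_ring
  · intro hb hc N hN1 hN
    have z2 : (1 - p) * E = 0 := by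
      apply eq_zero_of_idem_of_trace_eq_zero i2
      rw [t2, hb, Nat.cast_zero]
    have z3 : p * (1 - E) = 0 := by
      apply eq_zero_of_idem_of_trace_eq_zero i3
      rw [t3, hc, Nat.cast_zero]
    have hpE : p = p * E := by
      rw [mul_sub, mul_one, sub_eq_zero] at z3
      exact z3
    have hd : d = LinearMap.trace K V p := by
      have h1 := trace_mul h g
      rw [hg1, mul_one, ← hE, sub_mul, map_sub, z2, map_zero, sub_zero, ← hpE] at h1
      exact h1.symm
    have hcp : Commute p (T - 1) := hT.symm.sub_right (Commute.one_right p)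
    have hn1 : IsNilpotent (p * (T - 1)) := by
      refine ⟨M + 1, ?_⟩
      have h1 : p * (T - 1) ^ M = 0 := by
        rw [(hcp.pow_right M).eq, hpE, (hEp.symm).eq, ← mul_assoc, hM, zero_mul]
      rw [hcp.mul_pow, idem_pow hp, pow_succ, ← mul_assoc, h1, zero_mul]
    have htr : ∀ r : ℕ, LinearMap.trace K V (p * T ^ (r + 1)) = LinearMap.trace K V p := by
      intro r
      have h1 : p * T ^ (r + 1) - p = (p * (T - 1)) * ∑ i ∈ range (r + 1), T ^ i := by
        rw [mul_assoc, mul_geom_sum, mul_sub, mul_one]
      have h2 : Commute (p * (T - 1)) (∑ i ∈ range (r + 1), T ^ i) := by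
        apply Commute.sum_right
        intro i _
        exact (hT.symm.pow_right i).mul_left
          (((Commute.refl T).sub_left (Commute.one_left T)).pow_right i)
      have h3 := (LinearMap.isNilpotent_trace_of_isNilpotent (h2.isNilpotent_mul_right hn1)).eq_zero
      rw [← h1, map_sub, sub_eq_zero] at h3
      exact h3
    have hn2 : IsNilpotent ((1 - p) * T) := by
      apply isNilpotent_of_trace_pow
      intro r
      have hc2 : Commute (1 - p) T := (Commute.one_left T).sub_left hT.symm
      rw [hc2.mul_pow, idem_pow hq]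
      have h1 := h r
      rw [sub_mul, map_sub, htr, ← hd] at h1
      linear_combination -h1
    obtain ⟨N', rfl⟩ : ∃ N', N = N' + 1 := ⟨N - 1, by omega⟩
    have hc2 : Commute (1 - p) T := (Commute.one_left T).sub_left hT.symm
    have hA : p * (T - 1) ^ (N' + 1) = 0 := by
      have h1 := pow_eq_zero_of_nilp hn1 hN
      rwa [hcp.mul_pow, idem_pow hp] at h1
    have hB : (1 - p) * T ^ (N' + 1) = 0 := by
      have h1 := pow_eq_zero_of_nilp hn2 hN
      rwa [hc2.mul_pow, idem_pow hq] at h1
    set N := N' + 1 with hNdef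
    have e1 : p * (1 - T ^ N) ^ N = 0 := by
      have e2 : (1 - T ^ N : Module.End K V) = (T - 1) * (-(∑ i ∈ range N, T ^ i)) := by
        rw [mul_neg, mul_geom_sum]; abel
      have e3 : Commute (T - 1) (-(∑ i ∈ range N, T ^ i)) := by
        apply Commute.neg_right
        apply Commute.sum_right
        intro i _
        exact ((Commute.refl T).sub_left (Commute.one_left T)).pow_right i
      rw [e2, e3.mul_pow, ← mul_assoc, hA, zero_mul]
    have e2 : (1 - p) * (1 - T ^ N) ^ N = 1 - p := by
      have e3 : ∀ m : ℕ, (1 - p) * (1 - T ^ N) ^ m = 1 - p := by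
        intro m
        induction m with
        | zero => rw [pow_zero, mul_one]
        | succ m ih => rw [pow_succ, ← mul_assoc, ih, mul_sub, mul_one, hB, sub_zero]
      exact e3 N
    have e3 : (1 - T ^ N) ^ N = 1 - p := by
      have e4 : (1 - T ^ N : Module.End K V) ^ N =
          p * (1 - T ^ N) ^ N + (1 - p) * (1 - T ^ N) ^ N := by
        noncomm_ring
      rw [e4, e1, e2, zero_add]
    rw [e3]; abel

end Pool.Agent.H578R3.Sgn
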