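import Pool.Agent.H39.L.H447R3_KuB
import Pool.Agent.H39.L.H578R3_SgnLin
import Pool.Agent.H39.L.H578R3_SgnDefs

/-!
# The sign conjecture and the rank of numerical projectors
-/

open CategoryTheory AlgebraicGeometry Finset

universe u v

namespace Pool.Agent.H578R3.Sgn

open Pool.Agent.H914 VarClass Obj WeilCohomology Pool.Agent.H447

section Abs

variable {K : Type*} [Field K] [CharZero K] {V : Type*} [AddCommGroup V] [Module K V]
  {gr : ℕ → Submodule K V}

lemma par_eq (h : DirectSum.IsInternal gr) : par h = evenProj h - (1 - evenProj h) := by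
  have h1 := par_evenProj h
  have h2 := par_one_sub_evenProj h
  have h3 : par h = par h * evenProj h + par h * (1 - evenProj h) := by
    rw [← mul_add, add_sub_cancel, mul_one]
  rw [h3, h1, h2, neg_one_smul, ← sub_eq_add_neg]

omit [CharZero K] in
lemma evenProj_idem (h : DirectSum.IsInternal gr) : evenProj h * evenProj h = evenProj h := by
  rw [evenProj, scal_mul]
  congr 1
  funext i
  split_ifs <;> simp

omit [CharZero K] in
lemma evenProj_comm (h : DirectSum.IsInternal gr) {T : Module.End K V} (hT : IsHom gr 0 T) :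
    Commute T (evenProj h) := by
  have := hT.scal_comm h
    (fun i => if 0 ≤ i then (if Even i.toNat then (1 : K) else 0) else 0)
    (fun i => if 0 ≤ i then (if Even i.toNat then (1 : K) else 0) else 0)
    (fun i => by rw [add_zero])
  simp only [Int.natCast_nonneg, if_true, Int.toNat_natCast] at this
  exact this.symm

end Abs

variable {k : Type u} [Field k] {𝒱 : VarClass k} {ops : CycleOps 𝒱} {X : 𝒱.Obj}

lemma diagNumber_eq (W : WeilCohomology.{u, v} ops) {z : (X.prod X).Cycles}
    (hz : (X.prod X).IsCyc X.dim z) :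
    LinearMap.trace W.K (W.H X) (par (W.isInternal X) * W.corr (W.cl _ z)) =
      (diagNumber ops X z : W.K) := by
  rw [trace_par_corr, ← cl_pull, tr_cl _ (ops.pull_mem _ hz)]
  rfl

lemma trace_evenProj (W : WeilCohomology.{u, v} ops) :
    LinearMap.trace W.K (W.H X) (evenProj (W.isInternal X)) = (evenBetti W X : W.K) := by
  rw [evenProj, trace_scal (W.isInternal X) W_hbd, evenBetti, Finset.sum_filter]
  push_cast
  apply Finset.sum_congr rfl
  intro i _
  split_ifs
  · rw [one_mul]
  · rw [zero_mul]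

lemma isHom_corr (W : WeilCohomology.{u, v} ops) {z : (X.prod X).Cycles}
    (hz : (X.prod X).IsCyc X.dim z) : IsHom (W.gr X) 0 (W.corr (W.cl _ z)) := by
  have := (rop_opAlg (W := W) (X := X)).hom (rop_corr (d := 0) (by simp) hz)
  simpa using this

/-- All powers of a numerical projector have the same super trace. -/
lemma trace_pow (W : WeilCohomology.{u, v} ops) {z : (X.prod X).Cycles}
    (hz : NumProjector ops X z) (r : ℕ) :
    LinearMap.trace W.K (W.H X) (par (W.isInternal X) * W.corr (W.cl _ z) ^ (r + 1)) =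
      (diagNumber ops X z : W.K) := by
  have hOA := rop_opAlg (W := W) (X := X)
  have hTk : ∀ m : ℕ, ROp W X 0 (W.corr (W.cl _ z) ^ m) := fun m =>
    hOA.cast (hOA.pow (rop_corr (d := 0) (by simp) hz.1) m) (by simp)
  have hsq := hz.2
  rw [numEquiv_iff (W := W) (compCyc_mem hz.1 hz.1 rfl) hz.1, corr_compCyc W hz.1] at hsq
  induction r with
  | zero => rw [zero_add, pow_one, diagNumber_eq W hz.1]
  | succ r ih =>
    rw [← ih]
    have h1 := hsq.2 (W.corr (W.cl _ z) ^ r) (hOA.cast (hTk r) (by simp))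
    have h2 : (W.corr (W.cl _ z) - W.corr (W.cl _ z) ∘ₗ W.corr (W.cl _ z)) *
        W.corr (W.cl _ z) ^ r = W.corr (W.cl _ z) ^ (r + 1) - W.corr (W.cl _ z) ^ (r + 1 + 1) := by
      change (W.corr (W.cl _ z) - W.corr (W.cl _ z) * W.corr (W.cl _ z)) *
        W.corr (W.cl _ z) ^ r = _
      rw [sub_mul, mul_assoc, ← pow_succ', ← pow_succ']
    rw [h2, mul_sub, map_sub, sub_eq_zero] at h1
    exact h1.symm

/-- The rank of a numerical projector. -/
lemma rank_props (W : WeilCohomology.{u, v} ops) {z : (X.prod X).Cycles}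
    (hz : NumProjector ops X z) : ∃ a b c : ℕ, diagNumber ops X z = (a : ℚ) - b ∧
      evenBetti W X = a + c ∧ (b = 0 → c = 0 → ∀ N : ℕ, 1 ≤ N → Module.finrank W.K (W.H X) ≤ N →
        evenProj (W.isInternal X) =
          1 - (1 - W.corr (W.cl _ z) ^ N) ^ N) := by
  have h := W.isInternal X
  obtain ⟨a, b, c, h1, h2, h3⟩ := main (p := evenProj (W.isInternal X))
    (T := W.corr (W.cl _ z)) (d := (diagNumber ops X z : W.K)) (evenProj_idem _)
    (evenProj_comm _ (isHom_corr W hz.1)) (fun r => by rw [← par_eq]; exact trace_pow W hz r)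
  refine ⟨a, b, c, ?_, ?_, h3⟩
  · exact_mod_cast h1
  · rw [trace_evenProj] at h2
    exact_mod_cast h2

/-- The diagonal. -/
lemma diag_props : ∃ δ : (X.prod X).Cycles, (X.prod X).IsCyc X.dim δ ∧
    ∀ W : WeilCohomology.{u, v} ops, W.corr (W.cl _ δ) = 1 := by
  refine ⟨ops.push (diag X) X.V.fundCycle,
    ops.push_mem _ X.V.fundCycle_mem (by simp only [dim_prod]; omega), fun W => ?_⟩
  apply LinearMap.ext
  intro a
  rw [W.cl_push, corr_diag, W.cl_fund, one_mul, Module.End.one_apply]

/-- The total dimension of the cohomology. -/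
lemma finrank_eq {δ : (X.prod X).Cycles} (hδ : (X.prod X).IsCyc X.dim δ)
    (W : WeilCohomology.{u, v} ops) (hδ' : W.corr (W.cl _ δ) = 1) :
    (Module.finrank W.K (W.H X) : ℚ) = 2 * (evenBetti W X : ℚ) - diagNumber ops X δ := by
  have h1 := diagNumber_eq W hδ
  rw [hδ', mul_one, par_eq, map_sub, map_sub, trace_evenProj, LinearMap.trace_one] at h1
  have h2 : ((Module.finrank W.K (W.H X) : ℚ) : W.K) =
      ((2 * (evenBetti W X : ℚ) - diagNumber ops X δ : ℚ) : W.K) := by
    push_cast
    linear_combination -h1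
  exact_mod_cast h2

/-- The zero cycle. -/
lemma numProjector_zero (W : WeilCohomology.{u, v} ops) : NumProjector ops X 0 := by
  refine ⟨SmVar.IsCyc.zero _ _, ?_⟩
  rw [numEquiv_iff (W := W) (compCyc_mem (SmVar.IsCyc.zero _ _) (SmVar.IsCyc.zero _ _) rfl)
    (SmVar.IsCyc.zero _ _), corr_compCyc W (SmVar.IsCyc.zero _ X.dim)]
  have : W.corr (W.cl (X.prod X) 0) = 0 := by rw [map_zero, corr_zero]
  rw [this, LinearMap.comp_zero, sub_zero]
  exact NumR.zero rop_opAlg 0

/-- A cycle inducing the even projector is a numerical projector. -/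
lemma numProjector_of_even (W : WeilCohomology.{u, v} ops) {z : (X.prod X).Cycles}
    (hz : (X.prod X).IsCyc X.dim z) (hz' : InducesEven W X z) :
    NumProjector ops X z ∧ diagNumber ops X z = evenBetti W X := by
  have h := W.isInternal X
  have h1 : W.corr (W.cl _ z) = evenProj (W.isInternal X) := isEvenProj_iff.1 hz'
  refine ⟨⟨hz, ?_⟩, ?_⟩
  · rw [numEquiv_iff (W := W) (compCyc_mem hz hz rfl) hz, corr_compCyc W hz, h1]
    have : evenProj (W.isInternal X) - evenProj (W.isInternal X) ∘ₗ evenProj (W.isInternal X) =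
        0 := by
      change evenProj (W.isInternal X) - evenProj (W.isInternal X) * evenProj (W.isInternal X) = 0
      rw [evenProj_idem, sub_self]
    rw [this]
    exact NumR.zero rop_opAlg 0
  · have h2 := diagNumber_eq W hz
    rw [h1, par_evenProj, trace_evenProj] at h2
    exact_mod_cast h2.symm

/-- **The main theorem.** -/
theorem sign_universal (X : 𝒱.Obj) (W₀ : WeilCohomology.{u, v} ops) :
    ∃ P, (X.prod X).IsCyc X.dim P ∧ ∃ β : ℚ,
      IsGreatest {d | ∃ z, NumProjector ops X z ∧ diagNumber ops X z = d} β ∧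
      ∀ W : WeilCohomology.{u, v} ops, β ≤ evenBetti W X ∧
        List.TFAE [SignStd W X, InducesEven W X P, (evenBetti W X : ℚ) = β] := by
  classical
  have hle : ∀ (W : WeilCohomology.{u, v} ops) (z : (X.prod X).Cycles), NumProjector ops X z →
      diagNumber ops X z ≤ evenBetti W X := by
    intro W z hz
    obtain ⟨a, b, c, h1, h2, -⟩ := rank_props W hz
    rw [h1, h2]
    push_cast
    have hb : (0 : ℚ) ≤ b := Nat.cast_nonneg _
    have hc : (0 : ℚ) ≤ c := Nat.cast_nonneg _
    linarith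
  obtain ⟨m, ⟨z₀, hz₀, hm⟩, hmax⟩ := Int.exists_greatest_of_bdd
    (P := fun m : ℤ => ∃ z, NumProjector ops X z ∧ diagNumber ops X z = m)
    ⟨evenBetti W₀ X, fun m ⟨z, hz, hm⟩ => by
      have h1 := hle W₀ z hz
      rw [hm] at h1
      exact_mod_cast h1⟩
    (by
      obtain ⟨a, b, -, h1, -⟩ := rank_props W₀ (numProjector_zero (X := X) W₀)
      exact ⟨(a : ℤ) - b, 0, numProjector_zero W₀, by rw [h1]; push_cast; rfl⟩)
  obtain ⟨δ, hδ, hδ'⟩ := diag_props.{u, v} (ops := ops) (X := X)
  set N : ℕ := ⌈2 * (m : ℚ) - diagNumber ops X δ⌉₊ + 1 with hN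
  have hT : Realized.{u, v} ops X 0 (fun W => W.corr (W.cl _ z₀)) :=
    Or.inl ⟨X.dim, by simp, z₀, hz₀.1, fun _ => rfl⟩
  have hR := Realized.one.sub ((Realized.one.sub (hT.pow0 N)).pow0 N)
  obtain ⟨P, hP, hPW⟩ : ∃ P, (X.prod X).IsCyc X.dim P ∧ ∀ W : WeilCohomology.{u, v} ops,
      W.corr (W.cl _ P) = 1 - (1 - W.corr (W.cl _ z₀) ^ N) ^ N := by
    rcases hR with ⟨q, hq, P, hP, hY⟩ | ⟨hd, -⟩
    · obtain rfl : q = X.dim := by omega
      exact ⟨P, hP, fun W => (hY W).symm⟩
    · omega
  refine ⟨P, hP, m, ⟨⟨z₀, hz₀, hm⟩, ?_⟩, fun W => ⟨by rw [← hm]; exact hle W z₀ hz₀, ?_⟩⟩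
  · rintro d ⟨z, hz, rfl⟩
    obtain ⟨a, b, -, h1, -⟩ := rank_props W₀ hz
    have h2 := hmax ((a : ℤ) - b) ⟨z, hz, by rw [h1]; push_cast; rfl⟩
    rw [h1]
    exact_mod_cast h2
  · tfae_have 1 → 3 := by
      rintro ⟨z, hz, hz'⟩
      obtain ⟨h1, h2⟩ := numProjector_of_even W hz hz'
      have h3 := hmax (evenBetti W X) ⟨z, h1, by rw [h2]; push_cast; rfl⟩
      have h4 := hle W z₀ hz₀
      rw [hm] at h4
      apply le_antisymm
      · exact_mod_cast h3
      · exact h4
    tfae_have 3 → 2 := by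
      intro h
      obtain ⟨a, b, c, h1, h2, h3⟩ := rank_props W hz₀
      have h4 : (a : ℚ) - b = a + c := by
        rw [← h1, hm, ← h, h2]; push_cast; rfl
      have hb0 : (0 : ℚ) ≤ b := Nat.cast_nonneg _
      have hc0 : (0 : ℚ) ≤ c := Nat.cast_nonneg _
      have hb : b = 0 := by
        have : (b : ℚ) = 0 := by linarith
        exact_mod_cast this
      have hc : c = 0 := by
        have : (c : ℚ) = 0 := by linarith
        exact_mod_cast this
      have hfin : Module.finrank W.K (W.H X) ≤ N := by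
        have h5 := finrank_eq hδ W (hδ' W)
        rw [h] at h5
        have h6 : (Module.finrank W.K (W.H X) : ℚ) ≤
            (⌈2 * (m : ℚ) - diagNumber ops X δ⌉₊ : ℚ) := by
          rw [h5]; exact Nat.le_ceil _
        have h7 : Module.finrank W.K (W.H X) ≤ ⌈2 * (m : ℚ) - diagNumber ops X δ⌉₊ := by
          exact_mod_cast h6
        omega
      have h6 := h3 hb hc N (by omega) hfin
      exact isEvenProj_iff.2 ((hPW W).trans h6.symm)
    tfae_have 2 → 1 := fun h => ⟨P, hP, h⟩
    tfae_finish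

end Pool.Agent.H578R3.Sgn
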