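import Pool.Agent.H39.L.Q193_LT_Full

/-!
# Properties of all direct factors, and direct factors of finite direct sums
-/

set_option autoImplicit false

open CategoryTheory CategoryTheory.Limits AlgebraicGeometry Pool.Agent.Y116.UV Pool.Agent.Z125.UN

universe v u

namespace Pool.Agent.Q193.LT

variable {R : Type} [CommRing R] {A : Type u} [Category.{v} A] [Abelian A]

section facts

/-- Every direct factor of every Tate twist of `M` has the property `Q`. -/
def Facts (D : CompactData R A) (Q : A → Prop) (M : A) : Prop :=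
  ∀ (a : ℤ) (N : A) (i : N ⟶ (D.tw a).obj M) (r : (D.tw a).obj M ⟶ N), i ≫ r = 𝟙 N → Q N

variable {D : CompactData R A} {Q : A → Prop}

/-- A direct factor of a direct sum is a direct sum of direct factors, in a semisimple category. -/
lemma split_factor (hss : ∀ {X Y : A} (f : X ⟶ Y), Mono f → ∃ r : Y ⟶ X, f ≫ r = 𝟙 X)
    {N X Y : A} (i : N ⟶ X ⊞ Y) [Mono i] : ∃ (N₁ N₂ : A) (i₁ : N₁ ⟶ X) (r₁ : X ⟶ N₁)
      (i₂ : N₂ ⟶ Y) (r₂ : Y ⟶ N₂), i₁ ≫ r₁ = 𝟙 _ ∧ i₂ ≫ r₂ = 𝟙 _ ∧
        Nonempty (N ≅ N₁ ⊞ N₂) := by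
  let g : N ⟶ Y := i ≫ biprod.snd
  have hm : Mono (kernel.ι g ≫ i ≫ biprod.fst) := by
    rw [Preadditive.mono_iff_cancel_zero]
    intro W t ht
    have h1 : (t ≫ kernel.ι g) ≫ i = 0 := by
      apply biprod.hom_ext
      · rw [zero_comp, Category.assoc, Category.assoc]
        exact ht
      · rw [zero_comp, Category.assoc, Category.assoc]
        change t ≫ kernel.ι g ≫ g = 0
        rw [kernel.condition, comp_zero]
    have h2 : t ≫ kernel.ι g = 0 := by
      rw [← cancel_mono i, h1, zero_comp]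
    rw [← cancel_mono (kernel.ι g), h2, zero_comp]
  obtain ⟨r₁, h₁⟩ := hss _ hm
  obtain ⟨r₂, h₂⟩ := hss (Abelian.image.ι g) inferInstance
  obtain ⟨p, hp⟩ := hss (kernel.ι g) inferInstance
  refine ⟨kernel g, Abelian.image g, _, r₁, _, r₂, h₁, h₂, ?_⟩
  have h0 : kernel.ι g ≫ Abelian.factorThruImage g = 0 := by
    rw [← cancel_mono (Abelian.image.ι g), Category.assoc, Abelian.image.fac, kernel.condition,
      zero_comp]
  let S : ShortComplex A := ShortComplex.mk (kernel.ι g) (Abelian.factorThruImage g) h0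
  have hS : S.Exact := by
    apply ShortComplex.exact_of_f_is_kernel
    refine KernelFork.IsLimit.ofι' _ _ fun {W} t ht => ?_
    have h3 : t ≫ g = 0 := by
      rw [← Abelian.image.fac g, ← Category.assoc]
      rw [show t ≫ Abelian.factorThruImage g = 0 from ht, zero_comp]
    exact ⟨kernel.lift g t h3, kernel.lift_ι _ _ _⟩
  have hg : Epi S.g := by
    change Epi (Abelian.factorThruImage g)
    infer_instance
  let s : S.Splitting := ShortComplex.Splitting.ofExactOfRetraction S hS p hp hg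
  exact ⟨s.isoBinaryBiproduct⟩

/-- If `Q` is invariant under isomorphisms, true for zero objects and direct sums, the objects all of
whose direct factors (and those of the Tate twists) have the property `Q` form a Serre class. -/
theorem facts_serre (hD : IsCompact D)
    (hss : ∀ {X Y : A} (f : X ⟶ Y), Mono f → ∃ r : Y ⟶ X, f ≫ r = 𝟙 X)
    (h0 : ∀ X, IsZero X → Q X) (hi : ∀ {X Y : A}, (X ≅ Y) → Q X → Q Y)
    (hs : ∀ {X Y : A}, Q X → Q Y → Q (X ⊞ Y)) : IsTateSerre D (Facts D Q) := by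
  have hta := hD.twAdditive
  have h := serre_of_semisimple (S := Facts D Q) hss ?_ ?_ ?_
  · refine { toIsSerre := h, twist := ?_ }
    intro a M hM b N i r hir
    obtain ⟨e⟩ := hD.twAdd a b
    refine hM (a + b) N (i ≫ e.hom.app M) (e.inv.app M ≫ r) ?_
    have h1 : e.hom.app M ≫ e.inv.app M = 𝟙 _ := e.hom_inv_id_app M
    rw [Category.assoc, ← Category.assoc (e.hom.app M), h1]
    erw [Category.id_comp]
    exact hir
  · intro X hX a N i r hir
    have h1 : IsZero ((D.tw a).obj X) := (D.tw a).map_isZero hX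
    refine h0 N ?_
    rw [IsZero.iff_id_eq_zero, ← hir, h1.eq_zero_of_tgt i, zero_comp]
  · intro X Y i r hir hY a N j s hjs
    refine hY a N (j ≫ (D.tw a).map i) ((D.tw a).map r ≫ s) ?_
    rw [Category.assoc, ← Category.assoc ((D.tw a).map i), ← (D.tw a).map_comp, hir,
      (D.tw a).map_id, Category.id_comp, hjs]
  · intro X Y hX hY a N i r hir
    let e : (D.tw a).obj (X ⊞ Y) ⟶ (D.tw a).obj X ⊞ (D.tw a).obj Y :=
      biprod.lift ((D.tw a).map biprod.fst) ((D.tw a).map biprod.snd)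
    have he : e ≫ biprod.desc ((D.tw a).map biprod.inl) ((D.tw a).map biprod.inr) = 𝟙 _ := by
      rw [biprod.lift_desc, ← (D.tw a).map_comp, ← (D.tw a).map_comp, ← (D.tw a).map_add,
        biprod.total, (D.tw a).map_id]
    have hm : Mono (i ≫ e) := by
      have h1 : (i ≫ e) ≫ biprod.desc ((D.tw a).map biprod.inl) ((D.tw a).map biprod.inr) ≫ r =
          𝟙 N := by
        rw [Category.assoc, ← Category.assoc e, he, Category.id_comp, hir]
      exact mono_of_mono_fac h1
    obtain ⟨N₁, N₂, i₁, r₁, i₂, r₂, h₁, h₂, ⟨e'⟩⟩ := split_factor hss (i ≫ e)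
    exact hi e'.symm (hs (hX a N₁ i₁ r₁ h₁) (hY a N₂ i₂ r₂ h₂))

end facts

section gen

attribute [local instance] Abelian.hasFiniteBiproducts

/-- `N` is a direct factor of a finite direct sum `⨁_j M_j(a_j)` of Tate twists of objects `M_j` with
the property `G`. -/
def FactorOfSum (D : CompactData R A) (G : A → Prop) (N : A) : Prop :=
  ∃ (J : Type) (_ : Fintype J) (M : J → A) (a : J → ℤ) (i : ∀ j, N ⟶ (D.tw (a j)).obj (M j))
    (r : ∀ j, (D.tw (a j)).obj (M j) ⟶ N), (∀ j, G (M j)) ∧ ∑ j, i j ≫ r j = 𝟙 N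

variable {D : CompactData R A} {G : A → Prop}

theorem gen_serre (hD : IsCompact D)
    (hss : ∀ {X Y : A} (f : X ⟶ Y), Mono f → ∃ r : Y ⟶ X, f ≫ r = 𝟙 X) :
    IsTateSerre D (FactorOfSum D G) := by
  have hta := hD.twAdditive
  have h := serre_of_semisimple (S := FactorOfSum D G) hss ?_ ?_ ?_
  · refine { toIsSerre := h, twist := ?_ }
    rintro b N ⟨J, _, M, a, i, r, hG, hsum⟩
    have e := fun j : J => (hD.twAdd (a j) b).some
    refine ⟨J, inferInstance, M, fun j => a j + b,
      fun j => (D.tw b).map (i j) ≫ (e j).hom.app (M j),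
      fun j => (e j).inv.app (M j) ≫ (D.tw b).map (r j), hG, ?_⟩
    have h1 : ∀ j, ((D.tw b).map (i j) ≫ (e j).hom.app (M j)) ≫
        (e j).inv.app (M j) ≫ (D.tw b).map (r j) = (D.tw b).map (i j ≫ r j) := fun j => by
      have h2 : (e j).hom.app (M j) ≫ (e j).inv.app (M j) = 𝟙 _ := (e j).hom_inv_id_app (M j)
      rw [Category.assoc, ← Category.assoc ((e j).hom.app (M j)), h2]
      erw [Category.id_comp]
      rw [(D.tw b).map_comp]
    rw [Finset.sum_congr rfl fun j _ => h1 j, ← (D.tw b).map_sum, hsum, (D.tw b).map_id]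
  · intro X hX
    refine ⟨Empty, inferInstance, Empty.elim, Empty.elim, fun j => j.elim, fun j => j.elim,
      fun j => j.elim, ?_⟩
    rw [IsZero.iff_id_eq_zero] at hX
    simp [hX]
  · rintro X Y i r hir ⟨J, _, M, a, i', r', hG, hsum⟩
    refine ⟨J, inferInstance, M, a, fun j => i ≫ i' j, fun j => r' j ≫ r, hG, ?_⟩
    have h1 : ∀ j, (i ≫ i' j) ≫ r' j ≫ r = i ≫ (i' j ≫ r' j) ≫ r := fun j => by
      simp only [Category.assoc]
    simp only [h1]
    rw [← Preadditive.comp_sum, ← Preadditive.sum_comp, hsum, Category.id_comp, hir]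
  · rintro X Y ⟨J, _, M, a, i, r, hG, hsum⟩ ⟨J', _, M', a', i', r', hG', hsum'⟩
    refine ⟨J ⊕ J', inferInstance, Sum.elim M M', Sum.elim a a',
      fun j => match j with
        | Sum.inl j => biprod.fst ≫ i j
        | Sum.inr j => biprod.snd ≫ i' j,
      fun j => match j with
        | Sum.inl j => r j ≫ biprod.inl
        | Sum.inr j => r' j ≫ biprod.inr, ?_, ?_⟩
    · rintro (j | j)
      · exact hG j
      · exact hG' j
    · rw [Fintype.sum_sum_type]
      have h1 : ∀ j, ((biprod.fst : X ⊞ Y ⟶ X) ≫ i j) ≫ r j ≫ (biprod.inl : X ⟶ X ⊞ Y) =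
          (biprod.fst : X ⊞ Y ⟶ X) ≫ (i j ≫ r j) ≫ (biprod.inl : X ⟶ X ⊞ Y) := fun j => by
        simp only [Category.assoc]
      have h2 : ∀ j, ((biprod.snd : X ⊞ Y ⟶ Y) ≫ i' j) ≫ r' j ≫ (biprod.inr : Y ⟶ X ⊞ Y) =
          (biprod.snd : X ⊞ Y ⟶ Y) ≫ (i' j ≫ r' j) ≫ (biprod.inr : Y ⟶ X ⊞ Y) := fun j => by
        simp only [Category.assoc]
      have h3 : ∑ j, ((biprod.fst : X ⊞ Y ⟶ X) ≫ i j) ≫ r j ≫ (biprod.inl : X ⟶ X ⊞ Y) =
          (biprod.fst : X ⊞ Y ⟶ X) ≫ biprod.inl := by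
        rw [Finset.sum_congr rfl fun j _ => h1 j, ← Preadditive.comp_sum, ← Preadditive.sum_comp,
          hsum, Category.id_comp]
      have h4 : ∑ j, ((biprod.snd : X ⊞ Y ⟶ Y) ≫ i' j) ≫ r' j ≫ (biprod.inr : Y ⟶ X ⊞ Y) =
          (biprod.snd : X ⊞ Y ⟶ Y) ≫ biprod.inr := by
        rw [Finset.sum_congr rfl fun j _ => h2 j, ← Preadditive.comp_sum, ← Preadditive.sum_comp,
          hsum', Category.id_comp]
      rw [← biprod.total, ← h3, ← h4]
      rfl

lemma FactorOfSum.self (hD : IsCompact D) {M : A} (h : G M) : FactorOfSum D G M := by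
  obtain ⟨e⟩ := hD.twZero
  refine ⟨Unit, inferInstance, fun _ => M, fun _ => 0, fun _ => e.inv.app M,
    fun _ => e.hom.app M, fun _ => h, ?_⟩
  rw [Fintype.sum_unique]
  exact e.inv_hom_id_app M

/-- A direct factor of a finite direct sum of twists of objects `M_j` is a retract of the object
`⨁_j M_j(a_j)`. -/
lemma FactorOfSum.retract {N : A} (h : FactorOfSum D G N) :
    ∃ (J : Type) (_ : Finite J) (M : J → A) (a : J → ℤ)
      (i : N ⟶ ⨁ fun j => (D.tw (a j)).obj (M j)) (r : (⨁ fun j => (D.tw (a j)).obj (M j)) ⟶ N),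
      (∀ j, G (M j)) ∧ i ≫ r = 𝟙 N := by
  obtain ⟨J, _, M, a, i, r, hG, hsum⟩ := h
  refine ⟨J, inferInstance, M, a, biproduct.lift i, biproduct.desc r, hG, ?_⟩
  rw [biproduct.lift_desc, hsum]

/-- Finite direct sums. -/
lemma FactorOfSum.biproduct {J : Type} [Finite J] {N : J → A} (h : ∀ j, FactorOfSum D G (N j)) :
    FactorOfSum D G (⨁ N) := by
  have := Fintype.ofFinite J
  choose K _ M a i r hG hsum using h
  refine ⟨Σ j, K j, inferInstance, fun p => M p.1 p.2, fun p => a p.1 p.2,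
    fun p => biproduct.π N p.1 ≫ i p.1 p.2, fun p => r p.1 p.2 ≫ biproduct.ι N p.1,
    fun p => hG p.1 p.2, ?_⟩
  rw [Fintype.sum_sigma]
  have h1 : ∀ j, ∑ k, (biproduct.π N j ≫ i j k) ≫ r j k ≫ biproduct.ι N j =
      biproduct.π N j ≫ biproduct.ι N j := fun j => by
    have h2 : ∀ k, (biproduct.π N j ≫ i j k) ≫ r j k ≫ biproduct.ι N j =
        biproduct.π N j ≫ (i j k ≫ r j k) ≫ biproduct.ι N j := fun k => by
      simp only [Category.assoc]
    rw [Finset.sum_congr rfl fun k _ => h2 k, ← Preadditive.comp_sum, ← Preadditive.sum_comp,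
      hsum, Category.id_comp]
  rw [Finset.sum_congr rfl fun j _ => h1 j, biproduct.total]

/-- The property `P` is true for all finite direct sums `⨁_j M_j(a_j)` of Tate twists of objects `M_j`
with the property `G`. -/
def SumsHave (D : CompactData R A) (G P : A → Prop) : Prop :=
  ∀ (J : Type) [Finite J] (M : J → A) (a : J → ℤ), (∀ j, G (M j)) →
    P (⨁ fun j => (D.tw (a j)).obj (M j))

/-- If all objects with `G` are direct factors of finite direct sums of twists of objects with `G'`,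
and `P` is inherited by direct factors, then `P` for the finite sums of twists of objects with `G'`
implies `P` for the finite sums of twists of objects with `G`. -/
theorem sumsHave_of_gen (hD : IsCompact D)
    (hss : ∀ {X Y : A} (f : X ⟶ Y), Mono f → ∃ r : Y ⟶ X, f ≫ r = 𝟙 X) {G' P : A → Prop}
    (hP : ∀ {X Y : A} (i : X ⟶ Y) (r : Y ⟶ X), i ≫ r = 𝟙 X → P Y → P X)
    (hG : ∀ M, G M → FactorOfSum D G' M) (h : SumsHave D G' P) : SumsHave D G P := by
  intro J _ M a hM
  have h1 : FactorOfSum D G' (⨁ fun j => (D.tw (a j)).obj (M j)) :=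
    FactorOfSum.biproduct fun j => (gen_serre hD hss).twist _ _ (hG _ (hM j))
  obtain ⟨K, _, M', a', i, r, hG', hir⟩ := h1.retract
  exact hP i r hir (h K M' a' hG')

end gen

end Pool.Agent.Q193.LT
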