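import Pool.Agent.H39.L.Q193_LT_Facts

/-!
# Properties of finite direct sums of motives of smooth projective varieties
-/

set_option autoImplicit false

open CategoryTheory CategoryTheory.Limits AlgebraicGeometry Pool.Agent.Y116.UV Pool.Agent.Z125.UN

universe v u

namespace Pool.Agent.Q193.LT

variable {k : Type} [Field k] {A : Type u} [Category.{v} A] [Abelian A]

/-- The objects `H^i(Y)` for smooth projective `Y`. -/
def OfProjAll (D : CompactData k A) (N : A) : Prop :=
  ∃ (Y : Sch k) (i : ℤ), SmoothProj Y ∧ N = D.H i Y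

/-- The objects `H^i(Y)` for smooth projective `Y` of dimension at most `n`. -/
def OfProj (D : CompactData k A) (n : ℕ) (N : A) : Prop :=
  ∃ (Y : Sch k) (i : ℤ), SmoothProj Y ∧ topologicalKrullDim Y.left ≤ n ∧ N = D.H i Y

/-- The objects `H^i_c(X)` for the point `X = Spec k` and for the hypersurfaces `X = X_H` of the
tripartite hypergraphs `H`. -/
def OfGraphs (D : CompactData k A) (N : A) : Prop :=
  (∃ i : ℤ, N = D.H i (aff k k)) ∨
    ∃ (a b c : ℕ) (H : Finset (Fin a × Fin b × Fin c)) (i : ℤ), N = D.H i (tripS k H)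

/-- The objects `H^i_c(X)` for the point `X = Spec k` and for the hypersurfaces `T = 1` of all trilinear
forms `T`. -/
def OfFormsAll (D : CompactData k A) (N : A) : Prop :=
  (∃ i : ℤ, N = D.H i (aff k k)) ∨
    ∃ (a b c : ℕ) (T : Fin a → Fin b → Fin c → k) (i : ℤ), N = D.H i (hypS T)

/-- The objects `H^i_c(X)` for the point `X = Spec k` and for the hypersurfaces `T = 1` of the trilinear
forms `T` with a block of at most `m` variables. -/
def OfForms (D : CompactData k A) (m : ℕ) (N : A) : Prop :=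
  (∃ i : ℤ, N = D.H i (aff k k)) ∨
    ∃ (a b c : ℕ) (T : Fin a → Fin b → Fin c → k) (i : ℤ), (a ≤ m ∨ b ≤ m ∨ c ≤ m) ∧
      N = D.H i (hypS T)

section

variable [PerfectField k] {D : CompactData k A} (hD : IsCompact D) (hg : Generated D)
  (hss : ∀ {X Y : A} (f : X ⟶ Y), Mono f → ∃ r : Y ⟶ X, f ≫ r = 𝟙 X)

include hD hg hss

lemma point_factor {G : A → Prop} (n : ℕ)
    (h : ∀ Y : Sch k, SmoothProj Y → topologicalKrullDim Y.left ≤ n →
      ∀ i, FactorOfSum D G (D.H i Y)) (i : ℤ) : FactorOfSum D G (D.H i (aff k k)) := by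
  refine hg n _ (gen_serre hD hss) h (aff k k) (ft_aff True) ?_ i
  rw [topDim_aff, ringKrullDim_eq_zero_of_field]
  exact_mod_cast Nat.zero_le n

variable {P : A → Prop} (hP : ∀ {X Y : A} (i : X ⟶ Y) (r : Y ⟶ X), i ≫ r = 𝟙 X → P Y → P X)

include hP

/-- Finite direct sums of motives of smooth projective varieties of dimension at most `n`, and finite
direct sums of motives of hypersurfaces `T = 1` with a block of at most `n + 2` variables. -/
theorem sums_dim_iff (n : ℕ) : SumsHave D (OfProj D n) P ↔ SumsHave D (OfForms D (n + 2)) P := by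
  constructor
  · refine sumsHave_of_gen hD hss hP fun N hN => ?_
    have h1 : ∀ Y : Sch k, SmoothProj Y → topologicalKrullDim Y.left ≤ n →
        ∀ i, FactorOfSum D (OfProj D n) (D.H i Y) := fun Y hY hn i =>
      FactorOfSum.self hD ⟨Y, i, hY, hn, rfl⟩
    have h0 := point_factor hD hg hss n h1
    rcases hN with ⟨i, rfl⟩ | ⟨a, b, c, T, i, hm, rfl⟩
    · exact h0 i
    · exact (proj_iff hD hg (gen_serre hD hss) h0 n).mp h1 a b c T hm i
  · refine sumsHave_of_gen hD hss hP fun N hN => ?_
    obtain ⟨Y, i, hY, hn, rfl⟩ := hN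
    have h0 : ∀ i, FactorOfSum D (OfForms D (n + 2)) (D.H i (aff k k)) := fun i =>
      FactorOfSum.self hD (Or.inl ⟨i, rfl⟩)
    exact (proj_iff hD hg (gen_serre hD hss) h0 n).mpr (fun a b c T hm i =>
      FactorOfSum.self hD (Or.inr ⟨a, b, c, T, i, hm, rfl⟩)) Y hY hn i

/-- Finite direct sums of motives of smooth projective varieties, and finite direct sums of motives of
hypersurfaces `T = 1`. -/
theorem sums_all_iff : SumsHave D (OfProjAll D) P ↔ SumsHave D (OfFormsAll D) P := by
  constructor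
  · refine sumsHave_of_gen hD hss hP fun N hN => ?_
    have h1 : ∀ Y : Sch k, SmoothProj Y → ∀ i, FactorOfSum D (OfProjAll D) (D.H i Y) :=
      fun Y hY i => FactorOfSum.self hD ⟨Y, i, hY, rfl⟩
    have h0 := point_factor hD hg hss 0 fun Y hY _ => h1 Y hY
    rcases hN with ⟨i, rfl⟩ | ⟨a, b, c, T, i, rfl⟩
    · exact h0 i
    · exact (proj_all_iff hD hg (gen_serre hD hss) h0).mp h1 a b c T i
  · refine sumsHave_of_gen hD hss hP fun N hN => ?_
    obtain ⟨Y, i, hY, rfl⟩ := hN
    have h0 : ∀ i, FactorOfSum D (OfFormsAll D) (D.H i (aff k k)) := fun i =>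
      FactorOfSum.self hD (Or.inl ⟨i, rfl⟩)
    exact (proj_all_iff hD hg (gen_serre hD hss) h0).mpr (fun a b c T i =>
      FactorOfSum.self hD (Or.inr ⟨a, b, c, T, i, rfl⟩)) Y hY i

/-- Over a prime field: finite direct sums of motives of smooth projective varieties, and finite direct
sums of motives of the hypersurfaces of tripartite hypergraphs. -/
theorem sums_graph_iff (hk : Frac k) :
    SumsHave D (OfProjAll D) P ↔ SumsHave D (OfGraphs D) P := by
  constructor
  · refine sumsHave_of_gen hD hss hP fun N hN => ?_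
    have h1 : ∀ Y : Sch k, SmoothProj Y → ∀ i, FactorOfSum D (OfProjAll D) (D.H i Y) :=
      fun Y hY i => FactorOfSum.self hD ⟨Y, i, hY, rfl⟩
    have h0 := point_factor hD hg hss 0 fun Y hY _ => h1 Y hY
    rcases hN with ⟨i, rfl⟩ | ⟨a, b, c, H, i, rfl⟩
    · exact h0 i
    · exact (proj_graph_iff hk hD hg (gen_serre hD hss) h0).mp h1 a b c H i
  · refine sumsHave_of_gen hD hss hP fun N hN => ?_
    obtain ⟨Y, i, hY, rfl⟩ := hN
    have h0 : ∀ i, FactorOfSum D (OfGraphs D) (D.H i (aff k k)) := fun i =>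
      FactorOfSum.self hD (Or.inl ⟨i, rfl⟩)
    exact (proj_graph_iff hk hD hg (gen_serre hD hss) h0).mpr (fun a b c H i =>
      FactorOfSum.self hD (Or.inr ⟨a, b, c, H, i, rfl⟩)) Y hY i

end

end Pool.Agent.Q193.LT
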