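import Pool.Agent.H39.L.TH122_KmA
import Pool.Agent.H39.L.TH122_KmB

/-!
# One cycle for all theories with the same traces in one degree
-/

open CategoryTheory AlgebraicGeometry Finset Polynomial

universe u v

namespace Pool.Agent.TH122.Km

open Pool.Agent.H914 VarClass Obj WeilCohomology Pool.Agent.H447 Pool.Agent.W537

section Alg

variable {K : Type*} [Field K] {V : Type*} [AddCommGroup V] [Module K V]

/-- The operator `φ` is injective on the graded piece `gr i`. -/
def InjectiveOn (gr : ℕ → Submodule K V) (i : ℕ) (φ : V →ₗ[K] V) : Prop :=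
  ∀ a ∈ gr i, φ a = 0 → a = 0

/-- Some linear combination of the operators in `S` is injective on the graded piece `gr i`. -/
def HasInjectiveCombination (gr : ℕ → Submodule K V) (i : ℕ) (S : Set (V →ₗ[K] V)) : Prop :=
  ∃ φ ∈ Submodule.span K S, InjectiveOn gr i φ

end Alg

variable {k : Type u} [Field k] {𝒱 : VarClass k} {ops : CycleOps 𝒱}

/-- For every cycle `z` of codimension `dim X` on `X × X` the traces of `z` on `H ^ i(X)` for the
theories in `𝒲` are all equal to the same rational number. -/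
def SameTraces (𝒲 : Set (WeilCohomology.{u, v} ops)) (X : 𝒱.Obj) (i : ℕ) : Prop :=
  ∀ z, (X.prod X).IsCyc X.dim z → ∃ q : ℚ, ∀ W ∈ 𝒲, TraceOn (W.gr X) i (cycOp W X z) q

/-- The map `ξ ^ (n - i) : H ^ i(X) → H ^ (2 n - i)(X)` is injective (hence bijective, by Poincare
duality), where `ξ` is the class of `D` and `n = dim X`. -/
def LefschetzInjective (W : WeilCohomology.{u, v} ops) (X : 𝒱.Obj) (D : X.Cycles) (i : ℕ) :
    Prop := InjectiveOn (W.gr X) i (lefPow W X D (X.dim - i))

/-- The operators on the cohomology of `X` attached to the cycles of codimension `i` on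
`X × X`. -/
def cycOps (W : WeilCohomology.{u, v} ops) (X : 𝒱.Obj) (i : ℕ) : Set (W.H X →ₗ[W.K] W.H X) :=
  {f | ∃ z, (X.prod X).IsCyc i z ∧ cycOp W X z = f}

/-- Some linear combination, with coefficients in the coefficient field of the theory, of cycles of
codimension `i` on `X × X` induces an injective (hence bijective, by Poincare duality) map
`H ^ (2 n - i)(X) → H ^ i(X)`, where `n = dim X`. -/
def HasIsomorphism (W : WeilCohomology.{u, v} ops) (X : 𝒱.Obj) (i : ℕ) : Prop :=
  HasInjectiveCombination (W.gr X) (2 * X.dim - i) (cycOps W X i)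

/-- One cycle induces the inverse of `ξ ^ (n - i) : H ^ i(X) → H ^ (2 n - i)(X)` for all the
theories in `𝒲`. -/
def OneCycleForAll (𝒲 : Set (WeilCohomology.{u, v} ops)) (X : 𝒱.Obj) (D : X.Cycles) (i : ℕ) :
    Prop := ∃ z, ∀ W ∈ 𝒲, InvertsLefschetz W X D i z

/-- For one theory in `𝒲` some cycle induces the inverse of
`ξ ^ (n - i) : H ^ i(X) → H ^ (2 n - i)(X)`. -/
def OneCycleForOne (𝒲 : Set (WeilCohomology.{u, v} ops)) (X : 𝒱.Obj) (D : X.Cycles) (i : ℕ) :
    Prop := ∃ W ∈ 𝒲, ∃ z, InvertsLefschetz W X D i z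

/-- For one theory in `𝒲` the map `ξ ^ (n - i) : H ^ i(X) → H ^ (2 n - i)(X)` is injective, and some
linear combination of cycles induces an injective map `H ^ (2 n - i)(X) → H ^ i(X)`. -/
def IsomorphismForOne (𝒲 : Set (WeilCohomology.{u, v} ops)) (X : 𝒱.Obj) (D : X.Cycles) (i : ℕ) :
    Prop := ∃ W ∈ 𝒲, LefschetzInjective W X D i ∧ HasIsomorphism W X i

variable {X : 𝒱.Obj} {D : X.Cycles} {i : ℕ}

/-- The operator of degree zero attached to the cycle `z` of codimension `i`. -/
noncomputable def TT (D : X.Cycles) (i : ℕ) (z : (X.prod X).Cycles)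
    (W : WeilCohomology.{u, v} ops) : Module.End W.K (W.H X) :=
  W.corr (W.cl _ z) * LL D W ^ (X.dim - i)

lemma realized_cyc (hi : i ≤ X.dim) {z : (X.prod X).Cycles} (hz : (X.prod X).IsCyc i z) :
    Realized.{u, v} ops X (-((X.dim - i : ℕ) : ℤ)) fun W => W.corr (W.cl _ z) :=
  Or.inl ⟨i, by omega, z, hz, fun _ => rfl⟩

lemma realized_TT (hD : X.IsCyc 1 D) (hi : i ≤ X.dim) {z : (X.prod X).Cycles}
    (hz : (X.prod X).IsCyc i z) : Realized.{u, v} ops X 0 (TT D i z) := by
  have hLr : Realized.{u, v} ops X 1 (LL D) := (Realized.mulLeft hD).cast Nat.cast_one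
  exact ((realized_cyc hi hz).mul (hLr.pow (X.dim - i))).cast (by ring)

lemma TT_mem (hD : X.IsCyc 1 D) (hi : i ≤ X.dim) {z : (X.prod X).Cycles}
    (hz : (X.prod X).IsCyc i z) (W : WeilCohomology.{u, v} ops) {a : W.H X}
    (ha : a ∈ W.gr X i) : TT D i z W a ∈ W.gr X i := by
  have h1 := (realized_TT hD hi hz).isHom W (i : ℤ) a (by rw [grZ_natCast]; exact ha)
  rwa [mul_zero, add_zero, grZ_natCast] at h1

lemma TT_comm (hD : X.IsCyc 1 D) (hi : i ≤ X.dim) {z : (X.prod X).Cycles}
    (hz : (X.prod X).IsCyc i z) (W : WeilCohomology.{u, v} ops) (j : ℕ) :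
    Commute (proj (W.isInternal X) j) (TT D i z W) := by
  have h1 : IsHom (W.gr X) 0 (TT D i z W) := by
    simpa using (realized_TT hD hi hz).isHom W
  exact h1.proj_comm (W.isInternal X) j

/-- A rational cycle which is injective. -/
lemma exists_cycle (hD : X.IsCyc 1 D) (hi : i ≤ X.dim) (W : WeilCohomology.{u, v} ops)
    (hL : LefschetzInjective W X D i) (h : HasIsomorphism W X i) :
    ∃ z, (X.prod X).IsCyc i z ∧ ∀ a ∈ W.gr X i, TT D i z W a = 0 → a = 0 := by
  obtain ⟨φ, hφ, hφi⟩ := h
  rw [Submodule.mem_span_set'] at hφ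
  obtain ⟨r, c, g, hg⟩ := hφ
  choose z hz hzg using fun j => (g j).2
  set G : Fin r → Module.End W.K (W.gr X i) := fun j =>
    (TT D i (z j) W).restrict (fun a ha => TT_mem hD hi (hz j) W ha) with hG
  have hGs : ∀ (x : Fin r → W.K) (a : W.gr X i), (((∑ j, x j • G j) a : W.gr X i) : W.H X) =
      ∑ j, x j • TT D i (z j) W a := by
    intro x a
    rw [LinearMap.sum_apply, Submodule.coe_sum]
    apply Finset.sum_congr rfl
    intro j _
    rfl
  obtain ⟨c', hc'⟩ := exists_rat_comb G c (by
    intro a ha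
    have h1 := hGs c a
    rw [ha, Submodule.coe_zero] at h1
    have h2 : φ ((LL D W ^ (X.dim - i)) (a : W.H X)) = 0 := by
      rw [← hg, LinearMap.sum_apply, h1]
      apply Finset.sum_congr rfl
      intro j _
      rw [LinearMap.smul_apply, ← hzg]
      rfl
    have h3 : (LL D W ^ (X.dim - i)) (a : W.H X) ∈ W.gr X (2 * X.dim - i) := by
      have := pow_L_mem (LL_isHom hD W) a.2 (X.dim - i)
      rwa [show i + 2 * (X.dim - i) = 2 * X.dim - i by omega] at this
    have h4 := hφi _ h3 h2
    apply Subtype.ext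
    apply hL a a.2
    rw [LinearMap.pow_mulLeft] at h4
    exact h4)
  refine ⟨∑ j, c' j • z j, ?_, ?_⟩
  · classical
    have : ∀ s : Finset (Fin r), (X.prod X).IsCyc i (∑ j ∈ s, c' j • z j) := by
      intro s
      induction s using Finset.induction_on with
      | empty => rw [Finset.sum_empty]; exact SmVar.IsCyc.zero _ _
      | insert a s ha ih =>
        rw [Finset.sum_insert ha]
        exact SmVar.IsCyc.add ((hz a).smul _) ih
    exact this _
  · intro a ha h0
    have h1 := hGs (fun j => (c' j : W.K)) ⟨a, ha⟩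
    have h2 : TT D i (∑ j, c' j • z j) W a = ∑ j, (c' j : W.K) • TT D i (z j) W a := by
      have h3 : W.corr (W.cl _ (∑ j, c' j • z j)) = ∑ j, (c' j : W.K) • W.corr (W.cl _ (z j)) := by
        classical
        have : ∀ s : Finset (Fin r), W.corr (W.cl _ (∑ j ∈ s, c' j • z j)) =
            ∑ j ∈ s, (c' j : W.K) • W.corr (W.cl _ (z j)) := by
          intro s
          induction s using Finset.induction_on with
          | empty => rw [Finset.sum_empty, Finset.sum_empty, map_zero, corr_zero]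
          | insert a s ha ih =>
            rw [Finset.sum_insert ha, Finset.sum_insert ha, map_add, corr_add, ih, W.cl_smul,
              corr_smul]
        exact this _
      rw [TT, h3, Finset.sum_mul, LinearMap.sum_apply]
      apply Finset.sum_congr rfl
      intro j _
      rfl
    have h5 : (∑ j, (c' j : W.K) • G j) ⟨a, ha⟩ = 0 := by
      apply Subtype.ext
      rw [h1, Submodule.coe_zero, ← h2, h0]
    exact congrArg Subtype.val (hc' _ h5)

/-- **One cycle for all theories with the same traces.** -/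
theorem exists_one (hD : X.IsCyc 1 D) (hi : i ≤ X.dim) {𝒲 : Set (WeilCohomology.{u, v} ops)}
    (h𝒲 : SameTraces 𝒲 X i) {W : WeilCohomology.{u, v} ops} (hW : W ∈ 𝒲)
    (hL : LefschetzInjective W X D i) (h : HasIsomorphism W X i) :
    ∃ z, ∀ W' ∈ 𝒲, InvertsLefschetz W' X D i z := by
  obtain ⟨z, hz, hzi⟩ := exists_cycle hD hi W hL h
  have hR := realized_TT (ops := ops) hD hi hz
  have h1 : ∀ r : ℕ, ∃ y, (X.prod X).IsCyc X.dim y ∧ ∀ W : WeilCohomology.{u, v} ops,
      TT D i z W ^ r = W.corr (W.cl _ y) := by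
    intro r
    exact cyc_of_realized (i := X.dim) le_rfl ((hR.pow0 r).cast (by simp))
  choose y hy hyW using h1
  choose q hq using fun r => h𝒲 (y r) (hy r)
  have hproj : ∀ W' : WeilCohomology.{u, v} ops,
      IsProjector (W'.gr X) i (proj (W'.isInternal X) i) := by
    intro W' j a ha
    split_ifs with hj
    · subst hj; exact proj_same _ ha
    · exact proj_ne _ ha hj
  have htr : ∀ W' ∈ 𝒲, ∀ r, LinearMap.trace W'.K (W'.H X)
      (proj (W'.isInternal X) i * TT D i z W' ^ r) = (q r : W'.K) := by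
    intro W' hW' r
    rw [hyW, LinearMap.trace_mul_comm]
    exact hq r W' hW' _ (hproj W')
  obtain ⟨p, hp0, hp⟩ := exists_radical (W.isInternal X) (TT_comm hD hi hz W i) (htr W hW) hzi
  have hb : ∀ W' ∈ 𝒲, Module.finrank W'.K (W'.gr X i) = Module.finrank W.K (W.gr X i) := by
    intro W' hW'
    have e1 := htr W' hW' 0
    have e2 := htr W hW 0
    rw [pow_zero, mul_one, trace_proj] at e1 e2
    have e3 : ((Module.finrank W.K (W.gr X i) : ℕ) : ℚ) = q 0 := by exact_mod_cast e2
    have e4 : ((Module.finrank W'.K (W'.gr X i) : ℕ) : ℚ) = q 0 := by exact_mod_cast e1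
    rw [← e3] at e4
    exact_mod_cast e4
  obtain ⟨g, v, hgv⟩ := exists_inverse p hp0 (Module.finrank W.K (W.gr X i))
  have hS : Realized.{u, v} ops X (-((X.dim - i : ℕ) : ℤ))
      (fun W => ev (TT D i z W) g * W.corr (W.cl _ z)) :=
    ((hR.ev g).mul (realized_cyc hi hz)).cast (by ring)
  obtain ⟨w, hw, hwW⟩ := cyc_of_realized hi hS
  refine ⟨w, fun W' hW' => ?_⟩
  rw [inverts_iff hD W' hi]
  refine ⟨hw, fun a ha => ?_⟩
  have ha' : a ∈ W'.gr X i := by rwa [show X.dim - (X.dim - i) = i by omega] at ha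
  rw [← hwW W']
  have h2 := kill (W'.isInternal X) (TT_comm hD hi hz W' i) (htr W' hW') hp
    (M := Module.finrank W.K (W.gr X i)) (hb W' hW').le a ha'
  have h3 := congrArg (fun f => ev (TT D i z W') f a) hgv
  rw [map_add, map_mul, map_mul, ev_X, map_pow, map_one, LinearMap.add_apply,
    Module.End.mul_apply, Module.End.mul_apply, h2, map_zero, add_zero, Module.End.one_apply] at h3
  exact h3

/-- **The statement for one theory, up to linear combinations, implies the statement for all
theories with one cycle.** -/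
theorem tfae_one (hD : X.IsCyc 1 D) (hi : i ≤ X.dim) {𝒲 : Set (WeilCohomology.{u, v} ops)}
    (h𝒲 : SameTraces 𝒲 X i) (hne : 𝒲.Nonempty) :
    [OneCycleForAll 𝒲 X D i, OneCycleForOne 𝒲 X D i, IsomorphismForOne 𝒲 X D i].TFAE := by
  tfae_have 1 → 2 := by
    rintro ⟨z, hz⟩
    obtain ⟨W, hW⟩ := hne
    exact ⟨W, hW, z, hz W hW⟩
  tfae_have 2 → 3 := by
    rintro ⟨W, hW, z, hz, h1, h2⟩
    refine ⟨W, hW, fun a ha h0 => ?_, cycOp W X z, Submodule.subset_span ⟨z, hz, rfl⟩,
      fun b hb h0 => ?_⟩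
    · rw [← h1 a ha, h0, map_zero]
    · rw [← h2 b hb, h0, map_zero]
  tfae_have 3 → 1 := by
    rintro ⟨W, hW, h1, h2⟩
    exact exists_one hD hi h𝒲 hW h1 h2
  tfae_finish

end Pool.Agent.TH122.Km
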