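import Pool.Agent.H39.L.H447R3_SpA

/-!
# The Casimir element and the descent of a central idempotent
-/

open Polynomial Finset TensorProduct

namespace Pool.Agent.TH133.PW

open Pool.Agent.H914 Pool.Agent.H447

section Closed

variable {K : Type*} [Field K] [CharZero K] {V U : Type*} [AddCommGroup V] [Module K V]
  [Module.Finite K V] [AddCommGroup U] [Module K U] [Module.Finite K U]

/-- Spectral projectors of two operators, by the same polynomials. -/
theorem exists_spectral_two [IsAlgClosed K] (T : Module.End K V) (R : Module.End K U) :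
    ∃ (s : Finset K) (g : K → K[X]) (N : ℕ), (∑ ν ∈ s, aeval T (g ν) = 1) ∧
      (∀ ν ∈ s, aeval T (g ν) * aeval T (g ν) = aeval T (g ν)) ∧
      (∀ ν ∈ s, aeval R (g ν) * aeval R (g ν) = aeval R (g ν)) ∧
      (∀ ν ∈ s, (T - algebraMap K (Module.End K V) ν) ^ N * aeval T (g ν) = 0) := by
  set D : Module.End K (V × U) := LinearMap.prodMapAlgHom K V U (T, R) with hD
  obtain ⟨s, E, N, hp, h1, h2, h3⟩ := exists_spectral D
  choose g hg using hp
  have hprod : ∀ f : K[X], aeval D f = LinearMap.prodMapAlgHom K V U (aeval T f, aeval R f) := by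
    intro f
    rw [hD, aeval_algHom_apply]
    congr 1
    rw [Polynomial.aeval_prod_apply]
  have hinj : ∀ a b c d, LinearMap.prodMapAlgHom K V U (a, b) =
      LinearMap.prodMapAlgHom K V U (c, d) → a = c ∧ b = d := by
    intro a b c d h
    constructor
    · apply LinearMap.ext
      intro v
      have := congrArg Prod.fst (LinearMap.congr_fun h (v, 0))
      simpa using this
    · apply LinearMap.ext
      intro v
      have := congrArg Prod.snd (LinearMap.congr_fun h (0, v))
      simpa using this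
  refine ⟨s, g, N, ?_, ?_, ?_, ?_⟩
  · have : LinearMap.prodMapAlgHom K V U (∑ ν ∈ s, aeval T (g ν), ∑ ν ∈ s, aeval R (g ν)) =
        LinearMap.prodMapAlgHom K V U (1, 1) := by
      have e1 : LinearMap.prodMapAlgHom K V U (1, 1) = 1 := map_one _
      rw [e1, ← h1]
      have e2 : ((∑ ν ∈ s, aeval T (g ν), ∑ ν ∈ s, aeval R (g ν)) :
          Module.End K V × Module.End K U) = ∑ ν ∈ s, (aeval T (g ν), aeval R (g ν)) := by
        apply Prod.ext
        · rw [Prod.fst_sum]
        · rw [Prod.snd_sum]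
      rw [e2, map_sum]
      exact Finset.sum_congr rfl (fun ν _ => by rw [hg ν, hprod])
    exact (hinj _ _ _ _ this).1
  · intro ν hν
    have := h2 ν hν
    rw [hg ν, hprod, ← map_mul] at this
    exact (hinj _ _ _ _ this).1
  · intro ν hν
    have := h2 ν hν
    rw [hg ν, hprod, ← map_mul] at this
    exact (hinj _ _ _ _ this).2
  · intro ν hν
    have h4 := h3 ν hν
    have e1 : (D - algebraMap K (Module.End K (V × U)) ν) ^ N =
        aeval D ((X - C ν) ^ N) := by simp
    have e2 : (T - algebraMap K (Module.End K V) ν) ^ N = aeval T ((X - C ν) ^ N) := by simp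
    rw [e1, hg ν, hprod, hprod, ← map_mul, ← map_zero (LinearMap.prodMapAlgHom K V U)] at h4
    rw [e2]
    exact (hinj _ _ _ _ h4).1

omit [CharZero K] [Module.Finite K V] [Module.Finite K U] in
lemma trace_poly {Ω p : Module.End K V} {R Q F : Module.End K U} {ε : K} {j : ℕ}
    (h : ∀ s : ℕ, LinearMap.trace K V (p * Ω ^ (s + j)) =
      ε * LinearMap.trace K U (Q * R ^ s * F)) (g : K[X]) :
    LinearMap.trace K V (p * (Ω ^ j * aeval Ω g)) =
      ε * LinearMap.trace K U (Q * aeval R g * F) := by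
  induction g using Polynomial.induction_on' with
  | add a b ha hb =>
    rw [map_add, map_add, mul_add, mul_add, map_add, ha, hb, mul_add, add_mul, map_add, mul_add]
  | monomial n a =>
    rw [aeval_monomial, aeval_monomial, Algebra.algebraMap_eq_smul_one,
      Algebra.algebraMap_eq_smul_one, smul_mul_assoc, one_mul, mul_smul_comm, mul_smul_comm,
      map_smul, smul_mul_assoc, one_mul, mul_smul_comm, smul_mul_assoc, map_smul, ← pow_add,
      add_comm j n, h, smul_eq_mul, smul_eq_mul]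
    ring

/-- The eigenvalues on one side. -/
lemma side {p Ω : Module.End K V} {Q R F : Module.End K U} {ε : ℚ} (hε : ε * ε = 1)
    (hpp : p * p = p) (hΩp : Commute p Ω) (hQQ : Q * Q = Q) (hRQ : Commute Q R)
    (h1 : ∀ s : ℕ, LinearMap.trace K V (p * Ω ^ (s + 1)) =
      (ε : K) * LinearMap.trace K U (Q * R ^ s))
    (h3 : ∀ s : ℕ, LinearMap.trace K V (p * Ω ^ s) =
      (ε : K) * LinearMap.trace K U (Q * R ^ s * F)) {g : K[X]} {ν : K} {N : ℕ}
    (hV : aeval Ω g * aeval Ω g = aeval Ω g) (hU : aeval R g * aeval R g = aeval R g)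
    (hN : (Ω - algebraMap K (Module.End K V) ν) ^ N * aeval Ω g = 0) :
    p * aeval Ω g = 0 ∨ ∃ q : ℚ, 0 < ε * q ∧ ν = (q : K) := by
  have hpg : Commute p (aeval Ω g) := comm_aeval hΩp g
  have hQg : Commute Q (aeval R g) := comm_aeval hRQ g
  have i1 : (p * aeval Ω g) * (p * aeval Ω g) = p * aeval Ω g := by
    calc (p * aeval Ω g) * (p * aeval Ω g) = p * (aeval Ω g * p) * aeval Ω g := by
          simp only [mul_assoc]
      _ = (p * p) * (aeval Ω g * aeval Ω g) := by rw [← hpg.eq]; simp only [mul_assoc]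
      _ = p * aeval Ω g := by rw [hpp, hV]
  have i2 : (Q * aeval R g) * (Q * aeval R g) = Q * aeval R g := by
    calc (Q * aeval R g) * (Q * aeval R g) = Q * (aeval R g * Q) * aeval R g := by
          simp only [mul_assoc]
      _ = (Q * Q) * (aeval R g * aeval R g) := by rw [← hQg.eq]; simp only [mul_assoc]
      _ = Q * aeval R g := by rw [hQQ, hU]
  have t1 := trace_idem i1
  have t2 := trace_idem i2
  set r := Module.finrank K (LinearMap.range (p * aeval Ω g)) with hr
  set u := Module.finrank K (LinearMap.range (Q * aeval R g)) with hu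
  have e1 := trace_poly (F := 1) (j := 1) (fun s => by rw [h1 s, mul_one]) g
  have e3 := trace_poly (j := 0) (fun s => h3 s) g
  rw [pow_one, mul_one, t2, trace_spectral hΩp hpg (comm_aeval (Commute.refl Ω) g) hN, t1] at e1
  rw [pow_zero, one_mul, t1] at e3
  by_cases hr0 : r = 0
  · left
    apply eq_zero_of_idem_of_trace_eq_zero i1
    rw [t1, hr0, Nat.cast_zero]
  · right
    have hε0 : ε ≠ 0 := by rintro rfl; simp at hε
    have hu0 : u ≠ 0 := by
      intro h
      have : Q * aeval R g = 0 := by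
        apply eq_zero_of_idem_of_trace_eq_zero i2
        rw [t2, h, Nat.cast_zero]
      rw [this, zero_mul, map_zero, mul_zero] at e3
      exact hr0 (by exact_mod_cast e3)
    refine ⟨ε * u / r, ?_, ?_⟩
    · rw [mul_div_assoc, ← mul_assoc, hε, one_mul]
      have h5 : (0 : ℚ) < u := by exact_mod_cast Nat.pos_of_ne_zero hu0
      have h6 : (0 : ℚ) < r := by exact_mod_cast Nat.pos_of_ne_zero hr0
      positivity
    · have h6 : (r : K) ≠ 0 := by exact_mod_cast hr0
      push_cast
      rw [eq_div_iff h6]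
      exact e1

/-- **The idempotent is a polynomial in the Casimir element**, over an algebraically closed
field. -/
theorem cas_closed [IsAlgClosed K] {p Ω : Module.End K V} {Q R F : Module.End K U}
    (hpp : p * p = p) (hΩp : Commute p Ω) (hQQ : Q * Q = Q) (hRQ : Commute Q R)
    (h1 : ∀ s : ℕ, LinearMap.trace K V (p * Ω ^ (s + 1)) = LinearMap.trace K U (Q * R ^ s))
    (h2 : ∀ s : ℕ, LinearMap.trace K V ((1 - p) * Ω ^ (s + 1)) =
      - LinearMap.trace K U ((1 - Q) * R ^ s))
    (h3 : ∀ s : ℕ, LinearMap.trace K V (p * Ω ^ s) = LinearMap.trace K U (Q * R ^ s * F))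
    (h4 : ∀ s : ℕ, LinearMap.trace K V ((1 - p) * Ω ^ s) =
      - LinearMap.trace K U ((1 - Q) * R ^ s * F)) : ∃ f : ℚ[X], ev Ω f = p := by
  classical
  obtain ⟨s, g, N, hs, hV, hU, hN⟩ := exists_spectral_two Ω R
  have hpp' : (1 - p) * (1 - p) = 1 - p := by rw [mul_sub, sub_mul, sub_mul, hpp]; simp
  have hQQ' : (1 - Q) * (1 - Q) = 1 - Q := by rw [mul_sub, sub_mul, sub_mul, hQQ]; simp
  have hΩp' : Commute (1 - p) Ω := (Commute.one_left Ω).sub_left hΩp
  have hRQ' : Commute (1 - Q) R := (Commute.one_left R).sub_left hRQ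
  have hpos : ∀ ν ∈ s, p * aeval Ω (g ν) = 0 ∨ ∃ q : ℚ, 0 < q ∧ ν = (q : K) := by
    intro ν hν
    have := side (F := F) (ε := 1) (by norm_num) hpp hΩp hQQ hRQ (fun s => by rw [h1 s]; simp)
      (fun s => by rw [h3 s]; simp) (hV ν hν) (hU ν hν) (hN ν hν)
    simpa using this
  have hneg : ∀ ν ∈ s, (1 - p) * aeval Ω (g ν) = 0 ∨ ∃ q : ℚ, q < 0 ∧ ν = (q : K) := by
    intro ν hν
    have := side (F := F) (ε := -1) (by norm_num) hpp' hΩp' hQQ' hRQ' (fun s => by rw [h2 s]; simp)
      (fun s => by rw [h4 s]; simp) (hV ν hν) (hU ν hν) (hN ν hν)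
    simpa using this
  -- the rational eigenvalues
  obtain ⟨qf, hqf⟩ : ∃ qf : K → ℚ, ∀ ν : K, (∃ q : ℚ, ν = (q : K)) → ν = (qf ν : K) := by
    refine ⟨fun ν => if h : ∃ q : ℚ, ν = (q : K) then h.choose else 0, fun ν h => ?_⟩
    dsimp only
    rw [dif_pos h]
    exact h.choose_spec
  set sp := s.filter (fun ν => ∃ q : ℚ, 0 < q ∧ ν = (q : K)) with hsp
  set sn := s.filter (fun ν => ∃ q : ℚ, q < 0 ∧ ν = (q : K)) with hsn
  set fp : ℚ[X] := ∏ ν ∈ sp, (X - C (qf ν)) ^ N with hfp
  set fn : ℚ[X] := ∏ ν ∈ sn, (X - C (qf ν)) ^ N with hfn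
  have hcop : IsCoprime fp fn := by
    apply IsCoprime.prod_left
    intro ν hν
    apply IsCoprime.prod_right
    intro κ hκ
    apply IsCoprime.pow
    apply isCoprime_X_sub_C_of_isUnit_sub
    apply IsUnit.mk0
    apply sub_ne_zero_of_ne
    intro h
    rw [hsp, Finset.mem_filter] at hν
    rw [hsn, Finset.mem_filter] at hκ
    obtain ⟨-, q, hq, hq'⟩ := hν
    obtain ⟨-, q', hq1, hq1'⟩ := hκ
    have e1 : ν = (qf ν : K) := hqf ν ⟨q, hq'⟩
    have e2 : κ = (qf κ : K) := hqf κ ⟨q', hq1'⟩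
    have e3 : q = q' := by
      have : (q : K) = q' := by rw [← hq', ← hq1', e1, e2, h]
      exact_mod_cast this
    linarith
  -- the factors kill the spectral projectors
  have hkill : ∀ (t : Finset K), (∀ ν ∈ t, ν ∈ s ∧ ∃ q : ℚ, ν = (q : K)) → ∀ ν ∈ t,
      ev Ω (∏ κ ∈ t, (X - C (qf κ)) ^ N) * aeval Ω (g ν) = 0 := by
    intro t ht ν hν
    rw [← Finset.prod_erase_mul t _ hν, map_mul, mul_assoc]
    have e1 : ev Ω ((X - C (qf ν)) ^ N) = (Ω - algebraMap K (Module.End K V) ν) ^ N := by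
      rw [map_pow, map_sub, ev_X, ev_C, Algebra.algebraMap_eq_smul_one, ← hqf ν (ht ν hν).2]
    rw [e1, hN ν (ht ν hν).1, mul_zero]
  have hfp0 : ev Ω fp * p = 0 := by
    have e1 : ev Ω fp * p = ∑ ν ∈ s, ev Ω fp * (p * aeval Ω (g ν)) := by
      rw [← Finset.mul_sum, ← Finset.mul_sum, hs, mul_one]
    rw [e1]
    apply Finset.sum_eq_zero
    intro ν hν
    rcases hpos ν hν with h0 | ⟨q, hq, hq'⟩
    · rw [h0, mul_zero]
    · have e2 := hkill sp (fun κ hκ => by
        rw [hsp, Finset.mem_filter] at hκ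
        exact ⟨hκ.1, hκ.2.choose, hκ.2.choose_spec.2⟩) ν
        (by rw [hsp, Finset.mem_filter]; exact ⟨hν, q, hq, hq'⟩)
      rw [(comm_aeval hΩp (g ν)).eq, ← mul_assoc, ← hfp] at *
      rw [e2, zero_mul]
  have hfn0 : ev Ω fn * (1 - p) = 0 := by
    have e1 : ev Ω fn * (1 - p) = ∑ ν ∈ s, ev Ω fn * ((1 - p) * aeval Ω (g ν)) := by
      rw [← Finset.mul_sum, ← Finset.mul_sum, hs, mul_one]
    rw [e1]
    apply Finset.sum_eq_zero
    intro ν hν
    rcases hneg ν hν with h0 | ⟨q, hq, hq'⟩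
    · rw [h0, mul_zero]
    · have e2 := hkill sn (fun κ hκ => by
        rw [hsn, Finset.mem_filter] at hκ
        exact ⟨hκ.1, hκ.2.choose, hκ.2.choose_spec.2⟩) ν
        (by rw [hsn, Finset.mem_filter]; exact ⟨hν, q, hq, hq'⟩)
      rw [(comm_aeval hΩp' (g ν)).eq, ← mul_assoc, ← hfn] at *
      rw [e2, zero_mul]
  obtain ⟨a, b, hab⟩ := hcop
  refine ⟨b * fn, ?_⟩
  have e1 : ev Ω (a * fp) + ev Ω (b * fn) = 1 := by rw [← map_add, hab, map_one]
  have e2 : ev Ω (a * fp) * p = 0 := by rw [map_mul, mul_assoc, hfp0, mul_zero]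
  have e3 : ev Ω (b * fn) * (1 - p) = 0 := by rw [map_mul, mul_assoc, hfn0, mul_zero]
  have e4 : ev Ω (b * fn) = ev Ω (b * fn) * p := by
    rw [mul_sub, mul_one, sub_eq_zero] at e3
    exact e3
  have e5 : p = ev Ω (b * fn) * p := by
    calc p = (ev Ω (a * fp) + ev Ω (b * fn)) * p := by rw [e1, one_mul]
      _ = _ := by rw [add_mul, e2, zero_add]
  rw [e4, ← e5]

end Closed

end Pool.Agent.TH133.PW
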