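import Pool.Agent.H89.L.H914R2_KDefs2

/-!
# The pointwise form of the Lefschetz standard conjecture: definitions
-/

open CategoryTheory AlgebraicGeometry

universe u v

namespace Pool.Agent.TH133.PW

open Pool.Agent.H914 VarClass Obj WeilCohomology

section Alg

variable {K : Type*} [Field K] {V : Type*} [AddCommGroup V] [Module K V]

/-- The subspaces `N i` of `gr i` are mapped to each other by the operators in the sets `S p`: an
operator in `S p` maps `N i` to `N j` if `j = i + 2 (p - n)`. -/
structure IsStableUnder (gr : ℕ → Submodule K V) (n : ℕ) (S : ℕ → Set (V →ₗ[K] V))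
    (N : ℕ → Submodule K V) : Prop where
  le : ∀ i, N i ≤ gr i
  stable : ∀ {p i j : ℕ}, j + 2 * n = i + 2 * p → ∀ φ ∈ S p, ∀ x ∈ N i, φ x ∈ N j

/-- The dimension of `N (n + c)` is at most the dimension of `N (n - c)`, for `c ≤ n`. -/
def UpperAtMostLower (n : ℕ) (N : ℕ → Submodule K V) : Prop :=
  ∀ c ≤ n, Module.finrank K (N (n + c)) ≤ Module.finrank K (N (n - c))

/-- The operator `L` maps `N (n - c)` onto `N (n + c)` for `c ≤ n`, when applied `c` times. -/
def LefschetzOn (n : ℕ) (L : Module.End K V) (N : ℕ → Submodule K V) : Prop :=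
  ∀ c ≤ n, ∀ y ∈ N (n + c), ∃ x ∈ N (n - c), (L ^ c) x = y

variable {A : Type*} [Ring A] [Algebra K A]

/-- The form `tr (x y)` vanishes on the family `N`. -/
def IsIsotropicFor (tr : A →ₗ[K] K) (N : ℕ → Submodule K A) : Prop :=
  ∀ i j, ∀ x ∈ N i, ∀ y ∈ N j, tr (x * y) = 0

/-- Some linear combination `φ`, which may depend on `y`, of the operators in `S` satisfies
`ξ * φ(y) = y`. -/
def InvertsAt (S : Set (A →ₗ[K] A)) (ξ : A) (y : A) : Prop :=
  ∃ φ ∈ Submodule.span K S, ξ * φ y = y

/-- The vector `y` is orthogonal to its images under the operators in `S`. -/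
def OrthogonalToImages (S : Set (A →ₗ[K] A)) (tr : A →ₗ[K] K) (y : A) : Prop :=
  ∀ φ ∈ S, tr (φ y * y) = 0

end Alg

variable {k : Type u} [Field k] {𝒱 : VarClass k} {ops : CycleOps 𝒱}

/-- The operators on `H(X)` induced by the algebraic cycles of codimension `p` on `X × X`. -/
def cycleOperators (W : WeilCohomology.{u, v} ops) (X : 𝒱.Obj) (p : ℕ) :
    Set (W.H X →ₗ[W.K] W.H X) :=
  {φ | ∃ z, (X.prod X).IsCyc p z ∧ W.corr (W.cl (X.prod X) z) = φ}

/-- There is a `K`-linear combination `φ`, which may depend on `y`, of operators induced by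
algebraic cycles of codimension `dim X - c` on `X × X` such that `D ^ c * φ(y) = y`. -/
def HasPreimage (W : WeilCohomology.{u, v} ops) (X : 𝒱.Obj) (D : X.Cycles) (c : ℕ)
    (y : W.H X) : Prop :=
  InvertsAt (cycleOperators W X (X.dim - c)) (W.cl X D ^ c) y

/-- For every algebraic cycle `z` of codimension `dim X - c` on `X × X`, the class `y` is
orthogonal to its image `z(y)`. -/
def IsIsotropicClass (W : WeilCohomology.{u, v} ops) (X : 𝒱.Obj) (c : ℕ) (y : W.H X) : Prop :=
  OrthogonalToImages (cycleOperators W X (X.dim - c)) (W.tr X) y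

/-- The subspaces `N i` of `H^i(X)` form a graded subspace of `H(X)` which is stable under all
algebraic correspondences from `X` to `X` (of all degrees). -/
def IsStable (W : WeilCohomology.{u, v} ops) (X : 𝒱.Obj) (N : ℕ → Submodule W.K (W.H X)) : Prop :=
  IsStableUnder (W.gr X) X.dim (cycleOperators W X) N

/-- Every single class `y` of a degree `n + c ≥ n = dim X` has a combination `φ` of algebraic
correspondences with `D ^ c * φ(y) = y`. -/
def InverseAtEachClass (W : WeilCohomology.{u, v} ops) (X : 𝒱.Obj) (D : X.Cycles) : Prop :=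
  ∀ c ≤ X.dim, ∀ y ∈ W.gr X (X.dim + c), HasPreimage W X D c y

/-- Every isotropic class `y` of a degree `n + c ≥ n = dim X` has a combination `φ` of algebraic
correspondences with `D ^ c * φ(y) = y`. -/
def InverseAtIsotropicClasses (W : WeilCohomology.{u, v} ops) (X : 𝒱.Obj) (D : X.Cycles) :
    Prop :=
  ∀ c ≤ X.dim, ∀ y ∈ W.gr X (X.dim + c), IsIsotropicClass W X c y → HasPreimage W X D c y

/-- Hard Lefschetz holds on every stable graded subspace: `D ^ c N^(n - c) = N^(n + c)` for
`c ≤ n = dim X`. -/
def LefschetzOnStable (W : WeilCohomology.{u, v} ops) (X : 𝒱.Obj) (D : X.Cycles) : Prop :=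
  ∀ N, IsStable W X N → LefschetzOn X.dim (LinearMap.mulLeft W.K (W.cl X D)) N

/-- For every stable graded subspace `N` on which the cup product pairing vanishes and all
`c ≤ n = dim X` the dimension of `N^(n + c)` is at most that of `N^(n - c)`. -/
def IsotropicInequality (W : WeilCohomology.{u, v} ops) (X : 𝒱.Obj) : Prop :=
  ∀ N, IsStable W X N → IsIsotropicFor (W.tr X) N → UpperAtMostLower X.dim N

end Pool.Agent.TH133.PW
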