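import Pool.Agent.H39.L.TH133_PW_KunDefs
import Pool.Agent.H39.L.H447R3_SpDefs

/-!
# The pointwise principle for the even Kunneth projector: definitions
-/

open CategoryTheory AlgebraicGeometry

universe u v

namespace Pool.Agent.TH133.PW

open Pool.Agent.H914 VarClass Obj WeilCohomology Pool.Agent.H447

section Alg

variable {K : Type*} [Field K] {V : Type*} [AddCommGroup V] [Module K V]

/-- The projector onto the sum of the `gr i`, `i` even, along the sum of the `gr i`, `i` odd, is a
linear combination of the operators in `S`. -/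
def EvenProjInSpan (gr : ℕ → Submodule K V) (S : Set (V →ₗ[K] V)) : Prop :=
  ∃ P ∈ Submodule.span K S, IsEvenProj gr P

/-- For all even `i` and odd `j`, `y` in `gr i` and `y'` in `gr j` some linear combination `φ` of the
operators in `S`, which may depend on `y` and `y'`, satisfies `φ y = y` and `φ y' = 0`. -/
def SeparatesParity (gr : ℕ → Submodule K V) (S : Set (V →ₗ[K] V)) : Prop :=
  ∀ i j, Even i → Odd j → ∀ y ∈ gr i, ∀ y' ∈ gr j, ∃ φ ∈ Submodule.span K S, φ y = y ∧ φ y' = 0

/-- Every subspace stable under the operators in `S` is stable under the projector onto the sum of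
the `gr i`, `i` even. -/
def StableParity (gr : ℕ → Submodule K V) (S : Set (V →ₗ[K] V)) : Prop :=
  ∀ N : Submodule K V, (∀ φ ∈ S, ∀ x ∈ N, φ x ∈ N) → ∀ P : Module.End K V, IsEvenProj gr P →
    ∀ x ∈ N, P x ∈ N

variable {A B : Type*} [Ring A] [Algebra K A] [Ring B] [Algebra K B]

/-- If `i` is even, `j` is odd and `p(y) q(w) + p(y') q(w')` is orthogonal to the elements of `Z`,
for `y`, `w`, `y'`, `w'` of degrees `i`, `2 n - i`, `j`, `2 n - j`, then `tr (y w) = 0`. -/
def DetectsParitySums (gr : ℕ → Submodule K A) (n : ℕ) (tr : A →ₗ[K] K) (tr' : B →ₗ[K] K)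
    (p q : A →ₐ[K] B) (Z : Set B) : Prop :=
  ∀ i j, Even i → Odd j → ∀ y ∈ gr i, ∀ w ∈ gr (2 * n - i), ∀ y' ∈ gr j, ∀ w' ∈ gr (2 * n - j),
    OrthogonalTo tr' Z (p y * q w + p y' * q w') → tr (y * w) = 0

end Alg

variable {k : Type u} [Field k] {𝒱 : VarClass k} {ops : CycleOps 𝒱}

/-- If `y` and `w` are classes of even degrees with sum `2 n`, `y'` and `w'` classes of odd degrees
with sum `2 n`, where `n = dim X`, and `y × w + y' × w'` is orthogonal to all algebraic cycles of
codimension `n` on `X × X`, then `tr (y w) = 0`. -/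
def DetectsParity (W : WeilCohomology.{u, v} ops) (X : 𝒱.Obj) : Prop :=
  DetectsParitySums (W.gr X) X.dim (W.tr X) (W.tr (X.prod X)) (W.map (fst X X)) (W.map (snd X X))
    (algClasses W (X.prod X) X.dim)

end Pool.Agent.TH133.PW
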