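import Pool.Agent.H39.L.TH133_PW_Orb
import Pool.Agent.H39.L.TH133_PW_KunDefs

/-!
# The pointwise principle for the Kunneth projectors
-/

open CategoryTheory AlgebraicGeometry Finset

universe u v

namespace Pool.Agent.TH133.PW

open Pool.Agent.H914 VarClass Obj WeilCohomology Pool.Agent.TH122.Km Pool.Agent.W537

section Tominaga

variable {K V : Type*} [Field K] [AddCommGroup V] [Module K V]

/-- Tominaga's argument for a set of operators which need not be a left ideal. -/
theorem tominaga_one {Am : Submodule K (Module.End K V)} {U : Submodule K V}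
    (h2 : ∀ a ∈ Am, ∀ b ∈ Am, a * (1 - b) ∈ Am) (hU : ∀ b ∈ Am, ∀ y ∈ U, b y ∈ U)
    (h : ∀ y ∈ U, ∃ a ∈ Am, a y = y) (m : ℕ) :
    ∀ y : Fin m → V, (∀ i, y i ∈ U) → ∃ a ∈ Am, ∀ i, a (y i) = y i := by
  induction m with
  | zero => exact fun y _ => ⟨0, Submodule.zero_mem _, fun i => i.elim0⟩
  | succ m ih =>
    intro y hy
    obtain ⟨a₁, ha₁, h₁⟩ := h (y 0) (hy 0)
    obtain ⟨a₂, ha₂, h₂⟩ := ih (fun i => (1 - a₁) (y i.succ))
      (fun i => Submodule.sub_mem _ (hy _) (hU _ ha₁ _ (hy _)))
    refine ⟨a₁ + a₂ * (1 - a₁), Submodule.add_mem _ ha₁ (h2 _ ha₂ _ ha₁), ?_⟩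
    intro i
    refine Fin.cases ?_ (fun i => ?_) i
    · have e : (1 - a₁) (y 0) = 0 := by
        rw [LinearMap.sub_apply, Module.End.one_apply, h₁, sub_self]
      rw [LinearMap.add_apply, Module.End.mul_apply, e, map_zero, add_zero, h₁]
    · have := h₂ i
      rw [LinearMap.add_apply, Module.End.mul_apply, this, LinearMap.sub_apply,
        Module.End.one_apply, add_sub_cancel]

/-- One operator which is the identity on `U`. -/
theorem tominaga_one_uniform {Am : Submodule K (Module.End K V)} {U : Submodule K V}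
    (hfg : U.FG) (h2 : ∀ a ∈ Am, ∀ b ∈ Am, a * (1 - b) ∈ Am)
    (hU : ∀ b ∈ Am, ∀ y ∈ U, b y ∈ U) (h : ∀ y ∈ U, ∃ a ∈ Am, a y = y) :
    ∃ a ∈ Am, ∀ y ∈ U, a y = y := by
  obtain ⟨m, s, hs⟩ := Submodule.fg_iff_exists_fin_generating_family.1 hfg
  have hsU : ∀ i, s i ∈ U := fun i => hs ▸ Submodule.subset_span ⟨i, rfl⟩
  obtain ⟨a, ha, h'⟩ := tominaga_one h2 hU h m s hsU
  refine ⟨a, ha, fun y hy => ?_⟩
  have : U ≤ LinearMap.eqLocus a 1 := by
    rw [← hs, Submodule.span_le]
    rintro _ ⟨i, rfl⟩
    exact h' i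
  exact this hy

/-- Separation of two subspaces, from the separation of single vectors. -/
theorem separate_two {A : Submodule K (Module.End K V)} (h1 : (1 : Module.End K V) ∈ A)
    (hmul : ∀ a ∈ A, ∀ b ∈ A, a * b ∈ A) {U U' : Submodule K V} (hfg : U.FG) (hfg' : U'.FG)
    (hU : ∀ b ∈ A, ∀ y ∈ U, b y ∈ U) (hU' : ∀ b ∈ A, ∀ y ∈ U', b y ∈ U')
    (h : ∀ y ∈ U, ∀ y' ∈ U', ∃ a ∈ A, a y = y ∧ a y' = 0) :
    ∃ c ∈ A, (∀ y ∈ U, c y = 0) ∧ ∀ y' ∈ U', c y' = y' := by
  -- the first step
  have step1 : ∀ y' ∈ U', ∃ a ∈ A, (∀ y ∈ U, a y = y) ∧ a y' = 0 := by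
    intro y' hy'
    obtain ⟨a, ha, hay⟩ := tominaga_one_uniform
      (Am := A ⊓ LinearMap.ker (LinearMap.applyₗ (R := K) (M := V) (M₂ := V) y')) (U := U) hfg
      (by
        rintro a ⟨ha, ha'⟩ b ⟨hb, hb'⟩
        have ha'' : a y' = 0 := ha'
        have hb'' : b y' = 0 := hb'
        refine ⟨hmul _ ha _ (Submodule.sub_mem _ h1 hb), ?_⟩
        change (a * (1 - b)) y' = 0
        rw [Module.End.mul_apply, LinearMap.sub_apply, Module.End.one_apply, hb'', sub_zero, ha''])
      (fun b hb y hy => hU b hb.1 y hy)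
      (by
        intro y hy
        obtain ⟨a, ha, h1, h2⟩ := h y hy y' hy'
        exact ⟨a, ⟨ha, h2⟩, h1⟩)
    exact ⟨a, ha.1, hay, ha.2⟩
  -- the second step
  obtain ⟨c, hc, hcy⟩ := tominaga_one_uniform
    (Am := A ⊓ ⨅ y ∈ U, LinearMap.ker (LinearMap.applyₗ (R := K) (M := V) (M₂ := V) y))
    (U := U') hfg'
    (by
      rintro a ⟨ha, ha'⟩ b ⟨hb, hb'⟩
      refine ⟨hmul _ ha _ (Submodule.sub_mem _ h1 hb), ?_⟩
      have ha'' : ∀ y ∈ U, a y = 0 := by simpa using ha'
      have hb'' : ∀ y ∈ U, b y = 0 := by simpa using hb'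
      have : ∀ y ∈ U, (a * (1 - b)) y = 0 := by
        intro y hy
        rw [Module.End.mul_apply, LinearMap.sub_apply, Module.End.one_apply, hb'' y hy, sub_zero,
          ha'' y hy]
      simpa using this)
    (fun b hb y hy => hU' b hb.1 y hy)
    (by
      intro y' hy'
      obtain ⟨a, ha, h2, h3⟩ := step1 y' hy'
      refine ⟨1 - a, ⟨Submodule.sub_mem _ h1 ha, ?_⟩, ?_⟩
      · have : ∀ y ∈ U, (1 - a) y = 0 := by
          intro y hy
          rw [LinearMap.sub_apply, Module.End.one_apply, h2 y hy, sub_self]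
        simpa using this
      · rw [LinearMap.sub_apply, Module.End.one_apply, h3, sub_zero])
  refine ⟨c, hc.1, ?_, hcy⟩
  have : ∀ y ∈ U, c y = 0 := by simpa using hc.2
  exact this

variable {gr : ℕ → Submodule K V}

/-- The projector from the separation of vectors. -/
theorem projector_of_separates [FiniteDimensional K V] {S : Set (V →ₗ[K] V)}
    {N : ℕ} (hN : ∀ i, N ≤ i → gr i = ⊥)
    (h1 : (1 : Module.End K V) ∈ Submodule.span K S)
    (hmul : ∀ a ∈ Submodule.span K S, ∀ b ∈ Submodule.span K S,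
      (a * b : Module.End K V) ∈ Submodule.span K S)
    (hgr : ∀ a ∈ Submodule.span K S, ∀ i, ∀ y ∈ gr i, a y ∈ gr i) {i : ℕ}
    (h : Separates gr i S) : ProjectorInSpan gr i S := by
  have hsep : ∀ j, j ≠ i → ∃ c ∈ Submodule.span K S, (∀ y ∈ gr i, c y = 0) ∧
      ∀ y' ∈ gr j, c y' = y' := fun j hj =>
    separate_two h1 hmul (IsNoetherian.noetherian _) (IsNoetherian.noetherian _)
      (fun b hb => hgr b hb i) (fun b hb => hgr b hb j) (h j hj)
  have key : ∀ m : ℕ, ∃ e ∈ Submodule.span K S, (∀ y ∈ gr i, e y = y) ∧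
      ∀ j < m, j ≠ i → ∀ y ∈ gr j, e y = 0 := by
    intro m
    induction m with
    | zero => exact ⟨1, h1, fun y _ => rfl, fun j hj => absurd hj (Nat.not_lt_zero _)⟩
    | succ m ih =>
      obtain ⟨e, he, he1, he2⟩ := ih
      by_cases hm : m = i
      · refine ⟨e, he, he1, fun j hj hji y hy => he2 j ?_ hji y hy⟩
        omega
      · obtain ⟨c, hc, hc1, hc2⟩ := hsep m hm
        refine ⟨e * (1 - c), hmul _ he _ (Submodule.sub_mem _ h1 hc), ?_, ?_⟩
        · intro y hy
          rw [Module.End.mul_apply, LinearMap.sub_apply, Module.End.one_apply, hc1 y hy, sub_zero,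
            he1 y hy]
        · intro j hj hji y hy
          rw [Module.End.mul_apply, LinearMap.sub_apply, Module.End.one_apply]
          by_cases hjm : j = m
          · subst hjm
            rw [hc2 y hy, sub_self, map_zero]
          · exact he2 j (by omega) hji _ (Submodule.sub_mem _ hy (hgr c hc j y hy))
  obtain ⟨e, he, he1, he2⟩ := key N
  refine ⟨e, he, fun j a ha => ?_⟩
  split_ifs with hj
  · subst hj
    exact he1 a ha
  · by_cases hjN : j < N
    · exact he2 j hjN hj a ha
    · rw [hN j (by omega)] at ha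
      rw [(Submodule.mem_bot _).1 ha, map_zero]

end Tominaga

section Cyc

variable {k : Type u} [Field k] {𝒱 : VarClass k} {ops : CycleOps 𝒱}
  {W : WeilCohomology.{u, v} ops} {X : 𝒱.Obj}

lemma span_cycleOperators0 : Submodule.span W.K (cycleOperators W X X.dim) = KOp W X X 0 :=
  span_cycleOperators (by ring)

lemma kop_gr {a : W.H X →ₗ[W.K] W.H X} (ha : a ∈ KOp W X X 0) (i : ℕ) {y : W.H X}
    (hy : y ∈ W.gr X i) : a y ∈ W.gr X i := by
  have := KOp.isHom ha i y (by rw [grZ_natCast]; exact hy)
  rwa [mul_zero, add_zero, grZ_natCast] at this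

/-- Every linear form is given by the trace pairing. -/
lemma exists_dual (f : W.H X →ₗ[W.K] W.K) : ∃ w, ∀ x, f x = W.tr X (x * w) := by
  let g : W.H X →ₗ[W.K] Module.Dual W.K (W.H X) :=
    ((LinearMap.mul W.K (W.H X)).compr₂ (W.tr X)).flip
  have hg : ∀ w x, g w x = W.tr X (x * w) := fun _ _ => rfl
  have hinj : Function.Injective g := by
    rw [injective_iff_map_eq_zero]
    intro w hw
    apply nondeg_right
    intro b
    rw [← hg, hw, LinearMap.zero_apply]
  have hsurj : Function.Surjective g :=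
    (LinearMap.injective_iff_surjective_of_finrank_eq_finrank
      (Subspace.dual_finrank_eq).symm).1 hinj
  obtain ⟨w, hw⟩ := hsurj f
  exact ⟨w, fun x => by rw [← hw, hg]⟩

/-- The pairing with a homogeneous class only sees the complementary component. -/
lemma tr_mul_proj {i : ℕ} (hi : i ≤ 2 * X.dim) {x : W.H X} (hx : x ∈ W.gr X i) (w : W.H X) :
    W.tr X (x * proj (W.isInternal X) (2 * X.dim - i) w) = W.tr X (x * w) := by
  refine gr_induction (W.isInternal X) (p := fun w =>
    W.tr X (x * proj (W.isInternal X) (2 * X.dim - i) w) = W.tr X (x * w)) ?_ ?_ w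
  · intro l b hb
    by_cases hl : l = 2 * X.dim - i
    · subst hl; rw [proj_same _ hb]
    · rw [proj_ne _ hb hl, mul_zero, map_zero, W.tr_eq_zero (W.mul_mem hx hb) (by omega)]
  · intro b b' hb hb'
    rw [map_add, mul_add, mul_add, map_add, map_add, hb, hb']

lemma tr_cycle_ext (z : (X.prod X).Cycles) (y w : W.H X) :
    W.tr (X.prod X) (W.cl (X.prod X) z * (W.map (fst X X) y * W.map (snd X X) w)) =
      W.tr X (W.corr (W.cl (X.prod X) z) y * w) := by
  rw [corr_apply, W.tr_push, mul_assoc]

/-- Detection of the pairs gives the separation. -/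
theorem separates_of_detects {i : ℕ} (h : DetectsPairs W X i) :
    Separates (W.gr X) i (cycleOperators W X X.dim) := by
  intro j hj y hy y' hy'
  rw [span_cycleOperators0]
  by_cases hi2 : i ≤ 2 * X.dim
  swap
  · rw [W.gr_eq_bot X i (by omega)] at hy
    exact ⟨0, Submodule.zero_mem _, by rw [(Submodule.mem_bot _).1 hy, map_zero], by simp⟩
  by_cases hj2 : j ≤ 2 * X.dim
  swap
  · rw [W.gr_eq_bot X j (by omega)] at hy'
    exact ⟨LinearMap.id, KOp.id X, rfl, by rw [(Submodule.mem_bot _).1 hy', map_zero]⟩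
  -- the subspace of the pairs `(φ y, φ y')`
  let M : Submodule W.K (W.H X × W.H X) := (KOp W X X 0).map
    ((LinearMap.applyₗ y).prod (LinearMap.applyₗ y'))
  by_contra hcon
  have hnot : ((y, 0) : W.H X × W.H X) ∉ M := by
    rintro ⟨φ, hφ, hφy⟩
    have h1 : φ y = y := congrArg Prod.fst hφy
    have h2 : φ y' = 0 := congrArg Prod.snd hφy
    exact hcon ⟨φ, hφ, h1, h2⟩
  obtain ⟨f, hf, hfM⟩ := Submodule.exists_le_ker_of_notMem hnot
  obtain ⟨w, hw⟩ := exists_dual (W := W) (X := X) (f ∘ₗ LinearMap.inl W.K _ _)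
  obtain ⟨w', hw'⟩ := exists_dual (W := W) (X := X) (f ∘ₗ LinearMap.inr W.K _ _)
  have hff : ∀ x x', f (x, x') = W.tr X (x * w) + W.tr X (x' * w') := by
    intro x x'
    rw [← hw, ← hw', LinearMap.comp_apply, LinearMap.comp_apply, ← map_add]
    simp
  apply hf
  rw [hff, zero_mul, map_zero, add_zero, ← tr_mul_proj hi2 hy w]
  apply h j hj y hy _ (proj_mem _ _ _) y' hy' _ (proj_mem (W.isInternal X) (2 * X.dim - j) w')
  rintro _ ⟨z, hz, rfl⟩
  have hφ : W.corr (W.cl (X.prod X) z) ∈ KOp W X X 0 := KOp.gen (p := X.dim) (by ring) hz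
  rw [mul_add, map_add, tr_cycle_ext, tr_cycle_ext, tr_mul_proj hi2 (kop_gr hφ i hy),
    tr_mul_proj hj2 (kop_gr hφ j hy'), ← hff]
  exact hfM ⟨_, hφ, rfl⟩

/-- Separation gives the detection of the pairs. -/
theorem detects_of_separates {i : ℕ} (h : Separates (W.gr X) i (cycleOperators W X X.dim)) :
    DetectsPairs W X i := by
  intro j hj y hy w _ y' hy' w' _ horth
  obtain ⟨φ, hφ, h1, h2⟩ := h j hj y hy y' hy'
  have key : ∀ φ ∈ Submodule.span W.K (cycleOperators W X X.dim),
      W.tr X (φ y * w) + W.tr X (φ y' * w') = 0 := by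
    intro φ hφ
    induction hφ using Submodule.span_induction with
    | mem φ hφ =>
      obtain ⟨z, hz, rfl⟩ := hφ
      have := horth _ ⟨z, hz, rfl⟩
      rwa [mul_add, map_add, tr_cycle_ext, tr_cycle_ext] at this
    | zero => simp
    | add φ ψ _ _ h1 h2 =>
      rw [LinearMap.add_apply, LinearMap.add_apply, add_mul, add_mul, map_add, map_add]
      linear_combination h1 + h2
    | smul a φ _ h1 =>
      rw [LinearMap.smul_apply, LinearMap.smul_apply, smul_mul_assoc, smul_mul_assoc, map_smul,
        map_smul, ← smul_add, h1, smul_zero]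
  have := key φ hφ
  rwa [h1, h2, zero_mul, map_zero, add_zero] at this

/-- **The pointwise principle for the Kunneth projectors, with coefficients.** -/
theorem kunneth_span_tfae (i : ℕ) :
    [ProjectorInSpan (W.gr X) i (cycleOperators W X X.dim),
      Separates (W.gr X) i (cycleOperators W X X.dim), DetectsPairs W X i,
      StableSplit (W.gr X) i (cycleOperators W X X.dim)].TFAE := by
  tfae_have 1 → 4 := by
    rintro ⟨P, hP, hP'⟩ N hN Q hQ x hx
    have hPQ : P = Q := gr_ext (W.isInternal X) (fun j a ha => by rw [hP' j a ha, hQ j a ha])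
    have key : ∀ φ ∈ Submodule.span W.K (cycleOperators W X X.dim), ∀ x ∈ N, φ x ∈ N := by
      intro φ hφ
      induction hφ using Submodule.span_induction with
      | mem φ hφ => exact hN φ hφ
      | zero => exact fun x _ => Submodule.zero_mem _
      | add φ ψ _ _ h1 h2 => exact fun x hx => Submodule.add_mem _ (h1 x hx) (h2 x hx)
      | smul a φ _ h => exact fun x hx => Submodule.smul_mem _ _ (h x hx)
    rw [← hPQ]
    exact key P hP x hx
  tfae_have 4 → 2 := by
    intro h j hj y hy y' hy'
    have hint := W.isInternal X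
    have hproj : IsProjector (W.gr X) i (proj hint i) := by
      intro j a ha
      split_ifs with hj
      · subst hj; exact proj_same _ ha
      · exact proj_ne _ ha hj
    have h1 := h (orb W X 0 (y + y'))
      (by
        rintro _ ⟨z, hz, rfl⟩ x hx
        exact orb_step (KOp.gen (p := X.dim) (d := 0) (by ring) hz) hx (add_zero _))
      (proj hint i) hproj (y + y') (self_mem_orb _)
    rw [map_add, proj_same _ hy, proj_ne _ hy' hj, add_zero] at h1
    obtain ⟨φ, hφ, hφy⟩ := h1
    have hφy' : φ y + φ y' = y := by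
      rw [← map_add]
      exact hφy
    have h2 := congrArg (proj hint i) hφy'
    rw [map_add, proj_same _ (kop_gr hφ i hy), proj_ne _ (kop_gr hφ j hy') hj, add_zero,
      proj_same _ hy] at h2
    refine ⟨φ, by rw [span_cycleOperators0]; exact hφ, h2, ?_⟩
    rw [h2] at hφy'
    simpa using hφy'
  tfae_have 2 → 1 := by
    intro h
    apply projector_of_separates (N := 2 * X.dim + 1)
      (fun i hi => W.gr_eq_bot X i (by omega))
    · rw [span_cycleOperators0]; exact KOp.id X
    · rw [span_cycleOperators0]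
      exact fun a ha b hb => KOp.cast (KOp.comp ha hb) (by ring)
    · rw [span_cycleOperators0]
      exact fun a ha i y hy => kop_gr ha i hy
    · exact h
  tfae_have 2 → 3 := detects_of_separates
  tfae_have 3 → 2 := separates_of_detects
  tfae_finish

lemma isProjector_proj (W : WeilCohomology.{u, v} ops) (X : 𝒱.Obj) (i : ℕ) :
    IsProjector (W.gr X) i (proj (W.isInternal X) i) := by
  intro j a ha
  split_ifs with hj
  · subst hj; exact proj_same _ ha
  · exact proj_ne _ ha hj

/-- **One projector for all theories with the same traces**, from a projector with coefficients. -/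
theorem oneProjector_of_span {𝒲 : Set (WeilCohomology.{u, v} ops)} (h𝒲 : SameTracesAll 𝒲 X)
    (hW : W ∈ 𝒲) {i : ℕ} (h : ProjectorInSpan (W.gr X) i (cycleOperators W X X.dim)) :
    OneProjectorForAll 𝒲 X i := by
  obtain ⟨P, hP, hP'⟩ := h
  have hPp : P = proj (W.isInternal X) i :=
    gr_ext (W.isInternal X) (fun j a ha => by rw [hP' j a ha, isProjector_proj W X i j a ha])
  rw [Submodule.mem_span_set'] at hP
  obtain ⟨r, c, g, hg⟩ := hP
  choose z hz hzg using fun j => (g j).2
  obtain ⟨f, hf⟩ := exists_form W.K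
  -- the rational cycle
  set T : (X.prod X).Cycles := ∑ j, f (c j) • z j with hT
  have hTcyc : (X.prod X).IsCyc X.dim T := by
    classical
    have : ∀ s : Finset (Fin r), (X.prod X).IsCyc X.dim (∑ j ∈ s, f (c j) • z j) := by
      intro s
      induction s using Finset.induction_on with
      | empty => rw [Finset.sum_empty]; exact SmVar.IsCyc.zero _ _
      | insert a s ha ih =>
        rw [Finset.sum_insert ha]
        exact SmVar.IsCyc.add ((hz a).smul _) ih
    exact this _
  have hTop : ∀ W' : WeilCohomology.{u, v} ops, W'.corr (W'.cl _ T) =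
      ∑ j, ((f (c j) : ℚ) : W'.K) • W'.corr (W'.cl _ (z j)) := by
    intro W'
    classical
    have : ∀ s : Finset (Fin r), W'.corr (W'.cl _ (∑ j ∈ s, f (c j) • z j)) =
        ∑ j ∈ s, ((f (c j) : ℚ) : W'.K) • W'.corr (W'.cl _ (z j)) := by
      intro s
      induction s using Finset.induction_on with
      | empty => rw [Finset.sum_empty, Finset.sum_empty, map_zero, corr_zero]
      | insert a s ha ih =>
        rw [Finset.sum_insert ha, Finset.sum_insert ha, map_add, corr_add, ih, W'.cl_smul,
          corr_smul]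
    exact this _
  have hR : Realized.{u, v} ops X 0 (fun W => W.corr (W.cl _ T)) :=
    Or.inl ⟨X.dim, by simp, T, hTcyc, fun _ => rfl⟩
  -- the traces for the first theory
  have htr : ∀ (m : ℕ) (y : (X.prod X).Cycles), (X.prod X).IsCyc X.dim y →
      LinearMap.trace W.K (W.H X)
        (W.corr (W.cl _ T) * W.corr (W.cl _ y) * proj (W.isInternal X) m) =
      if m = i then LinearMap.trace W.K (W.H X) (W.corr (W.cl _ y) * proj (W.isInternal X) i)
        else 0 := by
    intro m y hy
    have hyK : W.corr (W.cl _ y) ∈ KOp W X X 0 := KOp.gen (p := X.dim) (by ring) hy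
    have h1 : ∀ j, ∃ q : ℚ, LinearMap.trace W.K (W.H X)
        (W.corr (W.cl _ (z j)) * W.corr (W.cl _ y) * proj (W.isInternal X) m) = (q : W.K) := by
      intro j
      obtain ⟨q, hq⟩ := h𝒲 m (compCyc ops y (z j)) (compCyc_mem hy (hz j) rfl)
      refine ⟨q, ?_⟩
      have := hq W hW _ (isProjector_proj W X m)
      rw [cycOp, corr_compCyc W (hz j)] at this
      exact this
    choose q hq using h1
    have e1 : LinearMap.trace W.K (W.H X)
        (W.corr (W.cl _ T) * W.corr (W.cl _ y) * proj (W.isInternal X) m) =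
        ((f (LinearMap.trace W.K (W.H X)
          (P * W.corr (W.cl _ y) * proj (W.isInternal X) m)) : ℚ) : W.K) := by
      have e2 : P * W.corr (W.cl _ y) * proj (W.isInternal X) m =
          ∑ j, c j • (W.corr (W.cl _ (z j)) * W.corr (W.cl _ y) * proj (W.isInternal X) m) := by
        rw [← hg, Finset.sum_mul, Finset.sum_mul]
        apply Finset.sum_congr rfl
        intro j _
        rw [smul_mul_assoc, smul_mul_assoc, ← hzg]
      have e3 : ∀ j, c j * (q j : W.K) = q j • c j := fun j => by rw [Rat.smul_def, mul_comm]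
      rw [hTop, Finset.sum_mul, Finset.sum_mul, map_sum, e2, map_sum, map_sum, Rat.cast_sum]
      apply Finset.sum_congr rfl
      intro j _
      rw [smul_mul_assoc, smul_mul_assoc, map_smul, map_smul, hq, smul_eq_mul, smul_eq_mul, e3,
        map_smul, smul_eq_mul, Rat.cast_mul, mul_comm]
    rw [e1, hPp]
    split_ifs with hm
    · subst hm
      have e4 : proj (W.isInternal X) m * W.corr (W.cl _ y) * proj (W.isInternal X) m =
          W.corr (W.cl _ y) * proj (W.isInternal X) m := by
        apply LinearMap.ext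
        intro a
        rw [Module.End.mul_apply, Module.End.mul_apply, Module.End.mul_apply,
          proj_same _ (kop_gr hyK m (proj_mem (W.isInternal X) m a))]
      obtain ⟨q', hq'⟩ := h𝒲 m y hy
      have e5 := hq' W hW _ (isProjector_proj W X m)
      rw [cycOp] at e5
      rw [e4, e5]
      have e6 : f (q' : W.K) = q' := by
        have : (q' : W.K) = q' • (1 : W.K) := by rw [Rat.smul_def, mul_one]
        rw [this, map_smul, hf, smul_eq_mul, mul_one]
      rw [e6]
    · have e4 : proj (W.isInternal X) i * W.corr (W.cl _ y) * proj (W.isInternal X) m = 0 := by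
        apply LinearMap.ext
        intro a
        rw [Module.End.mul_apply, Module.End.mul_apply,
          proj_ne _ (kop_gr hyK m (proj_mem (W.isInternal X) m a)) hm, LinearMap.zero_apply]
      rw [e4, map_zero, map_zero, Rat.cast_zero]
  -- the cycles of the powers
  have hpowR : ∀ s : ℕ, ∃ y, (X.prod X).IsCyc X.dim y ∧ ∀ W : WeilCohomology.{u, v} ops,
      W.corr (W.cl _ T) ^ s = W.corr (W.cl _ y) := fun s =>
    cyc_of_realized (i := X.dim) le_rfl ((hR.pow0 s).cast (by simp))
  choose y hy hyW using hpowR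
  choose q hq using fun m s => h𝒲 m (y s) (hy s)
  have hq' : ∀ m s, ∀ W' ∈ 𝒲, LinearMap.trace W'.K (W'.H X)
      (proj (W'.isInternal X) m * W'.corr (W'.cl _ T) ^ s) = (q m s : W'.K) := by
    intro m s W' hW'
    rw [hyW, LinearMap.trace_mul_comm]
    exact hq m s W' hW' _ (isProjector_proj W' X m)
  have hrec : ∀ m s, q m (s + 1) = if m = i then q i s else 0 := by
    intro m s
    have e1 := htr m (y s) (hy s)
    rw [← hyW, ← pow_succ', LinearMap.trace_mul_comm, hq' m (s + 1) W hW,
      LinearMap.trace_mul_comm, hq' i s W hW] at e1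
    split_ifs with hm
    · rw [if_pos hm] at e1
      exact_mod_cast e1
    · rw [if_neg hm] at e1
      exact_mod_cast e1
  have hb : ∀ m, ∀ W' ∈ 𝒲, Module.finrank W'.K (W'.gr X m) = Module.finrank W.K (W.gr X m) := by
    intro m W' hW'
    have e1 := hq' m 0 W' hW'
    have e2 := hq' m 0 W hW
    rw [pow_zero, mul_one, trace_proj] at e1 e2
    have e3 : ((Module.finrank W.K (W.gr X m) : ℕ) : ℚ) = q m 0 := by exact_mod_cast e2
    have e4 : ((Module.finrank W'.K (W'.gr X m) : ℕ) : ℚ) = q m 0 := by exact_mod_cast e1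
    rw [← e3] at e4
    exact_mod_cast e4
  have hcomm : ∀ (W' : WeilCohomology.{u, v} ops) (m : ℕ),
      Commute (proj (W'.isInternal X) m) (W'.corr (W'.cl _ T)) := by
    intro W' m
    have h1 : IsHom (W'.gr X) 0 (W'.corr (W'.cl _ T)) := by
      simpa using hR.isHom W'
    exact h1.proj_comm (W'.isInternal X) m
  set M := Module.finrank W.K (W.H X) + 1 with hM
  have hbM : ∀ m, ∀ W' ∈ 𝒲, Module.finrank W'.K (W'.gr X m) ≤ M := by
    intro m W' hW'
    rw [hb m W' hW']
    exact (Submodule.finrank_le _).trans (Nat.le_succ _)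
  obtain ⟨w, hw, hwW⟩ := cyc_of_realized (i := X.dim) le_rfl
    ((hR.ev (1 - (1 - Polynomial.X ^ M) ^ M)).cast (by simp))
  refine ⟨w, hw, fun W' hW' m a ha => ?_⟩
  rw [← hwW W']
  split_ifs with hm
  · subst hm
    have h1 := kill (W'.isInternal X) (hcomm W' m) (fun s => hq' m s W' hW')
      (p := Polynomial.X - 1) (by
        intro r
        induction r using Polynomial.induction_on' with
        | add r r' hr hr' => rw [mul_add, map_add, hr, hr', add_zero]
        | monomial b c =>
          rw [sub_mul, one_mul, map_sub, Polynomial.X_mul_monomial, tau_monomial, tau_monomial,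
            hrec, if_pos rfl, sub_self])
      (hbM m W' hW') a ha
    have h2 : (1 - (1 - Polynomial.X ^ M) ^ M : Polynomial ℚ) =
        1 - (-(∑ t ∈ range M, Polynomial.X ^ t)) ^ M * (Polynomial.X - 1) ^ M := by
      rw [← mul_pow]
      congr 2
      have := mul_geom_sum (Polynomial.X : Polynomial ℚ) M
      linear_combination this
    rw [h2, map_sub, map_mul, map_one, LinearMap.sub_apply, Module.End.mul_apply,
      map_pow _ (Polynomial.X - 1) M, h1, map_zero, sub_zero, Module.End.one_apply]
  · have h1 := kill (W'.isInternal X) (hcomm W' m) (fun s => hq' m s W' hW')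
      (p := Polynomial.X) (by
        intro r
        induction r using Polynomial.induction_on' with
        | add r r' hr hr' => rw [mul_add, map_add, hr, hr', add_zero]
        | monomial b c =>
          rw [Polynomial.X_mul_monomial, tau_monomial, hrec, if_neg hm, mul_zero])
      (hbM m W' hW') a ha
    have h2 : (1 - (1 - Polynomial.X ^ M) ^ M : Polynomial ℚ) =
        (∑ t ∈ range M, (1 - Polynomial.X ^ M) ^ t) * Polynomial.X ^ M := by
      have := geom_sum_mul_neg (1 - Polynomial.X ^ M : Polynomial ℚ) M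
      rw [← this]
      ring
    rw [h2, map_mul, Module.End.mul_apply, map_pow, h1, map_zero]

/-- **The pointwise principle for the Kunneth projectors, for all theories with the same
traces.** -/
theorem kunneth_one_tfae {𝒲 : Set (WeilCohomology.{u, v} ops)} (hne : 𝒲.Nonempty)
    (h𝒲 : SameTracesAll 𝒲 X) (i : ℕ) :
    [OneProjectorForAll 𝒲 X i, SeparatesForOne 𝒲 X i, DetectsForOne 𝒲 X i,
      SplitForOne 𝒲 X i].TFAE := by
  have key := fun W : WeilCohomology.{u, v} ops => kunneth_span_tfae (W := W) (X := X) i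
  tfae_have 1 → 2 := by
    rintro ⟨P, hP, h⟩
    obtain ⟨W, hW⟩ := hne
    have h1 : ProjectorInSpan (W.gr X) i (cycleOperators W X X.dim) :=
      ⟨_, Submodule.subset_span ⟨P, hP, rfl⟩, h W hW⟩
    have h2 := (key W).out 0 1
    exact ⟨W, hW, h2.1 h1⟩
  tfae_have 2 → 3 := by
    rintro ⟨W, hW, h⟩
    have h2 := (key W).out 1 2
    exact ⟨W, hW, h2.1 h⟩
  tfae_have 3 → 4 := by
    rintro ⟨W, hW, h⟩
    have h2 := (key W).out 2 3
    exact ⟨W, hW, h2.1 h⟩
  tfae_have 4 → 1 := by
    rintro ⟨W, hW, h⟩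
    have h2 := (key W).out 3 0
    exact oneProjector_of_span h𝒲 hW (h2.1 h)
  tfae_finish

end Cyc

end Pool.Agent.TH133.PW
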