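import Mathlib

/-!
# Linear algebra for the pointwise principle

Tominaga's argument: if for every single vector `y` of `U` there is an operator `a` (of a left
ideal, in the graded sense) with `L (a y) = y`, then there is one such operator for all vectors.
-/

namespace Pool.Agent.TH133.PW

section Tominaga

variable {K V : Type*} [Field K] [AddCommGroup V] [Module K V]

/-- **Tominaga's argument.** -/
theorem tominaga {A0 Am : Submodule K (Module.End K V)} {L : Module.End K V} {U : Submodule K V}
    (h1 : ∀ a ∈ Am, 1 - L * a ∈ A0) (h2 : ∀ a ∈ Am, ∀ b ∈ A0, a * b ∈ Am)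
    (hU : ∀ b ∈ A0, ∀ y ∈ U, b y ∈ U) (h : ∀ y ∈ U, ∃ a ∈ Am, L (a y) = y) (m : ℕ) :
    ∀ y : Fin m → V, (∀ i, y i ∈ U) → ∃ a ∈ Am, ∀ i, L (a (y i)) = y i := by
  induction m with
  | zero => exact fun y _ => ⟨0, Submodule.zero_mem _, fun i => i.elim0⟩
  | succ m ih =>
    intro y hy
    obtain ⟨a₁, ha₁, h₁⟩ := h (y 0) (hy 0)
    obtain ⟨a₂, ha₂, h₂⟩ := ih (fun i => (1 - L * a₁) (y i.succ))
      (fun i => hU _ (h1 a₁ ha₁) _ (hy _))
    refine ⟨a₁ + a₂ * (1 - L * a₁), Submodule.add_mem _ ha₁ (h2 _ ha₂ _ (h1 _ ha₁)), ?_⟩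
    intro i
    refine Fin.cases ?_ (fun i => ?_) i
    · have e : (1 - L * a₁) (y 0) = 0 := by
        rw [LinearMap.sub_apply, Module.End.one_apply, Module.End.mul_apply, h₁, sub_self]
      rw [LinearMap.add_apply, Module.End.mul_apply, e, map_zero, add_zero, h₁]
    · have := h₂ i
      rw [LinearMap.add_apply, Module.End.mul_apply, map_add, this, LinearMap.sub_apply,
        Module.End.one_apply, Module.End.mul_apply, add_sub_cancel]

/-- The uniform version: one operator for all vectors. -/
theorem tominaga_uniform {A0 Am : Submodule K (Module.End K V)} {L : Module.End K V}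
    {U : Submodule K V} (hfg : U.FG)
    (h1 : ∀ a ∈ Am, 1 - L * a ∈ A0) (h2 : ∀ a ∈ Am, ∀ b ∈ A0, a * b ∈ Am)
    (hU : ∀ b ∈ A0, ∀ y ∈ U, b y ∈ U) (h : ∀ y ∈ U, ∃ a ∈ Am, L (a y) = y) :
    ∃ a ∈ Am, ∀ y ∈ U, L (a y) = y := by
  obtain ⟨m, s, hs⟩ := Submodule.fg_iff_exists_fin_generating_family.1 hfg
  have hsU : ∀ i, s i ∈ U := fun i => hs ▸ Submodule.subset_span ⟨i, rfl⟩
  obtain ⟨a, ha, h'⟩ := tominaga h1 h2 hU h m s hsU
  refine ⟨a, ha, fun y hy => ?_⟩
  have : U ≤ LinearMap.eqLocus (L * a) 1 := by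
    rw [← hs, Submodule.span_le]
    rintro _ ⟨i, rfl⟩
    exact h' i
  exact this hy

end Tominaga

section Pairing

variable {K E F : Type*} [Field K] [AddCommGroup E] [Module K E] [AddCommGroup F] [Module K F]
  [FiniteDimensional K E] [FiniteDimensional K F]

/-- The two kernels of a pairing between finite-dimensional spaces. -/
theorem finrank_ker_pairing (B : E →ₗ[K] F →ₗ[K] K) :
    Module.finrank K E + Module.finrank K (LinearMap.ker B.flip) =
      Module.finrank K F + Module.finrank K (LinearMap.ker B) := by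
  have h1 := LinearMap.finrank_range_add_finrank_ker B
  have h2 : LinearMap.ker B.flip = (LinearMap.range B).dualCoannihilator := by
    ext w
    rw [LinearMap.mem_ker, Submodule.mem_dualCoannihilator]
    constructor
    · rintro h _ ⟨e, rfl⟩
      have := congrArg (fun f => f e) h
      simpa using this
    · intro h
      ext e
      simpa using h (B e) ⟨e, rfl⟩
  have h3 : Module.finrank K (LinearMap.range B) +
      Module.finrank K (LinearMap.range B).dualCoannihilator = Module.finrank K F :=
    Subspace.finrank_add_finrank_dualCoannihilator_eq (LinearMap.range B)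
  rw [h2]
  omega

end Pairing

end Pool.Agent.TH133.PW
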