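import Pool.Agent.H89.L.H914R2_KLef
import Pool.Agent.H89.L.H447R3_NumA
import Pool.Agent.H39.L.W537_OneCycleA
import Pool.Agent.H89.L.W537_OneCycleDefs

/-!
# One cycle for all Weil cohomology theories
-/

open CategoryTheory AlgebraicGeometry Finset Polynomial

universe u v

namespace Pool.Agent.W537

open Pool.Agent.H914 VarClass Obj WeilCohomology Pool.Agent.H447

variable {k : Type u} [Field k] {𝒱 : VarClass k} {ops : CycleOps 𝒱} {X : 𝒱.Obj}

/-- Poincare duality for the Betti numbers. -/
lemma betti_le (W : WeilCohomology.{u, v} ops) {i j : ℕ} (hij : i + j = 2 * X.dim) :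
    W.betti X i ≤ W.betti X j := by
  set φ : W.gr X i →ₗ[W.K] Module.Dual W.K (W.gr X j) :=
    { toFun := fun a => W.tr X ∘ₗ LinearMap.mulLeft W.K (a : W.H X) ∘ₗ (W.gr X j).subtype
      map_add' := by
        intro a b
        ext c
        simp [add_mul]
      map_smul' := by
        intro a b
        ext c
        simp } with hφ
  have hinj : Function.Injective φ := by
    rw [← LinearMap.ker_eq_bot, LinearMap.ker_eq_bot']
    rintro ⟨a, ha⟩ h0
    apply Subtype.ext
    apply W.nondeg
    intro c
    refine gr_induction (W.isInternal X) (p := fun c => W.tr X (a * c) = 0) ?_ ?_ c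
    · intro m c hc
      by_cases hm : m = j
      · subst hm
        exact congrArg (fun F => F ⟨c, hc⟩) h0
      · exact W.tr_eq_zero (W.mul_mem ha hc) (by omega)
    · intro c c' hc hc'
      rw [mul_add, map_add, hc, hc', add_zero]
  have h1 := LinearMap.finrank_le_finrank_of_injective hinj
  rwa [Subspace.dual_finrank_eq] at h1

/-- The operator of multiplication by the class of `D`. -/
noncomputable abbrev LL (D : X.Cycles) (W : WeilCohomology.{u, v} ops) :
    Module.End W.K (W.H X) := LinearMap.mulLeft W.K (W.cl X D)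

lemma LL_isHom {D : X.Cycles} (hD : X.IsCyc 1 D) (W : WeilCohomology.{u, v} ops) :
    IsHom (W.gr X) 2 (LL D W) := by
  simpa using rop_opAlg.hom (rop_mulLeft (W := W) hD)

/-- A left inverse is an inverse. -/
lemma surj_of_left {D : X.Cycles} (hD : X.IsCyc 1 D) (W : WeilCohomology.{u, v} ops) {c : ℕ}
    (hc : c ≤ X.dim) {T : Module.End W.K (W.H X)}
    (hT : ∀ a ∈ W.gr X (X.dim - c), T ((LL D W ^ c) a) = a) {b : W.H X}
    (hb : b ∈ W.gr X (X.dim + c)) : ∃ a ∈ W.gr X (X.dim - c), (LL D W ^ c) a = b := by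
  have hmem : ∀ a ∈ W.gr X (X.dim - c), (LL D W ^ c) a ∈ W.gr X (X.dim + c) := by
    intro a ha
    have := pow_L_mem (LL_isHom hD W) ha c
    rwa [show X.dim - c + 2 * c = X.dim + c by omega] at this
  set φ : W.gr X (X.dim - c) →ₗ[W.K] W.gr X (X.dim + c) := (LL D W ^ c).restrict hmem with hφ
  have hinj : Function.Injective φ := by
    rw [← LinearMap.ker_eq_bot, LinearMap.ker_eq_bot']
    rintro ⟨a, ha⟩ h0
    apply Subtype.ext
    have h1 : (LL D W ^ c) a = 0 := congrArg Subtype.val h0
    have h2 := hT a ha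
    rw [h1, map_zero] at h2
    exact h2.symm
  have hdim : Module.finrank W.K (W.gr X (X.dim - c)) =
      Module.finrank W.K (W.gr X (X.dim + c)) :=
    le_antisymm (betti_le W (by omega)) (betti_le W (by omega))
  obtain ⟨a, ha⟩ := (LinearMap.injective_iff_surjective_of_finrank_eq_finrank hdim).1 hinj ⟨b, hb⟩
  exact ⟨a, a.2, congrArg Subtype.val ha⟩

lemma isInv_mul_pow {D : X.Cycles} (hD : X.IsCyc 1 D) (W : WeilCohomology.{u, v} ops) {c : ℕ}
    (hc : c ≤ X.dim) {T : Module.End W.K (W.H X)} (hT : IsInv (W.gr X) X.dim (LL D W) c T) :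
    T * LL D W ^ c = proj (W.isInternal X) (X.dim - c) := by
  apply gr_ext (W.isInternal X)
  intro j a ha
  rw [Module.End.mul_apply]
  by_cases hj : j = X.dim - c
  · subst hj
    rw [hT.1 a ha, proj_same _ ha]
  · rw [proj_ne _ ha hj, hT.2 (j + 2 * c) (by omega) _ (pow_L_mem (LL_isHom hD W) ha c)]

lemma pow_mul_isInv {D : X.Cycles} (hD : X.IsCyc 1 D) (W : WeilCohomology.{u, v} ops) {c : ℕ}
    (hc : c ≤ X.dim) {T : Module.End W.K (W.H X)} (hT : IsInv (W.gr X) X.dim (LL D W) c T) :
    LL D W ^ c * T = proj (W.isInternal X) (X.dim + c) := by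
  apply gr_ext (W.isInternal X)
  intro j b hb
  rw [Module.End.mul_apply]
  by_cases hj : j = X.dim + c
  · subst hj
    obtain ⟨a, ha, rfl⟩ := surj_of_left hD W hc hT.1 hb
    rw [hT.1 a ha, proj_same _ hb]
  · rw [proj_ne _ hb hj, hT.2 j hj b hb, map_zero]

lemma inverts_iff {D : X.Cycles} (hD : X.IsCyc 1 D) (W : WeilCohomology.{u, v} ops) {i : ℕ}
    (hi : i ≤ X.dim) {z : (X.prod X).Cycles} :
    InvertsLefschetz W X D i z ↔ (X.prod X).IsCyc i z ∧ ∀ a ∈ W.gr X (X.dim - (X.dim - i)),
      W.corr (W.cl _ z) ((LL D W ^ (X.dim - i)) a) = a := by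
  constructor
  · rintro ⟨hz, h1, -⟩
    refine ⟨hz, fun a ha => ?_⟩
    rw [LinearMap.pow_mulLeft]
    exact h1 a (by rwa [show X.dim - (X.dim - i) = i by omega] at ha)
  · rintro ⟨hz, h1⟩
    refine ⟨hz, fun a ha => ?_, fun b hb => ?_⟩
    · have h2 := h1 a (by rwa [show X.dim - (X.dim - i) = i by omega])
      rw [LinearMap.pow_mulLeft] at h2
      exact h2
    · obtain ⟨a, ha, rfl⟩ := surj_of_left hD W (c := X.dim - i) (by omega) h1
        (by rwa [show X.dim + (X.dim - i) = 2 * X.dim - i by omega])
      rw [LinearMap.pow_mulLeft]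
      have h2 := h1 a ha
      rw [LinearMap.pow_mulLeft] at h2
      exact congrArg (lefPow W X D (X.dim - i)) h2

/-- The super trace of a family of operators supported in one degree. -/
lemma str_supp (W : WeilCohomology.{u, v} ops) {i : ℕ} {E : Module.End W.K (W.H X)}
    (hE : proj (W.isInternal X) i * E = E) :
    LinearMap.trace W.K (W.H X) (par (W.isInternal X) * E) =
      (-1 : W.K) ^ i * LinearMap.trace W.K (W.H X) E := by
  have h1 : par (W.isInternal X) * proj (W.isInternal X) i =
      (-1 : W.K) ^ i • proj (W.isInternal X) i := by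
    apply LinearMap.ext
    intro a
    rw [Module.End.mul_apply, par, scal_apply _ _ (proj_mem _ i a), LinearMap.smul_apply]
  rw [← hE, ← mul_assoc, h1, smul_mul_assoc, map_smul, smul_eq_mul]

/-- The super traces of a family of operators of degree zero are independent of the theory. -/
lemma str_indep {Y : ∀ W : WeilCohomology.{u, v} ops, Module.End W.K (W.H X)}
    (hY : Realized ops X 0 Y) : ∃ q : ℚ, ∀ W : WeilCohomology.{u, v} ops,
      LinearMap.trace W.K (W.H X) (par (W.isInternal X) * Y W) = q := by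
  rcases hY with ⟨q, hq, z, hz, hY⟩ | ⟨hd, _⟩
  · obtain rfl : q = X.dim := by omega
    refine ⟨X.V.degCycle (ops.pull (diag X) z), fun W => ?_⟩
    rw [hY, trace_par_corr, ← cl_pull, tr_cl _ (ops.pull_mem _ hz)]
  · omega

/-- **The inductive step.** -/
theorem step {D : X.Cycles} (hD : X.IsCyc 1 D) {m : ℕ} (hm : m ≤ X.dim)
    {Θ : ∀ W : WeilCohomology.{u, v} ops, Module.End W.K (W.H X)}
    (hΘ : Realized ops X (-((X.dim - m : ℕ) : ℤ)) Θ)
    (F : ℕ → ∀ W : WeilCohomology.{u, v} ops, Module.End W.K (W.H X))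
    (hF : ∀ l < m, Realized ops X (-((X.dim - l : ℕ) : ℤ)) (F l))
    (W : WeilCohomology.{u, v} ops)
    (hW : ∀ l < m, IsInv (W.gr X) X.dim (LL D W) (X.dim - l) (F l W))
    (hΘW : ∀ a ∈ W.gr X m, Θ W ((LL D W ^ (X.dim - m)) a) = a) :
    ∃ Y : ∀ W : WeilCohomology.{u, v} ops, Module.End W.K (W.H X),
      Realized ops X (-((X.dim - m : ℕ) : ℤ)) Y ∧
      ∀ W' : WeilCohomology.{u, v} ops,
        (∀ l < m, IsInv (W'.gr X) X.dim (LL D W') (X.dim - l) (F l W')) →
        W.betti X m ≤ W'.betti X m ∧
          (W'.betti X m ≤ W.betti X m →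
            IsInv (W'.gr X) X.dim (LL D W') (X.dim - m) (Y W')) := by
  set c := X.dim - m with hc
  -- the truncations
  set A : ∀ W : WeilCohomology.{u, v} ops, Module.End W.K (W.H X) :=
    fun W => 1 - ∑ l ∈ range m, F l W * LL D W ^ (X.dim - l) with hA
  set B : ∀ W : WeilCohomology.{u, v} ops, Module.End W.K (W.H X) :=
    fun W => 1 - ∑ l ∈ range m, LL D W ^ (X.dim - l) * F l W with hB
  have hLr : Realized.{u, v} ops X 1 (LL D) := (Realized.mulLeft hD).cast Nat.cast_one
  have hAr : Realized ops X 0 A := by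
    apply Realized.one.sub
    apply Realized.sum
    intro l hl
    rw [Finset.mem_range] at hl
    exact ((hF l hl).mul (hLr.pow (X.dim - l))).cast (by ring)
  have hBr : Realized ops X 0 B := by
    apply Realized.one.sub
    apply Realized.sum
    intro l hl
    rw [Finset.mem_range] at hl
    exact ((hLr.pow (X.dim - l)).mul (hF l hl)).cast (by ring)
  set T : ∀ W : WeilCohomology.{u, v} ops, Module.End W.K (W.H X) :=
    fun W => A W * Θ W * B W with hT
  have hTr : Realized ops X (-(c : ℤ)) T := ((hAr.mul hΘ).mul hBr).cast (by ring)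
  set G : ∀ W : WeilCohomology.{u, v} ops, Module.End W.K (W.H X) :=
    fun W => T W * LL D W ^ c with hG
  have hGr : Realized ops X 0 G := (hTr.mul (hLr.pow c)).cast (by ring)
  -- the support of `T`
  have supp : ∀ W' : WeilCohomology.{u, v} ops,
      (∀ l < m, IsInv (W'.gr X) X.dim (LL D W') (X.dim - l) (F l W')) →
      (∀ x ∈ W'.gr X m, A W' x = x) ∧
      (∀ x ∈ W'.gr X (X.dim + c), B W' x = x) ∧
      (∀ j, j ≠ X.dim + c → ∀ a ∈ W'.gr X j, T W' a = 0) := by
    intro W' hW'
    have hA' : A W' = 1 - ∑ l ∈ range m, proj (W'.isInternal X) l := by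
      rw [hA]
      beta_reduce
      congr 1
      apply Finset.sum_congr rfl
      intro l hl
      rw [Finset.mem_range] at hl
      rw [isInv_mul_pow hD W' (by omega) (hW' l hl), show X.dim - (X.dim - l) = l by omega]
    have hB' : B W' = 1 - ∑ l ∈ range m, proj (W'.isInternal X) (2 * X.dim - l) := by
      rw [hB]
      beta_reduce
      congr 1
      apply Finset.sum_congr rfl
      intro l hl
      rw [Finset.mem_range] at hl
      rw [pow_mul_isInv hD W' (by omega) (hW' l hl),
        show X.dim + (X.dim - l) = 2 * X.dim - l by omega]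
    have hAlow : ∀ l < m, ∀ a ∈ W'.gr X l, A W' a = 0 := by
      intro l hl a ha
      rw [hA', LinearMap.sub_apply, Module.End.one_apply, LinearMap.sum_apply,
        Finset.sum_eq_single l, proj_same _ ha, sub_self]
      · intro l' _ hl'; exact proj_ne _ ha (Ne.symm hl')
      · intro h'; exact absurd (Finset.mem_range.2 hl) h'
    have hAhigh : ∀ l, m ≤ l → ∀ a ∈ W'.gr X l, A W' a = a := by
      intro l hl a ha
      rw [hA', LinearMap.sub_apply, Module.End.one_apply, LinearMap.sum_apply,
        Finset.sum_eq_zero, sub_zero]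
      intro l' hl'
      rw [Finset.mem_range] at hl'
      exact proj_ne _ ha (by omega)
    have hBhigh : ∀ l, 2 * X.dim - m < l → ∀ a ∈ W'.gr X l, B W' a = 0 := by
      intro l hl a ha
      by_cases hl2 : 2 * X.dim < l
      · rw [W'.gr_eq_bot X l hl2] at ha
        rw [(Submodule.mem_bot _).1 ha, map_zero]
      · rw [hB', LinearMap.sub_apply, Module.End.one_apply, LinearMap.sum_apply,
          Finset.sum_eq_single (2 * X.dim - l),
          show 2 * X.dim - (2 * X.dim - l) = l by omega, proj_same _ ha, sub_self]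
        · intro l' hl' hne
          rw [Finset.mem_range] at hl'
          exact proj_ne _ ha (by omega)
        · intro h'; exact absurd (Finset.mem_range.2 (by omega)) h'
    have hBlow : ∀ l ≤ 2 * X.dim - m, ∀ a ∈ W'.gr X l, B W' a = a := by
      intro l hl a ha
      rw [hB', LinearMap.sub_apply, Module.End.one_apply, LinearMap.sum_apply,
        Finset.sum_eq_zero, sub_zero]
      intro l' hl'
      rw [Finset.mem_range] at hl'
      exact proj_ne _ ha (by omega)
    refine ⟨fun x hx => hAhigh m le_rfl x hx, fun x hx => hBlow _ (by omega) x hx, ?_⟩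
    intro l hl a ha
    change A W' (Θ W' (B W' a)) = 0
    by_cases h1 : 2 * X.dim - m < l
    · rw [hBhigh l h1 a ha, map_zero, map_zero]
    · rw [hBlow l (by omega) a ha]
      have h2 := (hΘ.isHom W') l a (by rw [grZ_natCast]; exact ha)
      by_cases h3 : 2 * c ≤ l
      · rw [show (l : ℤ) + 2 * -(c : ℤ) = ((l - 2 * c : ℕ) : ℤ) by omega, grZ_natCast] at h2
        exact hAlow _ (by omega) _ h2
      · rw [grZ_of_neg (by omega)] at h2
        rw [(Submodule.mem_bot _).1 h2, map_zero]
  -- the operator `G` is supported in degree `m`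
  have hGsupp : ∀ W' : WeilCohomology.{u, v} ops,
      (∀ l < m, IsInv (W'.gr X) X.dim (LL D W') (X.dim - l) (F l W')) →
      proj (W'.isInternal X) m * G W' = G W' ∧ G W' * proj (W'.isInternal X) m = G W' := by
    intro W' hW'
    have hG0 : IsHom (W'.gr X) 0 (G W') := by simpa using hGr.isHom W'
    have h2 : G W' * proj (W'.isInternal X) m = G W' := by
      apply gr_ext (W'.isInternal X)
      intro j a ha
      rw [Module.End.mul_apply]
      by_cases hj : j = m
      · subst hj; rw [proj_same _ ha]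
      · rw [proj_ne _ ha hj, map_zero]
        change 0 = T W' ((LL D W' ^ c) a)
        rw [(supp W' hW').2.2 (j + 2 * c) (by omega) _ (pow_L_mem (LL_isHom hD W') ha c)]
    exact ⟨by rw [hG0.proj_comm, h2], h2⟩
  -- the powers of `G`
  have hGW : G W = proj (W.isInternal X) m := by
    apply gr_ext (W.isInternal X)
    intro j a ha
    by_cases hj : j = m
    · subst hj
      have h1 : (LL D W ^ c) a ∈ W.gr X (X.dim + c) := by
        have := pow_L_mem (LL_isHom hD W) ha c
        rwa [show j + 2 * c = X.dim + c by omega] at this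
      rw [proj_same _ ha]
      change A W (Θ W (B W ((LL D W ^ c) a))) = a
      rw [(supp W hW).2.1 _ h1, hΘW a ha, (supp W hW).1 a ha]
    · rw [proj_ne _ ha hj, ← (hGsupp W hW).2, Module.End.mul_apply, proj_ne _ ha hj, map_zero]
  have htr : ∀ W' : WeilCohomology.{u, v} ops,
      (∀ l < m, IsInv (W'.gr X) X.dim (LL D W') (X.dim - l) (F l W')) →
      ∀ k : ℕ, LinearMap.trace W'.K (W'.H X) (G W' ^ (k + 1)) = (W.betti X m : W'.K) := by
    intro W' hW' k
    obtain ⟨q, hq⟩ := str_indep (hGr.pow0 (k + 1))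
    have e1 := hq W
    have e2 := hq W'
    beta_reduce at e1 e2
    have hproj : ∀ r : ℕ, proj (W.isInternal X) m ^ (r + 1) = proj (W.isInternal X) m := by
      intro r
      induction r with
      | zero => simp
      | succ r ih => rw [pow_succ, ih, proj_mul_proj]
    rw [hGW, hproj k, str_supp W (proj_mul_proj _ m), trace_proj] at e1
    rw [str_supp W' (i := m) (by rw [pow_succ', ← mul_assoc, (hGsupp W' hW').1])] at e2
    have e3 : q = (-1) ^ m * (W.betti X m : ℚ) := by
      have : ((q : ℚ) : W.K) = (((-1) ^ m * (W.betti X m : ℚ) : ℚ) : W.K) := by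
        rw [← e1]; push_cast; rfl
      exact_mod_cast this
    rw [e3] at e2
    push_cast at e2
    have h4 : ((-1 : W'.K) ^ m) ≠ 0 := pow_ne_zero _ (by norm_num)
    exact mul_left_cancel₀ h4 e2
  -- the corrected inverse
  refine ⟨fun W' => (∑ k ∈ range (W.betti X m), (1 - G W') ^ k) * T W', ?_, ?_⟩
  · refine Realized.cast (Realized.mul (Realized.sum ?_) hTr) (zero_add _)
    intro k _
    exact ((Realized.one.sub hGr).pow0 k)
  · intro W' hW'
    have hGm : ∀ x, G W' x ∈ W'.gr X m := by
      intro x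
      rw [← (hGsupp W' hW').1, Module.End.mul_apply]
      exact proj_mem _ m _
    refine ⟨le_of_trace_pow hGm (htr W' hW'), fun hle => ?_⟩
    have heq : W'.betti X m = W.betti X m :=
      le_antisymm hle (le_of_trace_pow hGm (htr W' hW'))
    have hun := unipotent_of_trace_pow (W'.isInternal X) (hGsupp W' hW').1 (hGsupp W' hW').2
      (by intro k; rw [htr W' hW' k, ← heq]; rfl) (M := W.betti X m) hle
    constructor
    · intro a ha
      have ha' : a ∈ W'.gr X m := by rwa [show X.dim - (X.dim - m) = m by omega] at ha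
      have h1 := geom_inv (hun a ha')
      exact h1
    · intro j hj a ha
      rw [Module.End.mul_apply, (supp W' hW').2.2 j hj a ha, map_zero]

/-- **One system of cycles for all theories.** -/
theorem exists_system {D : X.Cycles} (hD : X.IsCyc 1 D) {d : ℕ} (hd : d ≤ X.dim)
    (W : WeilCohomology.{u, v} ops) (hW : ∀ i ≤ d, ∃ z, InvertsLefschetz W X D i z) :
    ∃ F : ℕ → ∀ W : WeilCohomology.{u, v} ops, Module.End W.K (W.H X),
      (∀ i ≤ d, Realized ops X (-((X.dim - i : ℕ) : ℤ)) (F i)) ∧
      ∀ W' : WeilCohomology.{u, v} ops, ∀ i ≤ d,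
        (∀ l < i, IsInv (W'.gr X) X.dim (LL D W') (X.dim - l) (F l W')) →
        W.betti X i ≤ W'.betti X i ∧
          (W'.betti X i ≤ W.betti X i →
            IsInv (W'.gr X) X.dim (LL D W') (X.dim - i) (F i W')) := by
  induction d with
  | zero =>
    obtain ⟨z, hz⟩ := hW 0 le_rfl
    rw [inverts_iff hD W (Nat.zero_le _)] at hz
    obtain ⟨Y, hY, hY'⟩ := step hD (m := 0) (Nat.zero_le _)
      (Θ := fun W => W.corr (W.cl _ z)) (Or.inl ⟨0, by simp, z, hz.1, fun _ => rfl⟩)
      (fun _ _ => 0) (by intro l hl; omega) W (by intro l hl; omega)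
      (by intro a ha; exact hz.2 a (by simpa using ha))
    refine ⟨fun _ => Y, ?_, ?_⟩
    · intro i hi
      obtain rfl : i = 0 := by omega
      exact hY
    · intro W' i hi _
      obtain rfl : i = 0 := by omega
      exact hY' W' (by intro l hl; omega)
  | succ d ih =>
    obtain ⟨F, hF, hF'⟩ := ih (by omega) (fun i hi => hW i (by omega))
    have hFW : ∀ i ≤ d, IsInv (W.gr X) X.dim (LL D W) (X.dim - i) (F i W) := by
      intro i
      induction i using Nat.strong_induction_on with
      | _ i ih2 =>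
        intro hi
        exact (hF' W i hi (fun l hl => ih2 l hl (by omega))).2 le_rfl
    obtain ⟨z, hz⟩ := hW (d + 1) le_rfl
    rw [inverts_iff hD W hd] at hz
    obtain ⟨Y, hY, hY'⟩ := step hD (m := d + 1) hd
      (Θ := fun W => W.corr (W.cl _ z)) (Or.inl ⟨d + 1, by omega, z, hz.1, fun _ => rfl⟩)
      F (by intro l hl; exact hF l (by omega)) W (by intro l hl; exact hFW l (by omega))
      (by
        intro a ha
        exact hz.2 a (by rwa [show X.dim - (X.dim - (d + 1)) = d + 1 by omega]))
    refine ⟨Function.update F (d + 1) Y, ?_, ?_⟩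
    · intro i hi
      by_cases h1 : i = d + 1
      · subst h1
        rw [Function.update_self]
        exact hY
      · rw [Function.update_of_ne h1]
        exact hF i (by omega)
    · intro W' i hi hl
      by_cases h1 : i = d + 1
      · subst h1
        rw [Function.update_self]
        refine hY' W' ?_
        intro l hl'
        have := hl l hl'
        rwa [Function.update_of_ne (by omega)] at this
      · rw [Function.update_of_ne h1]
        refine hF' W' i (by omega) ?_
        intro l hl'
        have := hl l hl'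
        rwa [Function.update_of_ne (by omega)] at this

lemma cyc_of_realized {i : ℕ} (hi : i ≤ X.dim)
    {Y : ∀ W : WeilCohomology.{u, v} ops, Module.End W.K (W.H X)}
    (hY : Realized ops X (-((X.dim - i : ℕ) : ℤ)) Y) :
    ∃ z, (X.prod X).IsCyc i z ∧ ∀ W, Y W = W.corr (W.cl _ z) := by
  obtain ⟨q, hq, z, hz, hY⟩ | ⟨hd, _⟩ := hY
  · obtain rfl : q = i := by omega
    exact ⟨z, hz, hY⟩
  · omega

/-- **One system of cycles for all theories with the same Betti numbers.** -/
theorem oneCycle {D : X.Cycles} (hD : X.IsCyc 1 D) {d : ℕ} (hd : d ≤ X.dim)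
    (W : WeilCohomology.{u, v} ops) (hW : ∀ i ≤ d, ∃ z, InvertsLefschetz W X D i z) :
    ∃ Λ : ℕ → (X.prod X).Cycles, ∀ W' : WeilCohomology.{u, v} ops, List.TFAE [
      ∀ i ≤ d, W'.betti X i = W.betti X i,
      ∀ i ≤ d, W'.betti X i ≤ W.betti X i,
      ∀ i ≤ d, InducesInverse W' X D i (Λ i),
      ∀ i ≤ d, ∃ z, InvertsLefschetz W' X D i z] := by
  obtain ⟨F, hF, hF'⟩ := exists_system hD hd W hW
  have hz : ∀ i, ∃ z, i ≤ d → (X.prod X).IsCyc i z ∧
      ∀ W' : WeilCohomology.{u, v} ops, F i W' = W'.corr (W'.cl _ z) := by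
    intro i
    by_cases hi : i ≤ d
    · obtain ⟨z, hz⟩ := cyc_of_realized (by omega) (hF i hi)
      exact ⟨z, fun _ => hz⟩
    · exact ⟨0, fun h => absurd h hi⟩
  choose Λ hΛ using hz
  refine ⟨Λ, fun W' => ?_⟩
  tfae_have 1 → 2 := fun h i hi => (h i hi).le
  tfae_have 2 → 3 := by
    intro h
    have key : ∀ i ≤ d, IsInv (W'.gr X) X.dim (LL D W') (X.dim - i) (F i W') := by
      intro i
      induction i using Nat.strong_induction_on with
      | _ i ih =>
        intro hi
        exact (hF' W' i hi (fun l hl => ih l hl (by omega))).2 (h i hi)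
    intro i hi
    constructor
    · rw [inverts_iff hD W' (by omega)]
      refine ⟨(hΛ i hi).1, ?_⟩
      rw [← (hΛ i hi).2 W']
      exact (key i hi).1
    · intro j hj a ha
      rw [cycOp, ← (hΛ i hi).2 W']
      exact (key i hi).2 j (by omega) a ha
  tfae_have 3 → 4 := fun h i hi => ⟨_, (h i hi).1⟩
  tfae_have 4 → 1 := by
    intro h
    obtain ⟨F₂, -, hF₂'⟩ := exists_system hD hd W' h
    have key : ∀ i ≤ d, IsInv (W'.gr X) X.dim (LL D W') (X.dim - i) (F i W') ∧
        IsInv (W.gr X) X.dim (LL D W) (X.dim - i) (F₂ i W) ∧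
        W'.betti X i = W.betti X i := by
      intro i
      induction i using Nat.strong_induction_on with
      | _ i ih =>
        intro hi
        have h1 := hF' W' i hi (fun l hl => (ih l hl (by omega)).1)
        have h2 := hF₂' W i hi (fun l hl => (ih l hl (by omega)).2.1)
        exact ⟨h1.2 h2.1, h2.2 h1.1, le_antisymm h2.1 h1.1⟩
    exact fun i hi => (key i hi).2.2
  tfae_finish

end Pool.Agent.W537
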