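import Pool.Agent.H39.L.W550_B_Main

/-!
# The conjecture B for direct sums of twists
-/

open CategoryTheory AlgebraicGeometry Finset TensorProduct

universe u v w

namespace Pool.Agent.W550.B

open Pool.Agent.H914 Pool.Agent.H914.VarClass Pool.Agent.H914.VarClass.Obj
  Pool.Agent.H914.WeilCohomology

section Lin

variable {K : Type*} [Field K] {V : Type*} [AddCommGroup V] [Module K V]

/-- Restriction of a polynomial in an operator to an invariant subspace. -/
lemma aeval_restrict {R : Module.End K V} {M : Submodule K V} (hM : ∀ a ∈ M, R a ∈ M)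
    (P : Polynomial K) (a : M) :
    (Polynomial.aeval R P) (a : V) = ((Polynomial.aeval (R.restrict hM) P) a : M) := by
  induction P using Polynomial.induction_on' with
  | add p q hp hq =>
    rw [map_add, map_add, LinearMap.add_apply, LinearMap.add_apply, hp, hq]
    rfl
  | monomial n c =>
    rw [Polynomial.aeval_monomial, Polynomial.aeval_monomial, ← Algebra.smul_def,
      ← Algebra.smul_def, LinearMap.smul_apply, LinearMap.smul_apply]
    have : ∀ n : ℕ, (R ^ n) (a : V) = (((R.restrict hM) ^ n) a : M) := by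
      intro n
      induction n with
      | zero => rfl
      | succ n ih =>
        rw [pow_succ', Module.End.mul_apply, ih, pow_succ', Module.End.mul_apply]
        rfl
    rw [this]
    rfl

/-- An operator which is injective on an invariant subspace has a polynomial inverse there. -/
lemma exists_poly_inv [Module.Finite K V] {R : Module.End K V} {M : Submodule K V}
    (hM : ∀ a ∈ M, R a ∈ M) (hinj : ∀ a ∈ M, R a = 0 → a = 0) :
    ∃ P : Polynomial K, ∀ a ∈ M, Polynomial.aeval R P (R a) = a ∧
      R (Polynomial.aeval R P a) = a := by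
  set R' := R.restrict hM with hR'
  have hker : LinearMap.ker R' = ⊥ := by
    rw [LinearMap.ker_eq_bot']
    intro a ha
    apply Subtype.ext
    exact hinj a a.2 (congrArg Subtype.val ha)
  have hdet : LinearMap.det R' ≠ 0 := by
    have h1 : IsUnit R' := (LinearMap.isUnit_iff_ker_eq_bot R').2 hker
    exact (h1.map LinearMap.det).ne_zero
  set c := R'.charpoly.coeff 0 with hc
  have hc0 : c ≠ 0 := by
    intro h0
    apply hdet
    rw [LinearMap.det_eq_sign_charpoly_coeff, ← hc, h0, mul_zero]
  have h1 : Polynomial.aeval R' R'.charpoly = 0 := LinearMap.aeval_self_charpoly R'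
  set P : Polynomial K := Polynomial.C (-c⁻¹) * R'.charpoly.divX with hP
  have hPX : P * Polynomial.X = 1 - Polynomial.C c⁻¹ * R'.charpoly := by
    have h2 := Polynomial.divX_mul_X_add R'.charpoly
    rw [← hc] at h2
    conv_rhs => rw [← h2]
    have h3 : (1 : Polynomial K) = Polynomial.C c⁻¹ * Polynomial.C c := by
      rw [← Polynomial.C_mul, inv_mul_cancel₀ hc0, Polynomial.C_1]
    rw [hP, h3, Polynomial.C_neg]
    ring
  have hL : Polynomial.aeval R' P * R' = 1 := by
    have h2 : Polynomial.aeval R' (P * Polynomial.X) = 1 := by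
      rw [hPX, map_sub, map_mul, h1, mul_zero, sub_zero, map_one]
    rwa [map_mul, Polynomial.aeval_X] at h2
  have hR : R' * Polynomial.aeval R' P = 1 := by
    have h2 : Polynomial.aeval R' (Polynomial.X * P) = 1 := by
      rw [mul_comm, hPX, map_sub, map_mul, h1, mul_zero, sub_zero, map_one]
    rwa [map_mul, Polynomial.aeval_X] at h2
  refine ⟨P, fun a ha => ⟨?_, ?_⟩⟩
  · have e1 := aeval_restrict hM P (R' ⟨a, ha⟩)
    have e2 := congrArg (fun F => ((F ⟨a, ha⟩ : M) : V)) hL
    exact e1.trans e2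
  · have e1 := aeval_restrict hM P ⟨a, ha⟩
    have e2 := congrArg (fun F => ((F ⟨a, ha⟩ : M) : V)) hR
    change R (Polynomial.aeval R P ((⟨a, ha⟩ : M) : V)) = a
    rw [e1]
    exact e2

end Lin

variable {k : Type u} [Field k] {𝒱 : VarClass k} {ops : CycleOps 𝒱}
  {W : WeilCohomology.{u, v} ops}

/-- There are algebraic correspondences, with coefficients, which are injective in the complementary
degrees. -/
def InjB (W : WeilCohomology.{u, v} ops) (X : 𝒱.Obj) : Prop :=
  ∀ c ≤ X.dim, ∃ ν ∈ KOp W X X (-c), ∀ a ∈ W.gr X (X.dim + c), ν a = 0 → a = 0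

lemma exists_low {X : 𝒱.Obj} {D : X.Cycles} (hD : X.IsCyc 1 D) (hHL : HardLefschetz W X D)
    {t : ℤ} (ht : X.dim ≤ t) : ∃ θ ∈ KOp W X X (t - X.dim),
      ∀ a ∈ grZ (W.gr X) (2 * X.dim - t), θ a = 0 → a = 0 := by
  by_cases h2 : t ≤ 2 * X.dim
  · obtain ⟨c, hc⟩ := Int.eq_ofNat_of_zero_le (show 0 ≤ t - X.dim by omega)
    refine ⟨(LinearMap.mulLeft W.K (W.cl X D)) ^ c, ?_, ?_⟩
    · rw [← mem_KS_iff]
      exact Submodule.subset_span (rop_opAlg.cast (rop_opAlg.pow (rop_mulLeft hD) c) (by omega))
    · intro a ha h0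
      have hi : 2 * (X.dim : ℤ) - t = ((X.dim - c : ℕ) : ℤ) := by omega
      rw [hi, grZ_natCast] at ha
      refine (hHL (X.dim - c) (by omega)).1 a ha ?_
      rwa [show X.dim - (X.dim - c) = c by omega]
  · refine ⟨0, Submodule.zero_mem _, fun a ha _ => ?_⟩
    rw [grZ_of_neg (by omega)] at ha
    exact (Submodule.mem_bot _).1 ha

lemma exists_high {X : 𝒱.Obj} (h : InjB W X) {t : ℤ} (ht : t ≤ X.dim) :
    ∃ θ ∈ KOp W X X (t - X.dim), ∀ a ∈ grZ (W.gr X) (2 * X.dim - t), θ a = 0 → a = 0 := by
  by_cases h2 : 0 ≤ t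
  · obtain ⟨c, hc⟩ := Int.eq_ofNat_of_zero_le (show 0 ≤ X.dim - t by omega)
    obtain ⟨ν, hν, hinj⟩ := h c (by omega)
    refine ⟨ν, KOp.cast hν (by omega), fun a ha h0 => hinj a ?_ h0⟩
    rwa [show 2 * (X.dim : ℤ) - t = ((X.dim + c : ℕ) : ℤ) by push_cast; omega,
      grZ_natCast] at ha
  · refine ⟨0, Submodule.zero_mem _, fun a ha _ => ?_⟩
    obtain ⟨c, hc⟩ := Int.eq_ofNat_of_zero_le (show 0 ≤ 2 * X.dim - t by omega)
    rw [hc, grZ_natCast, W.gr_eq_bot X c (by omega)] at ha
    exact (Submodule.mem_bot _).1 ha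

section Add

variable {r s : ℕ} {X : Fin r → 𝒱.Obj} {Y : Fin s → 𝒱.Obj}

lemma sum_single (b : ∀ j, W.H (X j)) :
    ∑ i, LinearMap.single W.K (fun j => W.H (X j)) i (b i) = b := by
  funext i
  rw [Finset.sum_apply, Finset.sum_eq_single i]
  · simp
  · intro l _ hl
    simp [Ne.symm hl]
  · intro hi
    exact absurd (Finset.mem_univ _) hi

lemma apply_eq_sum_entry (φ : Module.End W.K (∀ j, W.H (X j))) (b : ∀ j, W.H (X j))
    (l : Fin r) : φ b l = ∑ j, entry φ l j (b j) := by
  conv_lhs => rw [← sum_single b]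
  rw [map_sum, Finset.sum_apply]
  rfl

lemma sum_diagOp_apply (μ : ∀ j, Module.End W.K (W.H (X j))) (a : ∀ j, W.H (X j)) (j : Fin r) :
    (∑ j, diagOp j (μ j) : Module.End W.K (∀ j, W.H (X j))) a j = μ j (a j) := by
  rw [LinearMap.sum_apply, Finset.sum_apply, Finset.sum_eq_single j]
  · simp [diagOp]
  · intro l _ hl
    simp [diagOp, Ne.symm hl]
  · intro hj
    exact absurd (Finset.mem_univ _) hj

/-- **The main step.** If the dual of the part of weight `w` of a direct sum of twists embeds into
the part of weight `w`, and the summands embed into their duals, then the duals of the summands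
embed into the summands. -/
theorem step {m : Fin r → ℤ} {w : ℤ} {Ω : Module.End W.K (∀ j, W.H (X j))}
    (hΩ : ∀ l j, entry Ω l j ∈ KOp W (X j) (X l) (w - m j - m l - (X j).dim))
    (hinj : ∀ a : ∀ j, W.H (X j), (∀ j, a j ∈ grZ (W.gr (X j)) (2 * (X j).dim + 2 * m j - w)) →
      Ω a = 0 → a = 0)
    (hμ : ∀ j, ∃ μ ∈ KOp W (X j) (X j) ((X j).dim - w + 2 * m j),
      ∀ a ∈ grZ (W.gr (X j)) (w - 2 * m j), μ a = 0 → a = 0) (j : Fin r) :
    ∃ ν ∈ KOp W (X j) (X j) (w - 2 * m j - (X j).dim),
      ∀ a ∈ grZ (W.gr (X j)) (2 * (X j).dim + 2 * m j - w), ν a = 0 → a = 0 := by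
  classical
  choose μ hμ hμinj using hμ
  set μD : Module.End W.K (∀ j, W.H (X j)) := ∑ j, diagOp j (μ j) with hμD
  have hμDa : ∀ a j, μD a j = μ j (a j) := sum_diagOp_apply μ
  set R : Module.End W.K (∀ j, W.H (X j)) := Ω * μD with hR
  set M : Submodule W.K (∀ j, W.H (X j)) :=
    Submodule.pi Set.univ (fun j => grZ (W.gr (X j)) (w - 2 * m j)) with hM
  have hMmem : ∀ {a}, a ∈ M ↔ ∀ j, a j ∈ grZ (W.gr (X j)) (w - 2 * m j) := by
    intro a
    rw [hM, Submodule.mem_pi]
    simp
  have hΩM : ∀ a : ∀ j, W.H (X j),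
      (∀ j, a j ∈ grZ (W.gr (X j)) (2 * (X j).dim + 2 * m j - w)) → Ω a ∈ M := by
    intro a ha
    rw [hMmem]
    intro l
    rw [apply_eq_sum_entry]
    refine Submodule.sum_mem _ (fun i _ => ?_)
    have h1 := KOp.isHom (hΩ l i) _ _ (ha i)
    rwa [show 2 * ((X i).dim : ℤ) + 2 * m i - w + 2 * (w - m i - m l - (X i).dim) =
      w - 2 * m l by ring] at h1
  have hμM : ∀ a ∈ M, ∀ j, μD a j ∈ grZ (W.gr (X j)) (2 * (X j).dim + 2 * m j - w) := by
    intro a ha i
    rw [hμDa]
    have h1 := KOp.isHom (hμ i) _ _ (hMmem.1 ha i)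
    rwa [show w - 2 * m i + 2 * ((X i).dim - w + 2 * m i) =
      2 * ((X i).dim : ℤ) + 2 * m i - w by ring] at h1
  have hRM : ∀ a ∈ M, R a ∈ M := fun a ha => hΩM _ (hμM a ha)
  have hRinj : ∀ a ∈ M, R a = 0 → a = 0 := by
    intro a ha h0
    have h1 := hinj _ (hμM a ha) h0
    funext i
    refine hμinj i _ (hMmem.1 ha i) ?_
    rw [← hμDa, h1]
    rfl
  obtain ⟨P, hP⟩ := exists_poly_inv hRM hRinj
  have hRA : R ∈ mAlg W X (fun j => -m j) := by
    intro l i
    have e1 : entry R l i = entry Ω l i ∘ₗ μ i := by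
      apply LinearMap.ext
      intro a
      have h2 : μD (LinearMap.single W.K (fun j => W.H (X j)) i a) =
          LinearMap.single W.K (fun j => W.H (X j)) i (μ i a) := by
        funext i'
        rw [hμDa]
        by_cases h : i' = i
        · subst h
          simp
        · simp [h]
      change Ω (μD (LinearMap.single W.K (fun j => W.H (X j)) i a)) l =
        Ω (LinearMap.single W.K (fun j => W.H (X j)) i (μ i a)) l
      rw [h2]
    rw [e1]
    exact KOp.cast (KOp.comp (hΩ l i) (hμ i)) (by ring)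
  have hPA : Polynomial.aeval R P ∈ mAlg W X (fun j => -m j) := by
    have h1 : Polynomial.aeval R P ∈ Algebra.adjoin W.K {R} :=
      Polynomial.aeval_mem_adjoin_singleton W.K R
    exact Algebra.adjoin_le (Set.singleton_subset_iff.2 hRA) h1
  refine ⟨entry (Polynomial.aeval R P * Ω) j j, ?_, ?_⟩
  · rw [entry_mul]
    exact Submodule.sum_mem _ (fun i _ => KOp.cast (KOp.comp (hPA j i) (hΩ i j)) (by ring))
  · intro x hx h0
    set xx : ∀ j, W.H (X j) := LinearMap.single W.K (fun j => W.H (X j)) j x with hxx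
    have hxxm : ∀ i, xx i ∈ grZ (W.gr (X i)) (2 * (X i).dim + 2 * m i - w) := by
      intro i
      by_cases h : i = j
      · subst h
        simpa [hxx] using hx
      · rw [hxx]
        simp [h]
    have h1 := hΩM xx hxxm
    set y := Polynomial.aeval R P (Ω xx) with hy
    have hyM : y ∈ M := by
      rw [hy]
      have := aeval_restrict hRM P ⟨_, h1⟩
      change Polynomial.aeval R P ((⟨Ω xx, h1⟩ : M) : ∀ j, W.H (X j)) ∈ M
      rw [this]
      exact Subtype.mem _
    have h2 : R y = Ω xx := (hP _ h1).2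
    have h3 : μD y = xx := by
      rw [← sub_eq_zero]
      apply hinj
      · intro i
        exact Submodule.sub_mem _ (hμM y hyM i) (hxxm i)
      · rw [map_sub, sub_eq_zero]
        exact h2
    have h4 : y j = 0 := h0
    have h5 : xx j = 0 := by rw [← h3, hμDa, h4, map_zero]
    simpa [hxx] using h5

/-- The operator given by a matrix. -/
noncomputable def tot (G : ∀ (j : Fin r) (i : Fin s), W.H (Y i) →ₗ[W.K] W.H (X j)) :
    (∀ i, W.H (Y i)) →ₗ[W.K] (∀ j, W.H (X j)) :=
  LinearMap.pi fun j => ∑ i, G j i ∘ₗ LinearMap.proj i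

lemma tot_apply (G : ∀ (j : Fin r) (i : Fin s), W.H (Y i) →ₗ[W.K] W.H (X j))
    (a : ∀ i, W.H (Y i)) (j : Fin r) : tot G a j = ∑ i, G j i (a i) := by
  simp [tot]

/-- **Additivity.** If some matrix of algebraic correspondences, with coefficients, maps the direct
sum of the twists of the cohomology of the varieties `Y i` bijectively to the direct sum of the
twists of the cohomology of the varieties `X j`, then the conjecture B for all `Y i` implies the
conjecture B for all `X j`. -/
theorem additivity {m : Fin r → ℤ} {l : Fin s → ℤ}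
    {G : ∀ (j : Fin r) (i : Fin s), W.H (Y i) →ₗ[W.K] W.H (X j)}
    (hG : ∀ j i, G j i ∈ KOp W (Y i) (X j) (l i - m j)) (hbij : Function.Bijective (tot G))
    (hX : ∀ j, ∃ D, (X j).IsCyc 1 D ∧ HardLefschetz W (X j) D)
    (hY : ∀ i, ∃ D, (Y i).IsCyc 1 D ∧ HardLefschetz W (Y i) D)
    (hB : ∀ i, InjB W (Y i)) : ∀ j, InjB W (X j) := by
  classical
  obtain ⟨b, hb⟩ : ∃ b : ℤ, ∀ j, b ≤ (X j).dim + 2 * m j := by
    refine ⟨-∑ j, |((X j).dim : ℤ) + 2 * m j|, fun j => ?_⟩
    have h1 : |((X j).dim : ℤ) + 2 * m j| ≤ ∑ j, |((X j).dim : ℤ) + 2 * m j| :=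
      Finset.single_le_sum (f := fun j => |((X j).dim : ℤ) + 2 * m j|)
        (fun i _ => abs_nonneg _) (Finset.mem_univ j)
    have h2 := neg_abs_le (((X j).dim : ℤ) + 2 * m j)
    linarith
  -- the adjoint matrix
  choose Gt hGt hGt' using fun i j => KOp.exists_adjoint (hG j i)
  have main : ∀ N : ℕ, ∀ j, ((X j).dim + 2 * m j - b).toNat = N → InjB W (X j) := by
    intro N
    induction N using Nat.strong_induction_on with
    | _ N ih =>
      intro j hj c hc
      set w : ℤ := (X j).dim - c + 2 * m j with hw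
      have hθ : ∀ i, ∃ θ ∈ KOp W (Y i) (Y i) (w - 2 * l i - (Y i).dim),
          ∀ a ∈ grZ (W.gr (Y i)) (2 * (Y i).dim - (w - 2 * l i)), θ a = 0 → a = 0 := by
        intro i
        rcases le_total ((Y i).dim : ℤ) (w - 2 * l i) with h | h
        · obtain ⟨D, hD, hHL⟩ := hY i
          exact exists_low hD hHL h
        · exact exists_high (hB i) h
      choose θ hθ hθinj using hθ
      have hμ : ∀ i, ∃ μ ∈ KOp W (X i) (X i) ((X i).dim - w + 2 * m i),
          ∀ a ∈ grZ (W.gr (X i)) (w - 2 * m i), μ a = 0 → a = 0 := by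
        intro i
        have key : ∃ μ ∈ KOp W (X i) (X i) ((2 * (X i).dim - (w - 2 * m i)) - (X i).dim),
            ∀ a ∈ grZ (W.gr (X i)) (2 * (X i).dim - (2 * (X i).dim - (w - 2 * m i))),
              μ a = 0 → a = 0 := by
          rcases le_or_gt (w - 2 * m i) (X i).dim with h | h
          · obtain ⟨D, hD, hHL⟩ := hX i
            exact exists_low hD hHL (by omega)
          · have h1 : InjB W (X i) := by
              refine ih ((X i).dim + 2 * m i - b).toNat ?_ i rfl
              have h2 := hb i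
              have h3 := hb j
              omega
            exact exists_high h1 (by omega)
        obtain ⟨μ, hμ, hμ'⟩ := key
        refine ⟨μ, KOp.cast hμ (by ring), fun a ha => hμ' a ?_⟩
        rwa [show 2 * ((X i).dim : ℤ) - (2 * (X i).dim - (w - 2 * m i)) = w - 2 * m i by ring]
      -- the operator
      set GT : (∀ j, W.H (X j)) →ₗ[W.K] (∀ i, W.H (Y i)) := tot (fun i j => Gt i j) with hGT
      set Ω : Module.End W.K (∀ j, W.H (X j)) :=
        tot G ∘ₗ (∑ i, diagOp i (θ i)) ∘ₗ GT with hΩ
      have hΩe : ∀ j' j'', entry Ω j' j'' = ∑ i, G j' i ∘ₗ θ i ∘ₗ Gt i j'' := by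
        intro j' j''
        apply LinearMap.ext
        intro a
        change tot G ((∑ i, diagOp i (θ i) : Module.End W.K (∀ i, W.H (Y i)))
          (GT (LinearMap.single W.K (fun j => W.H (X j)) j'' a))) j' = _
        have e2 : (∑ i, G j' i ∘ₗ θ i ∘ₗ Gt i j'') a = ∑ i, G j' i (θ i (Gt i j'' a)) := by
          rw [LinearMap.sum_apply]
          rfl
        rw [tot_apply, e2]
        apply Finset.sum_congr rfl
        intro i _
        rw [sum_diagOp_apply, hGT, tot_apply, Finset.sum_eq_single j'']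
        · simp
        · intro l _ hl
          simp [hl]
        · intro hi
          exact absurd (Finset.mem_univ _) hi
      have hgr : ∀ a : ∀ j, W.H (X j),
          (∀ j, a j ∈ grZ (W.gr (X j)) (2 * (X j).dim + 2 * m j - w)) →
          ∀ i, GT a i ∈ grZ (W.gr (Y i)) (2 * (Y i).dim - (w - 2 * l i)) := by
        intro a ha i
        rw [hGT, tot_apply]
        refine Submodule.sum_mem _ (fun j' _ => ?_)
        have h1 := KOp.isHom (hGt i j') _ _ (ha j')
        rwa [show 2 * ((X j').dim : ℤ) + 2 * m j' - w +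
          2 * (l i - m j' + (Y i).dim - (X j').dim) = 2 * (Y i).dim - (w - 2 * l i) by ring] at h1
      have hGTinj : ∀ a, GT a = 0 → a = 0 := by
        intro a ha
        funext j'
        apply nondeg_right
        intro x
        obtain ⟨c', hc'⟩ := hbij.2 (LinearMap.single W.K (fun j => W.H (X j)) j' x)
        have h1 : ∑ j, W.tr (X j) (tot G c' j * a j) = 0 := by
          have h2 : ∀ j, W.tr (X j) (tot G c' j * a j) =
              ∑ i, W.tr (Y i) (c' i * Gt i j (a j)) := by
            intro j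
            rw [tot_apply, Finset.sum_mul, map_sum]
            exact Finset.sum_congr rfl (fun i _ => hGt' i j _ _)
          rw [Finset.sum_congr rfl (fun j _ => h2 j), Finset.sum_comm]
          apply Finset.sum_eq_zero
          intro i _
          rw [← map_sum, ← Finset.mul_sum]
          have h3 : ∑ j, Gt i j (a j) = 0 := by
            rw [← tot_apply (fun i j => Gt i j) a i, ← hGT, ha]
            rfl
          rw [h3, mul_zero, map_zero]
        rw [hc', Finset.sum_eq_single j'] at h1
        · simpa using h1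
        · intro i _ hi
          simp [hi]
        · intro hi
          exact absurd (Finset.mem_univ _) hi
      obtain ⟨ν, hν, hνinj⟩ := step (m := m) (w := w) (Ω := Ω) (by
        intro j' j''
        rw [hΩe]
        refine Submodule.sum_mem _ (fun i _ => ?_)
        exact KOp.cast (KOp.comp (hG j' i) (KOp.comp (hθ i) (hGt i j''))) (by ring)) (by
        intro a ha h0
        apply hGTinj
        have h1 : (∑ i, diagOp i (θ i) : Module.End W.K (∀ i, W.H (Y i))) (GT a) = 0 := by
          apply hbij.1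
          rw [map_zero]
          exact h0
        funext i
        apply hθinj i _ (hgr a ha i)
        rw [← sum_diagOp_apply θ (GT a) i, h1]
        rfl) hμ j
      refine ⟨ν, KOp.cast hν (by rw [hw]; ring), fun a ha => hνinj a ?_⟩
      rwa [show 2 * ((X j).dim : ℤ) + 2 * m j - w = (((X j).dim + c : ℕ) : ℤ) by
        rw [hw]; push_cast; ring, grZ_natCast]
  exact fun j => main _ j rfl

end Add

end Pool.Agent.W550.B
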