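import Pool.Agent.H89.L.H914R2_KDefs

/-!
# Bijective matrices of algebraic correspondences: definitions
-/

open CategoryTheory AlgebraicGeometry

universe u v

namespace Pool.Agent.W550.B

open Pool.Agent.H914 Pool.Agent.H914.VarClass Pool.Agent.H914.VarClass.Obj
  Pool.Agent.H914.WeilCohomology

variable {k : Type u} [Field k] {𝒱 : VarClass k} {ops : CycleOps 𝒱}

/-- The `(s, t)` entry of the matrix `F` is a linear combination, with coefficients in the
coefficient field of the cohomology, of classes of cycles of codimension `dim (X s) + a s - b t`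
on `X s × Y t`; so the matrix preserves the weights, as a map from the direct sum of the
cohomology groups `H(X s)(-a s)` to the direct sum of the groups `H(Y t)(-b t)`. -/
def IsAlgMatrix (W : WeilCohomology.{u, v} ops) {m r : ℕ} {X : Fin m → 𝒱.Obj} (a : Fin m → ℤ)
    {Y : Fin r → 𝒱.Obj} (b : Fin r → ℤ) (F : ∀ s t, W.H ((X s).prod (Y t))) : Prop :=
  ∀ s t, F s t ∈ spanCycles W ((X s).prod (Y t)) ((X s).dim + a s - b t)

/-- There is a matrix of `K`-linear combinations of algebraic correspondences which maps the direct
sum of the cohomology groups `H(X s)(-a s)` bijectively to the direct sum of the groups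
`H(Y t)(-b t)` and preserves the weights. -/
def MapsBijectively (W : WeilCohomology.{u, v} ops) {m r : ℕ} (X : Fin m → 𝒱.Obj)
    (a : Fin m → ℤ) (Y : Fin r → 𝒱.Obj) (b : Fin r → ℤ) : Prop :=
  ∃ F : ∀ s t, W.H ((X s).prod (Y t)), IsAlgMatrix W a b F ∧
    Function.Bijective (matrixOp W F)

/-- The cycle `D` on `X` is a divisor which satisfies hard Lefschetz. -/
def IsLefschetzDivisor (W : WeilCohomology.{u, v} ops) (X : 𝒱.Obj) (D : X.Cycles) : Prop :=
  X.IsCyc 1 D ∧ HardLefschetz W X D

end Pool.Agent.W550.B
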