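import Pool.Agent.H89.L.H914R2_Core0

/-!
# Idempotents in algebras containing all operators on the blocks of a decomposition
-/

open Finset

namespace Pool.Agent.W550.B

open Pool.Agent.H914

variable {K : Type*} [Field K] {V : Type*} [AddCommGroup V] [Module K V]

/-- Idempotent operators with the same trace are equivalent. -/
lemma exists_equiv_idem [CharZero K] [Module.Finite K V] {P Q : Module.End K V}
    (hP : P * P = P) (hQ : Q * Q = Q) (h : LinearMap.trace K V P = LinearMap.trace K V Q) :
    ∃ X Y : Module.End K V, Q * Y * P * X * Q = Q := by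
  have hP' : LinearMap.IsProj (LinearMap.range P) P :=
    LinearMap.isProj_range_iff_isIdempotentElem P |>.2 hP
  have hQ' : LinearMap.IsProj (LinearMap.range Q) Q :=
    LinearMap.isProj_range_iff_isIdempotentElem Q |>.2 hQ
  have h1 : (Module.finrank K (LinearMap.range P) : K) = Module.finrank K (LinearMap.range Q) := by
    rw [← hP'.trace, ← hQ'.trace, h]
  have h2 : Module.finrank K (LinearMap.range Q) = Module.finrank K (LinearMap.range P) := by
    exact_mod_cast h1.symm
  set f := LinearEquiv.ofFinrankEq (LinearMap.range Q) (LinearMap.range P) h2 with hf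
  refine ⟨(LinearMap.range P).subtype ∘ₗ f.toLinearMap ∘ₗ Q.rangeRestrict,
    (LinearMap.range Q).subtype ∘ₗ f.symm.toLinearMap ∘ₗ P.rangeRestrict, ?_⟩
  apply LinearMap.ext
  intro v
  have hQQ : ∀ v, Q (Q v) = Q v := fun v => by rw [← Module.End.mul_apply, hQ]
  have e1 : Q.rangeRestrict (Q v) = Q.rangeRestrict v := Subtype.ext (hQQ v)
  have e2 : ∀ w : LinearMap.range P, P (w : V) = w := fun w => hP'.map_id _ w.2
  have e3 : ∀ w : LinearMap.range Q, Q (w : V) = w := fun w => hQ'.map_id _ w.2
  have e4 : ∀ w : LinearMap.range P, P.rangeRestrict (w : V) = w := fun w => Subtype.ext (e2 w)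
  simp only [Module.End.mul_apply, LinearMap.comp_apply, LinearEquiv.coe_coe,
    Submodule.subtype_apply, e1, e2, e4, LinearEquiv.symm_apply_apply, e3]
  rfl

/-- Any vector can be mapped to any other vector, if it is not zero. -/
lemma exists_end {x : V} (hx : x ≠ 0) (y : V) : ∃ A : Module.End K V, A x = y := by
  obtain ⟨f, hf⟩ := Module.Projective.exists_dual_eq_one K hx
  exact ⟨f.smulRight y, by rw [LinearMap.smulRight_apply, hf, one_smul]⟩

/-- The data: a decomposition of the identity into orthogonal idempotents, and an algebra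
containing all operators on the blocks. -/
structure IsBlk (A : Subalgebra K (Module.End K V)) {ι : Type*} [Fintype ι]
    (e : ι → Module.End K V) : Prop where
  sum : ∑ i, e i = 1
  orth : ∀ i j, i ≠ j → e i * e j = 0
  idem : ∀ i, e i * e i = e i
  full : ∀ i (φ : Module.End K V), e i * φ * e i ∈ A

namespace IsBlk

variable {A : Subalgebra K (Module.End K V)} {ι : Type*} [Fintype ι] {e : ι → Module.End K V}

lemma mem (h : IsBlk A e) (i : ι) : e i ∈ A := by
  have := h.full i 1
  rwa [mul_one, h.idem] at this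

/-- There is a nonzero operator in the algebra from the block `a` to the block `b`. -/
def Rel (A : Subalgebra K (Module.End K V)) (e : ι → Module.End K V) (a b : ι) : Prop :=
  ∃ x ∈ A, e b * x * e a ≠ 0

/-- All operators from the block `a` to the block `b` are in the algebra. -/
lemma hom_mem [Module.Finite K V] (h : IsBlk A e) {a b : ι} (hab : Rel A e a b)
    (φ : Module.End K V) : e b * φ * e a ∈ A := by
  classical
  obtain ⟨x, hx, hne⟩ := hab
  obtain ⟨v, hv⟩ : ∃ v, (e b * x * e a) v ≠ 0 := by
    by_contra h0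
    push Not at h0
    exact hne (LinearMap.ext h0)
  set B := Module.finBasis K V with hB
  set ψ := e b * φ * e a with hψ
  have key : ψ = ∑ j, ((B.coord j ∘ₗ e a).smulRight (ψ (B j))) := by
    apply LinearMap.ext
    intro w
    have h1 : ψ w = ψ (e a w) := by
      rw [hψ]
      simp only [Module.End.mul_apply]
      rw [← Module.End.mul_apply (e a) (e a), h.idem]
    rw [h1]
    conv_lhs => rw [← B.sum_repr (e a w)]
    rw [map_sum, LinearMap.sum_apply]
    apply Finset.sum_congr rfl
    intro j _
    rw [map_smul, LinearMap.smulRight_apply]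
    rfl
  rw [key]
  refine Subalgebra.sum_mem _ (fun j _ => ?_)
  obtain ⟨C, hC⟩ := exists_end (K := K) hv (ψ (B j))
  have h2 : (B.coord j ∘ₗ e a).smulRight (ψ (B j)) =
      (e b * C * e b) * x * (e a * (B.coord j).smulRight v * e a) := by
    apply LinearMap.ext
    intro w
    simp only [Module.End.mul_apply, LinearMap.smulRight_apply, LinearMap.comp_apply, map_smul]
    have h3 : e b (x (e a v)) = (e b * x * e a) v := rfl
    have h4 : e b (ψ (B j)) = ψ (B j) := by
      rw [hψ]
      simp only [Module.End.mul_apply]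
      rw [← Module.End.mul_apply (e b) (e b), h.idem]
    rw [h3, hC, h4]
  rw [h2]
  exact A.mul_mem (A.mul_mem (h.full b C) hx) (h.full a _)

lemma rel_trans [Module.Finite K V] (h : IsBlk A e) {a b c : ι} (hab : Rel A e a b)
    (hbc : Rel A e b c) : Rel A e a c := by
  obtain ⟨x, hx, hne⟩ := id hab
  obtain ⟨y, hy, hne'⟩ := id hbc
  obtain ⟨v, hv⟩ : ∃ v, (e b * x * e a) v ≠ 0 := by
    by_contra h0
    push Not at h0
    exact hne (LinearMap.ext h0)
  obtain ⟨w, hw⟩ : ∃ w, (e c * y * e b) w ≠ 0 := by
    by_contra h0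
    push Not at h0
    exact hne' (LinearMap.ext h0)
  obtain ⟨C, hC⟩ := exists_end (K := K) hv w
  refine ⟨y * (e b * C * e b) * x, A.mul_mem (A.mul_mem hy (h.full b C)) hx, fun h0 => hw ?_⟩
  have h1 := congrArg (fun F => F v) h0
  simp only [Module.End.mul_apply, LinearMap.zero_apply] at h1
  have h3 : e b (x (e a v)) = (e b * x * e a) v := rfl
  rw [h3, hC] at h1
  exact h1

/-- Two blocks are equivalent if they are equal or if there are nonzero operators between them
in both directions. -/
def Eqv (A : Subalgebra K (Module.End K V)) (e : ι → Module.End K V) (a b : ι) : Prop :=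
  a = b ∨ (Rel A e a b ∧ Rel A e b a)

omit [Fintype ι] in
lemma eqv_refl (a : ι) : Eqv A e a a := Or.inl rfl

omit [Fintype ι] in
lemma eqv_symm {a b : ι} (h : Eqv A e a b) : Eqv A e b a := by
  rcases h with h | h
  · exact Or.inl h.symm
  · exact Or.inr ⟨h.2, h.1⟩

lemma eqv_trans [Module.Finite K V] (h : IsBlk A e) {a b c : ι} (h1 : Eqv A e a b)
    (h2 : Eqv A e b c) : Eqv A e a c := by
  rcases h1 with rfl | h1
  · exact h2
  · rcases h2 with rfl | h2
    · exact Or.inr h1
    · exact Or.inr ⟨h.rel_trans h1.1 h2.1, h.rel_trans h2.2 h1.2⟩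

open Classical in
/-- The projector onto the sum of the blocks equivalent to `a`. -/
noncomputable def Zp (A : Subalgebra K (Module.End K V)) (e : ι → Module.End K V) (a : ι) :
    Module.End K V := ∑ b ∈ univ.filter (Eqv A e a), e b

lemma Zp_congr [Module.Finite K V] (h : IsBlk A e) {a b : ι} (hab : Eqv A e a b) :
    Zp A e a = Zp A e b := by
  classical
  rw [Zp, Zp]
  apply Finset.sum_congr _ (fun _ _ => rfl)
  ext c
  simp only [Finset.mem_filter, Finset.mem_univ, true_and]
  exact ⟨fun hc => h.eqv_trans (eqv_symm hab) hc, fun hc => h.eqv_trans hab hc⟩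

lemma Zp_mem (h : IsBlk A e) (a : ι) : Zp A e a ∈ A :=
  Subalgebra.sum_mem _ (fun b _ => h.mem b)

lemma Zp_mul_same (h : IsBlk A e) {a b : ι} (hab : Eqv A e a b) : Zp A e a * e b = e b := by
  classical
  rw [Zp, Finset.sum_mul, Finset.sum_eq_single b, h.idem]
  · intro c _ hc; exact h.orth c b hc
  · intro hb; exact absurd (Finset.mem_filter.2 ⟨Finset.mem_univ _, hab⟩) hb

lemma Zp_mul_ne (h : IsBlk A e) {a b : ι} (hab : ¬ Eqv A e a b) : Zp A e a * e b = 0 := by
  classical
  rw [Zp, Finset.sum_mul]
  apply Finset.sum_eq_zero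
  intro c hc
  apply h.orth
  rintro rfl
  exact hab (Finset.mem_filter.1 hc).2

lemma mul_Zp_same (h : IsBlk A e) {a b : ι} (hab : Eqv A e a b) : e b * Zp A e a = e b := by
  classical
  rw [Zp, Finset.mul_sum, Finset.sum_eq_single b, h.idem]
  · intro c _ hc; exact h.orth b c (Ne.symm hc)
  · intro hb; exact absurd (Finset.mem_filter.2 ⟨Finset.mem_univ _, hab⟩) hb

lemma mul_Zp_ne (h : IsBlk A e) {a b : ι} (hab : ¬ Eqv A e a b) : e b * Zp A e a = 0 := by
  classical
  rw [Zp, Finset.mul_sum]
  apply Finset.sum_eq_zero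
  intro c hc
  apply h.orth
  rintro rfl
  exact hab (Finset.mem_filter.1 hc).2

lemma Zp_idem (h : IsBlk A e) (a : ι) : Zp A e a * Zp A e a = Zp A e a := by
  classical
  conv_lhs => rw [Zp, Finset.sum_mul]
  rw [Zp]
  apply Finset.sum_congr rfl
  intro b hb
  exact h.mul_Zp_same (Finset.mem_filter.1 hb).2

/-- The block of an operator. -/
noncomputable def bl (A : Subalgebra K (Module.End K V)) (e : ι → Module.End K V) (a : ι)
    (x : Module.End K V) : Module.End K V := Zp A e a * x * Zp A e a

/-- The blocks of the product of two elements of the algebra. -/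
lemma bl_mul [Module.Finite K V] (h : IsBlk A e) (a : ι) {x y : Module.End K V} (hx : x ∈ A)
    (hy : y ∈ A) : bl A e a (x * y) = bl A e a x * bl A e a y := by
  classical
  have h1 : ∀ b, ¬ Eqv A e a b → Zp A e a * x * e b * y * Zp A e a = 0 := by
    intro b hb
    by_contra hne
    have h2 : ∃ c, Eqv A e a c ∧ e c * x * e b ≠ 0 := by
      by_contra hcon
      push Not at hcon
      apply hne
      have h3 : Zp A e a * x * e b = 0 := by
        rw [Zp, Finset.sum_mul, Finset.sum_mul]
        exact Finset.sum_eq_zero (fun c hc => hcon c (Finset.mem_filter.1 hc).2)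
      rw [h3, zero_mul, zero_mul]
    have h3 : ∃ c, Eqv A e a c ∧ e b * y * e c ≠ 0 := by
      by_contra hcon
      push Not at hcon
      apply hne
      have h3 : e b * y * Zp A e a = 0 := by
        rw [Zp, Finset.mul_sum]
        exact Finset.sum_eq_zero (fun c hc => hcon c (Finset.mem_filter.1 hc).2)
      have h4 : Zp A e a * x * e b * y * Zp A e a =
          Zp A e a * x * (e b * (e b * y * Zp A e a)) := by
        have : e b * (e b * y * Zp A e a) = e b * y * Zp A e a := by
          rw [mul_assoc (e b) y, ← mul_assoc (e b) (e b), h.idem]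
        rw [this]
        simp only [mul_assoc]
      rw [h4, h3, mul_zero, mul_zero]
    obtain ⟨c, hc, hcx⟩ := h2
    obtain ⟨d, hd, hdy⟩ := h3
    have r1 : Rel A e b c := ⟨x, hx, hcx⟩
    have r2 : Rel A e d b := ⟨y, hy, hdy⟩
    have hcd : Eqv A e c d := h.eqv_trans (eqv_symm hc) hd
    apply hb
    rcases hcd with rfl | hcd
    · exact h.eqv_trans hc (Or.inr ⟨r2, r1⟩)
    · exact h.eqv_trans hc (Or.inr ⟨h.rel_trans hcd.1 r2, r1⟩)
  have h2 : Zp A e a * x * y * Zp A e a = ∑ b, Zp A e a * x * e b * y * Zp A e a := by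
    rw [← Finset.sum_mul, ← Finset.sum_mul, ← Finset.mul_sum, h.sum, mul_one]
  have h3 : Zp A e a * x * Zp A e a * y * Zp A e a =
      ∑ b, Zp A e a * x * (Zp A e a * e b) * y * Zp A e a := by
    rw [← Finset.sum_mul, ← Finset.sum_mul, ← Finset.mul_sum, ← Finset.mul_sum, h.sum, mul_one]
  have h4 : Zp A e a * x * y * Zp A e a = Zp A e a * x * Zp A e a * y * Zp A e a := by
    rw [h2, h3]
    apply Finset.sum_congr rfl
    intro b _
    by_cases hb : Eqv A e a b
    · rw [h.Zp_mul_same hb]
    · rw [h1 b hb, h.Zp_mul_ne hb, mul_zero, zero_mul, zero_mul]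
  calc bl A e a (x * y) = Zp A e a * x * y * Zp A e a := by rw [bl]; simp only [mul_assoc]
    _ = Zp A e a * x * Zp A e a * y * Zp A e a := h4
    _ = Zp A e a * x * (Zp A e a * Zp A e a) * y * Zp A e a := by rw [h.Zp_idem]
    _ = bl A e a x * bl A e a y := by rw [bl, bl]; simp only [mul_assoc]

lemma bl_sub (a : ι) (x y : Module.End K V) : bl A e a (x - y) = bl A e a x - bl A e a y := by
  rw [bl, bl, bl, mul_sub, sub_mul]

/-- The trace is the sum of the traces of the diagonal blocks. -/
lemma trace_eq_zero [Module.Finite K V] (h : IsBlk A e) {x : Module.End K V}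
    (hx : ∀ a, bl A e a x = 0) : LinearMap.trace K V x = 0 := by
  classical
  have h1 : x = ∑ a, x * e a := by rw [← Finset.mul_sum, h.sum, mul_one]
  rw [h1, map_sum]
  apply Finset.sum_eq_zero
  intro a _
  have h2 : e a * x * e a = 0 := by
    have h3 : e a * x * e a = e a * bl A e a x * e a := by
      rw [bl]
      have e1 : e a * (Zp A e a * x * Zp A e a) * e a =
          (e a * Zp A e a) * x * (Zp A e a * e a) := by simp only [mul_assoc]
      rw [e1, h.mul_Zp_same (eqv_refl a), h.Zp_mul_same (eqv_refl a)]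
    rw [h3, hx, mul_zero, zero_mul]
  calc LinearMap.trace K V (x * e a) = LinearMap.trace K V (x * e a * e a) := by
        rw [mul_assoc, h.idem]
    _ = LinearMap.trace K V (e a * (x * e a)) := LinearMap.trace_mul_comm K _ _
    _ = 0 := by rw [← mul_assoc, h2, map_zero]

/-- An element of the algebra all of whose diagonal blocks vanish is nilpotent. -/
lemma isNilpotent [CharZero K] [Module.Finite K V] (h : IsBlk A e) {x : Module.End K V}
    (hxA : x ∈ A) (hx : ∀ a, bl A e a x = 0) : IsNilpotent x := by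
  apply isNilpotent_of_trace_pow
  intro r
  apply h.trace_eq_zero
  intro a
  rw [pow_succ, h.bl_mul a (A.pow_mem hxA r) hxA, hx, mul_zero]

/-- **Equivalent idempotents.** Let `p` and `q` be idempotents of the algebra whose classes of
diagonal blocks have the same traces. Then some element `x` of the algebra is such that `p x` is
injective on the image of `q`. -/
theorem exists_inj [CharZero K] [Module.Finite K V] (h : IsBlk A e) {p q : Module.End K V}
    (hpA : p ∈ A) (hqA : q ∈ A) (hp : p * p = p) (hq : q * q = q)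
    (htr : ∀ a, LinearMap.trace K V (Zp A e a * p) = LinearMap.trace K V (Zp A e a * q)) :
    ∃ x ∈ A, ∀ v, q v = v → p (x v) = 0 → v = 0 := by
  classical
  have hex : ∀ Z : Module.End K V, ∃ X Y : Module.End K V,
      (Z * p * Z) * (Z * p * Z) = Z * p * Z → (Z * q * Z) * (Z * q * Z) = Z * q * Z →
      LinearMap.trace K V (Z * p * Z) = LinearMap.trace K V (Z * q * Z) →
      (Z * q * Z) * Y * (Z * p * Z) * X * (Z * q * Z) = Z * q * Z := by
    intro Z
    by_cases hc : (Z * p * Z) * (Z * p * Z) = Z * p * Z ∧ (Z * q * Z) * (Z * q * Z) = Z * q * Z ∧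
      LinearMap.trace K V (Z * p * Z) = LinearMap.trace K V (Z * q * Z)
    · obtain ⟨X, Y, hXY⟩ := exists_equiv_idem hc.1 hc.2.1 hc.2.2
      exact ⟨X, Y, fun _ _ _ => hXY⟩
    · refine ⟨0, 0, fun h1 h2 h3 => absurd ⟨h1, h2, h3⟩ hc⟩
  choose X Y hXY using hex
  -- the elements of the algebra
  have hmemZ : ∀ (F : Module.End K V → Module.End K V),
      ∑ a, Zp A e a * F (Zp A e a) * e a ∈ A := by
    intro F
    refine Subalgebra.sum_mem _ (fun a _ => ?_)
    rw [Zp, Finset.sum_mul, Finset.sum_mul]
    refine Subalgebra.sum_mem _ (fun b hb => ?_)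
    rcases (Finset.mem_filter.1 hb).2 with rfl | hab
    · exact h.full _ _
    · exact h.hom_mem hab.1 _
  have hblF : ∀ (F : Module.End K V → Module.End K V) (a : ι),
      bl A e a (∑ b, Zp A e b * F (Zp A e b) * e b) = Zp A e a * F (Zp A e a) * Zp A e a := by
    intro F a
    rw [bl, Finset.mul_sum, Finset.sum_mul]
    have h1 : ∀ b, Zp A e a * (Zp A e b * F (Zp A e b) * e b) * Zp A e a =
        Zp A e a * F (Zp A e a) * (e b * Zp A e a) := by
      intro b
      by_cases hb : Eqv A e a b
      · rw [← h.Zp_congr hb]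
        have e1 : Zp A e a * (Zp A e a * F (Zp A e a) * e b) * Zp A e a =
            (Zp A e a * Zp A e a) * F (Zp A e a) * (e b * Zp A e a) := by simp only [mul_assoc]
        rw [e1, h.Zp_idem]
      · rw [mul_assoc (Zp A e a) _ (Zp A e a), mul_assoc _ (e b), h.mul_Zp_ne hb, mul_zero,
          mul_zero, mul_zero]
    rw [Finset.sum_congr rfl (fun b _ => h1 b), ← Finset.mul_sum, ← Finset.sum_mul, h.sum, one_mul]
  set x := ∑ a, Zp A e a * X (Zp A e a) * e a with hx
  set y := ∑ a, Zp A e a * Y (Zp A e a) * e a with hy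
  have hxA : x ∈ A := hmemZ X
  have hyA : y ∈ A := hmemZ Y
  set w := q * y * p * x * q - q with hw
  have hwA : w ∈ A :=
    A.sub_mem (A.mul_mem (A.mul_mem (A.mul_mem (A.mul_mem hqA hyA) hpA) hxA) hqA) hqA
  have hbl : ∀ a, bl A e a w = 0 := by
    intro a
    rw [hw, bl_sub, h.bl_mul a (A.mul_mem (A.mul_mem (A.mul_mem hqA hyA) hpA) hxA) hqA,
      h.bl_mul a (A.mul_mem (A.mul_mem hqA hyA) hpA) hxA, h.bl_mul a (A.mul_mem hqA hyA) hpA,
      h.bl_mul a hqA hyA, hx, hy, hblF X a, hblF Y a]
    have hpi : bl A e a p * bl A e a p = bl A e a p := by rw [← h.bl_mul a hpA hpA, hp]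
    have hqi : bl A e a q * bl A e a q = bl A e a q := by rw [← h.bl_mul a hqA hqA, hq]
    have htr' : LinearMap.trace K V (bl A e a p) = LinearMap.trace K V (bl A e a q) := by
      have h1 : ∀ z : Module.End K V, LinearMap.trace K V (bl A e a z) =
          LinearMap.trace K V (Zp A e a * z) := by
        intro z
        rw [bl, LinearMap.trace_mul_comm, ← mul_assoc, h.Zp_idem]
      rw [h1, h1, htr]
    have h1 := hXY (Zp A e a) hpi hqi htr'
    have hqz : bl A e a q * Zp A e a = bl A e a q := by
      rw [bl, mul_assoc, h.Zp_idem]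
    have hzq : Zp A e a * bl A e a q = bl A e a q := by
      rw [bl, ← mul_assoc, ← mul_assoc, h.Zp_idem]
    have hpz : bl A e a p * Zp A e a = bl A e a p := by
      rw [bl, mul_assoc, h.Zp_idem]
    have hzp : Zp A e a * bl A e a p = bl A e a p := by
      rw [bl, ← mul_assoc, ← mul_assoc, h.Zp_idem]
    have e1 : bl A e a q * (Zp A e a * Y (Zp A e a) * Zp A e a) * bl A e a p *
        (Zp A e a * X (Zp A e a) * Zp A e a) * bl A e a q =
        (bl A e a q * Zp A e a) * Y (Zp A e a) * (Zp A e a * bl A e a p * Zp A e a) *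
          X (Zp A e a) * (Zp A e a * bl A e a q) := by simp only [mul_assoc]
    rw [e1, hqz, hzp, hpz, hzq, sub_eq_zero]
    exact h1
  obtain ⟨N, hN⟩ := h.isNilpotent hwA hbl
  refine ⟨x, hxA, fun v hv h0 => ?_⟩
  have hwv : w v = -v := by
    rw [hw, LinearMap.sub_apply, hv]
    simp only [Module.End.mul_apply]
    rw [hv, h0, map_zero, map_zero, zero_sub]
  have hpow : ∀ m : ℕ, (w ^ m) v = (-1 : K) ^ m • v := by
    intro m
    induction m with
    | zero => simp
    | succ m ih => rw [pow_succ', Module.End.mul_apply, ih, map_smul, hwv, pow_succ, mul_smul,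
        neg_one_smul]
  have h1 := hpow N
  rw [hN, LinearMap.zero_apply] at h1
  rcases smul_eq_zero.1 h1.symm with h2 | h2
  · exact absurd h2 (pow_ne_zero _ (by norm_num))
  · exact h2

end IsBlk

end Pool.Agent.W550.B
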