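import Pool.Agent.H39.L.W550_B_Alg
import Pool.Agent.H89.L.H914R2_Blocks
import Pool.Agent.H89.L.H447R3_WtB

/-!
# Frames: decompositions of the cohomology into blocks, compatible with an automorphism of the
coefficient field and with Poincare duality
-/

open CategoryTheory AlgebraicGeometry Finset TensorProduct

universe u v w

namespace Pool.Agent.W550.B

open Pool.Agent.H914 Pool.Agent.H914.VarClass Pool.Agent.H914.VarClass.Obj
  Pool.Agent.H914.WeilCohomology

variable {k : Type u} [Field k] {𝒱 : VarClass k} {ops : CycleOps 𝒱}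
  {W : WeilCohomology.{u, v} ops} {X Y Z : 𝒱.Obj}

/-- Pairs of `K`-linear combinations of rational algebraic correspondences of degree zero, with the
same correspondences, and coefficients related by the endomorphism `τ` of `K`. -/
def TRel (W : WeilCohomology.{u, v} ops) (τ : W.K →+* W.K) (X : 𝒱.Obj)
    (φ ψ : Module.End W.K (W.H X)) : Prop :=
  (φ, ψ) ∈ AddSubmonoid.closure {x : Module.End W.K (W.H X) × Module.End W.K (W.H X) |
    ∃ (c : W.K) (y : Module.End W.K (W.H X)), ROp W X 0 y ∧ x = (c • y, τ c • y)}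

namespace TRel

variable {τ : W.K →+* W.K} {φ ψ φ' ψ' : Module.End W.K (W.H X)}

lemma of (c : W.K) {y : Module.End W.K (W.H X)} (hy : ROp W X 0 y) :
    TRel W τ X (c • y) (τ c • y) := AddSubmonoid.subset_closure ⟨c, y, hy, rfl⟩

lemma rat {y : Module.End W.K (W.H X)} (hy : ROp W X 0 y) : TRel W τ X y y := by
  have := of (τ := τ) 1 hy
  rwa [map_one, one_smul] at this

lemma add (h : TRel W τ X φ ψ) (h' : TRel W τ X φ' ψ') : TRel W τ X (φ + φ') (ψ + ψ') :=
  AddSubmonoid.add_mem _ h h'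

lemma zero : TRel W τ X 0 0 := AddSubmonoid.zero_mem _

/-- Induction. -/
lemma induction {p : Module.End W.K (W.H X) → Module.End W.K (W.H X) → Prop}
    (h0 : p 0 0) (hadd : ∀ a b c d, p a b → p c d → p (a + c) (b + d))
    (hgen : ∀ (c : W.K) y, ROp W X 0 y → p (c • y) (τ c • y)) (h : TRel W τ X φ ψ) : p φ ψ := by
  have key : ∀ x ∈ AddSubmonoid.closure {x : Module.End W.K (W.H X) × Module.End W.K (W.H X) |
      ∃ (c : W.K) (y : Module.End W.K (W.H X)), ROp W X 0 y ∧ x = (c • y, τ c • y)},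
      p x.1 x.2 := by
    intro x hx
    induction hx using AddSubmonoid.closure_induction with
    | mem x hx =>
      obtain ⟨c, y, hy, rfl⟩ := hx
      exact hgen c y hy
    | zero => exact h0
    | add x y _ _ hx hy => exact hadd _ _ _ _ hx hy
  exact key _ h

lemma smul (c : W.K) (h : TRel W τ X φ ψ) : TRel W τ X (c • φ) (τ c • ψ) := by
  refine induction (p := fun φ ψ => TRel W τ X (c • φ) (τ c • ψ)) ?_ ?_ ?_ h
  · rw [smul_zero, smul_zero]; exact zero
  · intro a b a' b' h1 h2
    rw [smul_add, smul_add]; exact h1.add h2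
  · intro d y hy
    rw [smul_smul, smul_smul, ← map_mul]
    exact of _ hy

lemma mul (h : TRel W τ X φ ψ) (h' : TRel W τ X φ' ψ') : TRel W τ X (φ * φ') (ψ * ψ') := by
  refine induction (p := fun φ ψ => TRel W τ X (φ * φ') (ψ * ψ')) ?_ ?_ ?_ h
  · rw [zero_mul, zero_mul]; exact zero
  · intro a b a' b' h1 h2
    rw [add_mul, add_mul]; exact h1.add h2
  · intro c y hy
    rw [smul_mul_assoc, smul_mul_assoc]
    apply smul
    refine induction (p := fun φ' ψ' => TRel W τ X (y * φ') (y * ψ')) ?_ ?_ ?_ h'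
    · rw [mul_zero]; exact zero
    · intro a b a' b' h1 h2
      rw [mul_add, mul_add]; exact h1.add h2
    · intro d z hz
      rw [mul_smul_comm, mul_smul_comm]
      exact of _ (rop_opAlg.cast (rop_opAlg.mul hy hz) (add_zero 0))

lemma sum {ι : Type*} (s : Finset ι) {φ ψ : ι → Module.End W.K (W.H X)}
    (h : ∀ i ∈ s, TRel W τ X (φ i) (ψ i)) : TRel W τ X (∑ i ∈ s, φ i) (∑ i ∈ s, ψ i) := by
  classical
  induction s using Finset.induction_on with
  | empty => rw [Finset.sum_empty, Finset.sum_empty]; exact zero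
  | insert a s ha ih =>
    rw [Finset.sum_insert ha, Finset.sum_insert ha]
    exact (h a (Finset.mem_insert_self _ _)).add
      (ih (fun i hi => h i (Finset.mem_insert_of_mem hi)))

/-- Twisted pairs of polynomials in a rational correspondence. -/
lemma aeval {f : Module.End W.K (W.H X)} (hf : ROp W X 0 f) (g : Polynomial W.K) :
    TRel W τ X (Polynomial.aeval f g) (Polynomial.aeval f (g.map τ)) := by
  induction g using Polynomial.induction_on' with
  | add p q hp hq =>
    rw [Polynomial.map_add, map_add, map_add]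
    exact hp.add hq
  | monomial n c =>
    rw [Polynomial.map_monomial, Polynomial.aeval_monomial, Polynomial.aeval_monomial,
      ← Algebra.smul_def, ← Algebra.smul_def]
    apply of
    exact rop_opAlg.cast (rop_opAlg.pow hf n) (by ring)

/-- The super traces of the products with a rational correspondence are related by `τ`. -/
lemma trace (h : TRel W τ X φ ψ) {p : Module.End W.K (W.H X)} (hp : ROp W X 0 p) :
    τ (LinearMap.trace W.K (W.H X) (par (W.isInternal X) * (φ * p))) =
      LinearMap.trace W.K (W.H X) (par (W.isInternal X) * (ψ * p)) := by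
  refine induction (p := fun φ ψ => τ (LinearMap.trace W.K (W.H X)
    (par (W.isInternal X) * (φ * p))) =
      LinearMap.trace W.K (W.H X) (par (W.isInternal X) * (ψ * p))) ?_ ?_ ?_ h
  · rw [zero_mul, mul_zero, map_zero, map_zero]
  · intro a b a' b' h1 h2
    rw [add_mul, mul_add, map_add, map_add, h1, h2, add_mul, mul_add, map_add]
  · intro c y hy
    obtain ⟨q, hq⟩ := rop_str _ (rop_opAlg.cast (rop_opAlg.mul hy hp) (add_zero 0))
    rw [smul_mul_assoc, smul_mul_assoc, mul_smul_comm, mul_smul_comm,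
      (LinearMap.trace W.K (W.H X)).map_smul, (LinearMap.trace W.K (W.H X)).map_smul,
      smul_eq_mul, smul_eq_mul, map_mul, hq, map_ratCast]

end TRel

/-- External products of rational correspondences. -/
lemma rop_ext {φ : Module.End W.K (W.H Y)} {ψ : Module.End W.K (W.H Z)} (hφ : ROp W Y 0 φ)
    (hψ : ROp W Z 0 ψ) : ROp W (Y.prod Z) 0 (extOp W φ ψ) := by
  obtain ⟨z, hz, rfl⟩ := Pool.Agent.H447.exists_of_rop (p := Y.dim) (by simp) hφ
  obtain ⟨w, hw, rfl⟩ := Pool.Agent.H447.exists_of_rop (p := Z.dim) (by simp) hψ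
  have hcyc := ops.mul_mem (ops.pull_mem (q1 Y Z) hz) (ops.pull_mem (q2 Y Z) hw)
  have e1 : extOp W (W.corr (W.cl _ z)) (W.corr (W.cl _ w)) =
      W.corr (W.cl _ (ops.mul (ops.pull (q1 Y Z) z) (ops.pull (q2 Y Z) w))) := by
    apply ext_kunneth_lin
    intro a b
    rw [extOp_tmul, W.cl_mul, W.cl_pull, W.cl_pull, corr_ext _ (W.cl_mem hw)]
  rw [e1]
  exact Pool.Agent.H447.rop_corr (by rw [dim_prod]; push_cast; ring) hcyc

lemma TRel.ext {τ : W.K →+* W.K} {φ ψ : Module.End W.K (W.H Y)} {φ' ψ' : Module.End W.K (W.H Z)}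
    (h : TRel W τ Y φ ψ) (h' : TRel W τ Z φ' ψ') :
    TRel W τ (Y.prod Z) (extOp W φ φ') (extOp W ψ ψ') := by
  refine induction (p := fun φ ψ => TRel W τ (Y.prod Z) (extOp W φ φ') (extOp W ψ ψ'))
    ?_ ?_ ?_ h
  · rw [extOp_zero_left, extOp_zero_left]; exact zero
  · intro a b a' b' h1 h2
    rw [extOp_add_left, extOp_add_left]; exact h1.add h2
  · intro c y hy
    rw [extOp_smul_left, extOp_smul_left]
    apply smul
    refine induction (p := fun φ' ψ' => TRel W τ (Y.prod Z) (extOp W y φ') (extOp W y ψ'))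
      ?_ ?_ ?_ h'
    · rw [extOp_zero_right]; exact zero
    · intro a b a' b' h1 h2
      rw [extOp_add_right, extOp_add_right]; exact h1.add h2
    · intro d z hz
      rw [extOp_smul_right, extOp_smul_right]
      exact of _ (rop_ext hy hz)

/-- A decomposition of the cohomology into blocks on which all operators are algebraic, compatible
with the endomorphism `τ` of the coefficient field and with Poincare duality. -/
structure IsFrame (W : WeilCohomology.{u, v} ops) (τ : W.K →+* W.K) (Y : 𝒱.Obj) {ι : Type*}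
    [Fintype ι] (e et : ι → Module.End W.K (W.H Y)) (d : ι → ℕ) (s : ι → ι)
    (J : Module.End W.K (W.H Y)) : Prop where
  sum : ∑ i, e i = 1
  orth : ∀ i j, i ≠ j → e i * e j = 0
  idem : ∀ i, e i * e i = e i
  deg : ∀ i a, e i a ∈ W.gr Y (d i)
  full : ∀ i (A : Module.End W.K (W.H Y)), e i * A * e i ∈ KOp W Y Y 0
  twist : ∀ i, TRel W τ Y (e i) (e (s i))
  surj : Function.Surjective s
  sdeg : ∀ i, d (s i) = d i
  adj : ∀ i a b, W.tr Y (e i a * b) = W.tr Y (a * et i b)
  inv : J * J = 1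
  Jmem : ∀ i, J * e i ∈ KOp W Y Y ((Y.dim : ℤ) - d i)
  comm : ∀ i, J * e (s i) = et i * J

/-- The variety has a frame. -/
def HasFrame (W : WeilCohomology.{u, v} ops) (τ : W.K →+* W.K) (Y : 𝒱.Obj) : Prop :=
  ∃ (ι : Type) (_ : Fintype ι) (e et : ι → Module.End W.K (W.H Y)) (d : ι → ℕ) (s : ι → ι)
    (J : Module.End W.K (W.H Y)), IsFrame W τ Y e et d s J

/-- The index set may be arbitrary. -/
lemma IsFrame.hasFrame {τ : W.K →+* W.K} {ι : Type*} [Fintype ι]
    {e et : ι → Module.End W.K (W.H Y)} {d : ι → ℕ} {s : ι → ι} {J : Module.End W.K (W.H Y)}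
    (h : IsFrame W τ Y e et d s J) : HasFrame W τ Y := by
  classical
  set c := Fintype.equivFin ι with hc
  refine ⟨Fin (Fintype.card ι), inferInstance, fun i => e (c.symm i), fun i => et (c.symm i),
    fun i => d (c.symm i), fun i => c (s (c.symm i)), J, ?_⟩
  refine ⟨?_, ?_, fun i => h.idem _, fun i => h.deg _, fun i => h.full _, ?_, ?_, ?_,
    fun i => h.adj _, h.inv, fun i => h.Jmem _, ?_⟩
  · rw [← h.sum]
    exact Equiv.sum_comp c.symm e
  · intro i j hij
    exact h.orth _ _ (fun h' => hij (c.symm.injective h'))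
  · intro i
    rw [Equiv.symm_apply_apply]
    exact h.twist _
  · exact c.surjective.comp (h.surj.comp c.symm.surjective)
  · intro i
    rw [Equiv.symm_apply_apply]
    exact h.sdeg _
  · intro i
    rw [Equiv.symm_apply_apply]
    exact h.comm _

section Adj

/-- Adjoints of operators of degree zero preserve the degrees. -/
lemma adj_hom {φ φt : Module.End W.K (W.H Y)}
    (hφ : φ ∈ KOp W Y Y 0) (h : ∀ a b, W.tr Y (φ a * b) = W.tr Y (a * φt b)) :
    φt ∈ KOp W Y Y 0 := by
  obtain ⟨ψ, hψ, hψ'⟩ := KOp.exists_adjoint hφ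
  have : φt = ψ := by
    apply LinearMap.ext
    intro b
    rw [← sub_eq_zero]
    apply nondeg_right
    intro a
    rw [mul_sub, map_sub, ← h, ← hψ', sub_self]
  rw [this]
  exact KOp.cast hψ (by ring)

lemma hom0 {φ : Module.End W.K (W.H X)} (hφ : φ ∈ KOp W X X 0) {i : ℕ} {a : W.H X}
    (ha : a ∈ W.gr X i) : φ a ∈ W.gr X i := by
  have h1 := KOp.isHom hφ (i : ℤ) a (by rw [grZ_natCast]; exact ha)
  rw [mul_zero, add_zero, grZ_natCast] at h1
  exact h1

/-- Adjoints of external products. -/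
lemma adj_ext {φ φt : Module.End W.K (W.H Y)} {ψ ψt : Module.End W.K (W.H Z)}
    (hφ : φ ∈ KOp W Y Y 0) (hφt : ∀ a b, W.tr Y (φ a * b) = W.tr Y (a * φt b))
    (hψ : ψ ∈ KOp W Z Z 0) (hψt : ∀ a b, W.tr Z (ψ a * b) = W.tr Z (a * ψt b))
    (a b : W.H (Y.prod Z)) :
    W.tr (Y.prod Z) (extOp W φ ψ a * b) = W.tr (Y.prod Z) (a * extOp W φt ψt b) := by
  have hφ' := adj_hom hφ hφt
  have hswap : ∀ {i j : ℕ} {x x' : W.H Y} {y y' : W.H Z}, y ∈ W.gr Z j → x' ∈ W.gr Y i →
      W.tr (Y.prod Z) (W.map (fst Y Z) x * W.map (snd Y Z) y *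
        (W.map (fst Y Z) x' * W.map (snd Y Z) y')) =
        (-1 : W.K) ^ (j * i) * (W.tr Y (x * x') * W.tr Z (y * y')) := by
    intro i j x x' y y' hy hx'
    have e1 : W.map (fst Y Z) x * W.map (snd Y Z) y *
        (W.map (fst Y Z) x' * W.map (snd Y Z) y') =
        (-1 : W.K) ^ (j * i) • (W.map (fst Y Z) (x * x') * W.map (snd Y Z) (y * y')) := by
      rw [mul_assoc, ← mul_assoc (W.map (snd Y Z) y),
        W.comm (W.map_mem (snd Y Z) hy) (W.map_mem (fst Y Z) hx'), smul_mul_assoc,
        mul_smul_comm, map_mul, map_mul]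
      simp only [mul_assoc]
    rw [e1, map_smul, W.tr_prod, smul_eq_mul]
  refine W.kunneth_induction (p := fun a => W.tr (Y.prod Z) (extOp W φ ψ a * b) =
    W.tr (Y.prod Z) (a * extOp W φt ψt b)) ?_ ?_ a
  · intro a a' h1 h2
    rw [map_add, add_mul, map_add, h1, h2, add_mul, map_add]
  intro i j x hx y hy
  refine W.kunneth_induction (p := fun b => W.tr (Y.prod Z) (extOp W φ ψ
    (W.map (fst Y Z) x * W.map (snd Y Z) y) * b) =
    W.tr (Y.prod Z) (W.map (fst Y Z) x * W.map (snd Y Z) y * extOp W φt ψt b)) ?_ ?_ b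
  · intro a a' h1 h2
    rw [mul_add, map_add, h1, h2, map_add, mul_add, map_add]
  intro i' j' x' hx' y' hy'
  rw [extOp_tmul, extOp_tmul, hswap (hom0 hψ hy) hx', hswap hy (hom0 hφ' hx'), hφt, hψt]

end Adj

namespace IsFrame

variable {τ : W.K →+* W.K} {ι : Type*} [Fintype ι]
    {e et : ι → Module.End W.K (W.H Y)} {d : ι → ℕ} {s : ι → ι} {J : Module.End W.K (W.H Y)}

lemma mem (h : IsFrame W τ Y e et d s J) (i : ι) : e i ∈ KOp W Y Y 0 := by
  have := h.full i 1
  rwa [mul_one, h.idem] at this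

end IsFrame

/-- Frames are stable under products. -/
theorem HasFrame.prod {τ : W.K →+* W.K} (hY : HasFrame W τ Y) (hZ : HasFrame W τ Z) :
    HasFrame W τ (Y.prod Z) := by
  classical
  obtain ⟨ι, _, e, et, d, s, J, h⟩ := hY
  obtain ⟨ι', _, e', et', d', s', J', h'⟩ := hZ
  refine ⟨ι × ι', inferInstance, fun i => extOp W (e i.1) (e' i.2),
    fun i => extOp W (et i.1) (et' i.2), fun i => d i.1 + d' i.2, fun i => (s i.1, s' i.2),
    extOp W J J', ?_⟩
  refine ⟨?_, ?_, ?_, ?_, ?_, ?_, ?_, ?_, ?_, ?_, ?_, ?_⟩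
  · rw [Fintype.sum_prod_type]
    have : ∀ i, ∑ j, extOp W (e i) (e' j) = extOp W (e i) 1 := by
      intro i
      rw [← h'.sum, extOp_sum']
    rw [Finset.sum_congr rfl (fun i _ => this i), ← extOp_sum, h.sum, extOp_one]
  · intro i j hij
    rw [extOp_mul]
    by_cases h1 : i.1 = j.1
    · have h2 : i.2 ≠ j.2 := fun h2 => hij (Prod.ext h1 h2)
      rw [h'.orth _ _ h2, extOp_zero_right]
    · rw [h.orth _ _ h1, extOp_zero_left]
  · intro i
    rw [extOp_mul, h.idem, h'.idem]
  · intro i a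
    refine W.kunneth_induction (p := fun a => extOp W (e i.1) (e' i.2) a ∈
      W.gr (Y.prod Z) (d i.1 + d' i.2)) ?_ ?_ a
    · intro a b ha hb
      rw [map_add]; exact Submodule.add_mem _ ha hb
    · intro i' j' a _ b _
      rw [extOp_tmul]
      exact kappa_mem (h.deg _ _) (h'.deg _ _)
  · intro i A
    refine extOp_induction (p := fun A => extOp W (e i.1) (e' i.2) * A *
      extOp W (e i.1) (e' i.2) ∈ KOp W (Y.prod Z) (Y.prod Z) 0) ?_ ?_ ?_ A
    · rw [mul_zero, zero_mul]; exact Submodule.zero_mem _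
    · intro A B hA hB
      rw [mul_add, add_mul]; exact Submodule.add_mem _ hA hB
    · intro φ ψ
      rw [extOp_mul, extOp_mul]
      exact KOp.cast (KOp.ext (h.full i.1 φ) (h'.full i.2 ψ)) (add_zero 0)
  · intro i
    exact (h.twist i.1).ext (h'.twist i.2)
  · rintro ⟨i, j⟩
    obtain ⟨i', rfl⟩ := h.surj i
    obtain ⟨j', rfl⟩ := h'.surj j
    exact ⟨(i', j'), rfl⟩
  · intro i
    rw [h.sdeg, h'.sdeg]
  · intro i a b
    exact adj_ext (h.mem _) (h.adj _) (h'.mem _) (h'.adj _) a b
  · rw [extOp_mul, h.inv, h'.inv, extOp_one]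
  · intro i
    rw [extOp_mul]
    exact KOp.cast (KOp.ext (h.Jmem i.1) (h'.Jmem i.2)) (by rw [dim_prod]; push_cast; ring)
  · intro i
    rw [extOp_mul, extOp_mul, h.comm, h'.comm]

/-- Products of varieties with frames. -/
theorem hasFrame_of_isProductOf {τ : W.K →+* W.K} {S : Set 𝒱.Obj} (hS : ∀ X ∈ S, HasFrame W τ X)
    {Q : 𝒱.Obj} (hQ : IsProductOf S Q) : HasFrame W τ Q := by
  induction hQ with
  | base h => exact hS _ h
  | prod _ _ h1 h2 => exact h1.prod h2

end Pool.Agent.W550.B
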