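import Pool.Agent.H39.L.W5h93_EV_Defs

/-!
# Additive invariants of schemes with values in an abelian group: definitions
-/

set_option autoImplicit false

open CategoryTheory AlgebraicGeometry Pool.Agent.Y116.UV Pool.Agent.W5h93.EV

namespace Pool.Agent.W5h93.EX

variable {k : Type} [Field k]

/-- `δ X : ℤ → M` are the coefficients of an invariant of the separated schemes `X` of finite type
over `k` with values in the Laurent polynomials `∑ δ X c L ^ c` with coefficients in the abelian group
`M`, which is additive for closed-open decompositions and compatible with affine bundles: the invariant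
of the total space of the affine bundle `Spec A[w_1, …, w_m] / (∑ f_l w_l - 1) → U` with fibre
`𝔸^(m-1)`, where `U` is the complement of `f = 0` in `Spec A`, is `L ^ (m - 1)` times the invariant of
`U`. The invariant of the point is zero. -/
structure IsAdditive {M : Type*} [AddCommGroup M] (δ : Sch k → ℤ → M) : Prop where
  iso : ∀ {X Y : Sch k}, FT True X → Nonempty (X ≅ Y) → δ X = δ Y
  add : ∀ {Z X U : Sch k} (i : Z ⟶ X) (j : U ⟶ X), FT True X → Decomp i j →
    ∀ c, δ X c = δ Z c + δ U c
  bundle : ∀ (A : Type) [CommRing A] [Algebra k A] [Algebra.FiniteType k A] (m : ℕ)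
    (f : Fin m → A) (U : Sch k), Compl f U → ∀ c, δ (aff k (Jou f)) c = δ U (c - (m - 1))
  bounded : ∀ X : Sch k, FT True X → ∃ b : ℤ, ∀ c, c < b → δ X c = 0
  point : ∀ c, δ (aff k k) c = 0

/-- `Q` is a class of smooth proper irreducible schemes over `k`, for example the class of all smooth
projective varieties over `k` (they need not be geometrically irreducible). -/
structure IsClass (Q : Sch k → Prop) : Prop where
  smooth : ∀ X, Q X → Smooth X.hom
  proper : ∀ X, Q X → IsProper X.hom
  irreducible : ∀ X, Q X → IrreducibleSpace X.left

/-- Every integral affine scheme of finite type over `k` of dimension `d ≤ n` is birational to a scheme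
of the class `Q` of dimension `d`. (For the class of the smooth projective varieties over a field of
characteristic zero this is the theorem of Hironaka.) -/
def ModelsIn (Q : Sch k → Prop) (n : ℕ) : Prop :=
  ∀ (A : Type) [CommRing A] [IsDomain A] [Algebra k A] [Algebra.FiniteType k A] (d : ℕ), d ≤ n →
    ringKrullDim A = d →
      ∃ X : Sch k, Q X ∧ Birational (aff k A) X ∧ topologicalKrullDim X.left = d

/-- `P` is true for all schemes of the class `Q` of dimension at most `n`. -/
def ForClass (Q P : Sch k → Prop) (n : ℕ) : Prop :=
  ∀ X : Sch k, Q X → topologicalKrullDim X.left ≤ n → P X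

/-- `P` is true for the hypersurfaces `T(x, y, z) = 1` of all trilinear forms `T` over `k` which have a
block of at most `m` variables. -/
def ForForms (P : Sch k → Prop) (m : ℕ) : Prop := ∀ F : Form k, F.Small m → P F.hyp

end Pool.Agent.W5h93.EX
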