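import Pool.Agent.H39.L.W5h93_EX_PrimeDefs

/-!
# Biadditive invariants: definitions
-/

set_option autoImplicit false

open CategoryTheory AlgebraicGeometry Pool.Agent.Y116.UV Pool.Agent.W5h93.EV

namespace Pool.Agent.W5h93.EX

variable {k : Type} [Field k]

/-- `η` is an invariant of the pairs of separated schemes of finite type over `k` which is additive in
both arguments. -/
structure IsBiadditive {M : Type*} [AddCommGroup M] (η : Sch k → Sch k → ℤ → M) : Prop where
  left : ∀ Y, FT True Y → IsAdditive fun X => η X Y
  right : ∀ X, FT True X → IsAdditive (η X)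

/-- `η X Y = 0` for all `X` and `Y` in the class `Q` of dimension at most `n`. -/
def PairZero {M : Type*} [AddCommGroup M] (η : Sch k → Sch k → ℤ → M) (Q : Sch k → Prop) (n : ℕ) :
    Prop :=
  ∀ X Y, Q X → Q Y → topologicalKrullDim X.left ≤ n → topologicalKrullDim Y.left ≤ n →
    ∀ c, η X Y c = 0

/-- `η` vanishes for the pairs of hypersurfaces `T(x, y, z) = 1`, `T'(x', y', z') = 1` of all trilinear
forms `T`, `T'` over `k` which have a block of at most `m` variables. -/
def PairForms {M : Type*} [AddCommGroup M] (η : Sch k → Sch k → ℤ → M) (m : ℕ) : Prop :=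
  ∀ F G : Form k, F.Small m → G.Small m → ∀ c, η F.hyp G.hyp c = 0

end Pool.Agent.W5h93.EX
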