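import Pool.Agent.H39.L.W5h93_EX_PrimeDefs
import Pool.Agent.H39.L.W5h93_EX_Rat

/-!
# Prime fields
-/

set_option autoImplicit false

open CategoryTheory AlgebraicGeometry Pool.Agent.Y116.UV Pool.Agent.Z125.UN Pool.Agent.W5h93.EV
  MvPolynomial

namespace Pool.Agent.W5h93.EX

variable {k : Type} [Field k]

lemma exists_int_mul_prime (hk : IsPrimeField k) (G : Finset k) :
    ∃ N : ℤ, (N : k) ≠ 0 ∧ ∀ q ∈ G, ∃ z : ℤ, (z : k) = N * q := by
  classical
  choose a b hb hab using hk
  refine ⟨∏ q ∈ G, b q, ?_, fun q hq => ?_⟩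
  · rw [Int.cast_prod]
    exact Finset.prod_ne_zero_iff.mpr fun q _ => hb q
  · obtain ⟨r, hr⟩ : b q ∣ ∏ q ∈ G, b q := Finset.dvd_prod_of_mem _ hq
    refine ⟨r * a q, ?_⟩
    rw [hr]
    push_cast
    rw [← hab q]
    ring

/-- Over a prime field every algebra of finite type has a presentation with integral coefficients. -/
theorem presents_prime_int (hk : IsPrimeField k) : Presents (Set.range (Int.cast : ℤ → k)) := by
  classical
  intro A _ _ _
  obtain ⟨n, φ, G, hs, hK, -⟩ := presents_univ (R := k) A
  have hN : ∀ g : MvPolynomial (Fin n) k, ∃ N : ℤ, (N : k) ≠ 0 ∧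
      ∀ m, ∃ z : ℤ, (z : k) = N * coeff m g := by
    intro g
    obtain ⟨N, hN, h⟩ := exists_int_mul_prime hk (g.support.image fun m => coeff m g)
    refine ⟨N, hN, fun m => ?_⟩
    by_cases hm : m ∈ g.support
    · exact h _ (Finset.mem_image_of_mem _ hm)
    · refine ⟨0, ?_⟩
      rw [notMem_support_iff.mp hm, mul_zero, Int.cast_zero]
  choose N hN0 hN using hN
  refine ⟨n, φ, G.image fun g => C (N g : k) * g, hs, ?_, ?_⟩
  · rw [hK]
    apply le_antisymm
    · rw [Ideal.span_le]
      intro g hg
      have h1 : (g : MvPolynomial (Fin n) k) = C ((N g : k)⁻¹) * (C (N g : k) * g) := by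
        rw [← mul_assoc, ← map_mul, inv_mul_cancel₀ (hN0 g), map_one, one_mul]
      rw [h1]
      refine Ideal.mul_mem_left _ _ (Ideal.subset_span ?_)
      rw [Finset.coe_image]
      exact ⟨g, hg, rfl⟩
    · rw [Ideal.span_le]
      intro g hg
      rw [Finset.coe_image] at hg
      obtain ⟨g, hg, rfl⟩ := hg
      exact Ideal.mul_mem_left _ _ (Ideal.subset_span hg)
  · intro g hg m
    obtain ⟨g, -, rfl⟩ := Finset.mem_image.mp hg
    obtain ⟨z, hz⟩ := hN g m
    refine ⟨z, ?_⟩
    rw [coeff_C_mul, hz]

/-- Over a prime field every algebra of finite type has a presentation by sums of monomials. -/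
theorem presents_prime (hk : IsPrimeField k) : Presents ({0, 1} : Set k) :=
  presents_of_int (presents_prime_int hk)

lemma isPrimeField_rat : IsPrimeField ℚ := by
  intro x
  refine ⟨x.num, x.den, by exact_mod_cast x.den_nz, ?_⟩
  have h1 := Rat.mul_den_eq_num x
  rw [mul_comm]
  exact_mod_cast h1

lemma isPrimeField_zmod (p : ℕ) [Fact p.Prime] : IsPrimeField (ZMod p) := by
  intro x
  obtain ⟨a, rfl⟩ := ZMod.intCast_surjective x
  exact ⟨a, 1, by rw [Int.cast_one]; exact one_ne_zero, by rw [Int.cast_one, one_mul]⟩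

section

variable {P : Sch k → Prop} (hP : Bnd True P)

include hP

/-- From the hypersurfaces of the tripartite hypergraphs to all schemes. -/
theorem class_of_graphs (hk : IsPrimeField k) {Q : Sch k → Prop} (hQ : IsClass Q)
    (h : ForHypergraphs k P) : ∀ X, Q X → P X :=
  fun X hX => universal_graph (presents_prime hk) hP.toUni h X (hQ.ft hX)

/-- **Over a prime field: the class and the hypersurfaces of the tripartite hypergraphs.** -/
theorem class_iff_graphs [PerfectField k] (hk : IsPrimeField k) {Q : Sch k → Prop} (hQ : IsClass Q)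
    (hM : ∀ n, ModelsIn Q n) : (∀ X, Q X → P X) ↔ ForHypergraphs k P := by
  constructor
  · intro h a b c H
    refine (universal hP.toUni (S := Set.univ) trivial trivial (fun a b c T _ => ?_) presents_univ) _
      (ft_aff True)
    exact (all_iff hP hQ hM).mp h ⟨a, b, c, T⟩
  · exact class_of_graphs hP hk hQ

/-- **The reduction.** -/
theorem reduces [PerfectField k] {Q C : Sch k → Prop} (hQ : IsClass Q)
    (hC : ∀ X, Q X → (C X ↔ P X)) : Reduces Q C P where
  dim_of_forms n h X hX hd := (hC X hX).mpr (dim_of_forms hP h X (hQ.ft hX) hd)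
  all_of_graphs hk h X hX := (hC X hX).mpr (class_of_graphs hP hk hQ h X hX)
  dim_iff_forms n hM := by
    refine Iff.trans ?_ (class_iff hP hQ hM)
    exact forall_congr' fun X => forall_congr' fun hX => forall_congr' fun _ => hC X hX
  all_iff_forms hM := by
    refine Iff.trans ?_ (all_iff hP hQ hM)
    exact forall_congr' fun X => forall_congr' fun hX => hC X hX
  all_iff_graphs hM hk := by
    refine Iff.trans ?_ (class_iff_graphs hP hk hQ hM)
    exact forall_congr' fun X => forall_congr' fun hX => hC X hX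

end

end Pool.Agent.W5h93.EX
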