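import Pool.Agent.H39.L.W5h93_EX_SignDefs
import Pool.Agent.H39.L.W5h93_EX_PairMain
import Pool.Agent.H39.L.W5h93_GR_Sign

/-!
# The sign conjecture and pairs of varieties
-/

set_option autoImplicit false

open CategoryTheory AlgebraicGeometry Pool.Agent.Y116.UV Pool.Agent.W5h93.EV

universe v

namespace Pool.Agent.W5h93.EX

open Pool.Agent.H914 Pool.Agent.H914.VarClass Pool.Agent.H914.VarClass.Obj
  Pool.Agent.H914.WeilCohomology Pool.Agent.H447 Pool.Agent.W5h93.GR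

variable {k : Type} [Field k] {𝒱 : VarClass k} {ops : CycleOps 𝒱}
  {W : WeilCohomology.{0, v} ops} {X Y : 𝒱.Obj}

/-- The `K`-linear combinations of the operators `H(X) → H(Y)` given by the cycles of codimension `c` on
`X × Y`. -/
def corrs (W : WeilCohomology.{0, v} ops) (X Y : 𝒱.Obj) (c : ℕ) :
    Submodule W.K (W.H X →ₗ[W.K] W.H Y) :=
  Submodule.span W.K {φ | ∃ z, (X.prod Y).IsCyc c z ∧ W.corr (W.cl _ z) = φ}

/-- The operators `H(X) → H(Y)` which vanish on `H^i(X)` for all `i` of the same parity as `ε`. -/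
def killing (W : WeilCohomology.{0, v} ops) (X Y : 𝒱.Obj) (ε : ℕ) :
    Submodule W.K (W.H X →ₗ[W.K] W.H Y) where
  carrier := {φ | ∀ j : ℕ, ∀ x ∈ W.gr X (2 * j + ε), φ x = 0}
  add_mem' := by
    intro φ ψ hφ hψ j x hx
    rw [LinearMap.add_apply, hφ j x hx, hψ j x hx, add_zero]
  zero_mem' := fun _ _ _ => rfl
  smul_mem' := by
    intro a φ hφ j x hx
    rw [LinearMap.smul_apply, hφ j x hx, smul_zero]

lemma splitDefect_eq {K V U : Type*} [Field K] [AddCommGroup V] [Module K V]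
    [AddCommGroup U] [Module K U] (S : Set (V →ₗ[K] U)) (A B : Set V)
    (C D E : Submodule K (V →ₗ[K] U)) (hC : Submodule.span K S = C)
    (hD : ∀ φ, φ ∈ D ↔ φ ∈ C ∧ ∀ x ∈ A, φ x = 0) (hE : ∀ φ, φ ∈ E ↔ φ ∈ C ∧ ∀ x ∈ B, φ x = 0) :
    splitDefect S A B = (Module.finrank K C : ℤ) - Module.finrank K D - Module.finrank K E := by
  subst hC
  have h1 : Submodule.span K (↑(Submodule.span K S) ∩ {φ : V →ₗ[K] U | ∀ x ∈ A, φ x = 0}) = D := by
    rw [← Submodule.span_eq D]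
    congr 1
    ext φ
    exact (hD φ).symm
  have h2 : Submodule.span K (↑(Submodule.span K S) ∩ {φ : V →ₗ[K] U | ∀ x ∈ B, φ x = 0}) = E := by
    rw [← Submodule.span_eq E]
    congr 1
    ext φ
    exact (hE φ).symm
  rw [splitDefect, spanDefect, Set.finrank, Set.finrank, Set.finrank, h1, h2]

lemma mem_inf_killing (ε : ℕ) (C : Submodule W.K (W.H X →ₗ[W.K] W.H Y)) (A : Set (W.H X))
    (hA : ∀ x, x ∈ A ↔ ∃ j, x ∈ W.gr X (2 * j + ε)) (φ : W.H X →ₗ[W.K] W.H Y) :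
    φ ∈ C ⊓ killing W X Y ε ↔ φ ∈ C ∧ ∀ x ∈ A, φ x = 0 := by
  constructor
  · rintro ⟨h1, h2⟩
    refine ⟨h1, fun x hx => ?_⟩
    obtain ⟨j, hj⟩ := (hA x).mp hx
    exact h2 j x hj
  · rintro ⟨h1, h2⟩
    exact ⟨h1, fun j x hx => h2 x ((hA x).mpr ⟨j, hx⟩)⟩

lemma signDefect_eq (W : WeilCohomology.{0, v} ops) (X Y : 𝒱.Obj) (c : ℕ) : signDefect W X Y c =
    (Module.finrank W.K (corrs W X Y c) : ℤ) -
    Module.finrank W.K (corrs W X Y c ⊓ killing W X Y 1 : Submodule W.K (W.H X →ₗ[W.K] W.H Y)) -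
    Module.finrank W.K
      (corrs W X Y c ⊓ killing W X Y 0 : Submodule W.K (W.H X →ₗ[W.K] W.H Y)) :=
  splitDefect_eq _ _ _ _ _ _ (by rw [corrs, cycOps]; rfl) (mem_inf_killing 1 _ _ fun _ => Iff.rfl)
    (mem_inf_killing 0 _ _ fun _ => Iff.rfl)

lemma corrs_eq (c : ℕ) : corrs W X Y c = KOp W X Y (c - X.dim) := by
  rw [corrs, KOp]
  congr 1
  ext φ
  constructor
  · rintro ⟨z, hz, h⟩
    exact ⟨c, by ring, z, hz, h⟩
  · rintro ⟨p, hp, z, hz, h⟩
    have h1 : p = c := by omega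
    subst h1
    exact ⟨z, hz, h⟩

/-- the projector onto the even cohomology -/
noncomputable def evn (W : WeilCohomology.{0, v} ops) (X : 𝒱.Obj) : Module.End W.K (W.H X) :=
  scal (W.isInternal X) (fun d => if Even d then (1 : W.K) else 0)

lemma evn_even {j : ℕ} {x : W.H X} (hx : x ∈ W.gr X (2 * j + 0)) : evn W X x = x := by
  rw [evn, scal_apply _ _ hx, if_pos ⟨j, by ring⟩, one_smul]

lemma evn_odd {j : ℕ} {x : W.H X} (hx : x ∈ W.gr X (2 * j + 1)) : evn W X x = 0 := by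
  rw [evn, scal_apply _ _ hx, if_neg (by rw [Nat.not_even_iff_odd]; exact ⟨j, rfl⟩), zero_smul]

lemma hom_ext_parity {φ ψ : W.H X →ₗ[W.K] W.H Y} (h0 : ∀ j, ∀ x ∈ W.gr X (2 * j + 0), φ x = ψ x)
    (h1 : ∀ j, ∀ x ∈ W.gr X (2 * j + 1), φ x = ψ x) : φ = ψ := by
  apply gr_ext (W.isInternal X)
  intro i x hx
  rcases Nat.even_or_odd' i with ⟨j, rfl | rfl⟩
  · exact h0 j x hx
  · exact h1 j x hx

lemma killing_inf : killing W X Y 1 ⊓ killing W X Y 0 = ⊥ := by
  rw [eq_bot_iff]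
  rintro φ ⟨h1, h0⟩
  rw [Submodule.mem_bot]
  exact hom_ext_parity (fun j x hx => h0 j x hx) (fun j x hx => h1 j x hx)

/-- The defect is zero if and only if all correspondences split. -/
lemma signDefect_eq_zero (c : ℕ) : signDefect W X Y c = 0 ↔
    corrs W X Y c ≤ (corrs W X Y c ⊓ killing W X Y 1) ⊔ (corrs W X Y c ⊓ killing W X Y 0) := by
  have : Module.Finite W.K (W.H X) := (W.isPoincareAlgebra X).finite
  have : Module.Finite W.K (W.H Y) := (W.isPoincareAlgebra Y).finite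
  have hinf : (corrs W X Y c ⊓ killing W X Y 1) ⊓ (corrs W X Y c ⊓ killing W X Y 0) = ⊥ := by
    rw [eq_bot_iff, ← killing_inf]
    exact inf_le_inf inf_le_right inf_le_right
  have h1 := Submodule.finrank_sup_add_finrank_inf_eq (corrs W X Y c ⊓ killing W X Y 1)
    (corrs W X Y c ⊓ killing W X Y 0)
  rw [hinf, finrank_bot, add_zero] at h1
  have h2 : (corrs W X Y c ⊓ killing W X Y 1) ⊔ (corrs W X Y c ⊓ killing W X Y 0) ≤
      corrs W X Y c := sup_le inf_le_left inf_le_left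
  rw [signDefect_eq]
  constructor
  · intro h
    exact (Submodule.eq_of_le_of_finrank_eq h2 (by omega)).ge
  · intro h
    have h3 := le_antisymm h2 h
    rw [h3] at h1
    omega

/-- The sign conjecture for `X` makes the defects of all pairs with `X` zero. -/
theorem defect_of_sign (h : SignStd W X) (Y : 𝒱.Obj) (c : ℕ) : signDefect W X Y c = 0 := by
  have hE : evn W X ∈ KOp W X X 0 := (signStd_iff_kop X).mp h
  rw [signDefect_eq_zero]
  intro φ hφ
  have hφ' : φ ∈ KOp W X Y (c - X.dim) := by rwa [corrs_eq] at hφ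
  have h1 : φ ∘ₗ evn W X ∈ KOp W X Y (c - X.dim) :=
    KOp.cast (KOp.comp hφ' hE) (by ring)
  have h2 : φ - φ ∘ₗ evn W X ∈ KOp W X Y (c - X.dim) := Submodule.sub_mem _ hφ' h1
  rw [← corrs_eq] at h1 h2
  have h3 : φ = φ ∘ₗ evn W X + (φ - φ ∘ₗ evn W X) := by abel
  rw [h3]
  refine Submodule.add_mem_sup ⟨h1, fun j x hx => ?_⟩ ⟨h2, fun j x hx => ?_⟩
  · rw [LinearMap.comp_apply, evn_odd hx, map_zero]
  · rw [LinearMap.sub_apply, LinearMap.comp_apply, evn_even hx, sub_self]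

/-- The sign conjecture for `X` from the defect of the pair `(X, X)` in codimension `dim X`. -/
theorem sign_of_defect (h : signDefect W X X X.dim = 0) : SignStd W X := by
  rw [signStd_iff_kop]
  rw [signDefect_eq_zero, corrs_eq, sub_self] at h
  obtain ⟨φ, ⟨hφ, hφ1⟩, ψ, ⟨hψ, hψ0⟩, he⟩ := Submodule.mem_sup.mp (h (KOp.id X))
  have h1 : φ = evn W X := by
    apply hom_ext_parity
    · intro j x hx
      have h2 : φ x + ψ x = x := LinearMap.congr_fun he x
      rw [hψ0 j x hx, add_zero] at h2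
      rw [h2, evn_even hx]
    · intro j x hx
      rw [hφ1 j x hx, evn_odd hx]
  rw [h1] at hφ
  exact hφ

/-- the class of the schemes -/
lemma isClass_schemes (𝒱 : VarClass k) : IsClass (schemes 𝒱) where
  smooth := by
    rintro _ ⟨X, rfl⟩
    exact SmoothOfRelativeDimension.smooth X.V.dim X.V.str
  proper := by
    rintro _ ⟨X, rfl⟩
    exact X.V.proper
  irreducible := by
    rintro _ ⟨X, rfl⟩
    exact inferInstanceAs (IrreducibleSpace X.V.X)

variable {η : Sch k → Sch k → ℤ → ℤ}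

theorem signDim_iff (hη : IsPairDefect W η) (n : ℕ) : SignDim W n ↔ PairZero η (schemes 𝒱) n := by
  constructor
  · rintro h _ _ ⟨X, rfl⟩ ⟨Y, rfl⟩ hX _ c
    rcases lt_or_ge c 0 with hc | hc
    · exact hη.neg X Y c hc
    · obtain ⟨m, rfl⟩ := Int.eq_ofNat_of_zero_le hc
      exact (hη.value X Y m).trans (defect_of_sign (h X hX) Y m)
  · intro h X hX
    apply sign_of_defect
    rw [← hη.value X X X.dim]
    exact h _ _ ⟨X, rfl⟩ ⟨X, rfl⟩ hX hX _

theorem sign_all_iff (hη : IsPairDefect W η) : (∀ X : 𝒱.Obj, SignStd W X) ↔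
    ∀ S S', schemes 𝒱 S → schemes 𝒱 S' → ∀ c, η S S' c = 0 := by
  constructor
  · rintro h _ _ ⟨X, rfl⟩ ⟨Y, rfl⟩ c
    rcases lt_or_ge c 0 with hc | hc
    · exact hη.neg X Y c hc
    · obtain ⟨m, rfl⟩ := Int.eq_ofNat_of_zero_le hc
      exact (hη.value X Y m).trans (defect_of_sign (h X) Y m)
  · intro h X
    apply sign_of_defect
    rw [← hη.value X X X.dim]
    exact h _ _ ⟨X, rfl⟩ ⟨X, rfl⟩ _

end Pool.Agent.W5h93.EX
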