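import Pool.Agent.H39.L.W5h93_EX_PairDefs
import Pool.Agent.H39.L.W5h93_EV_VDefs
import Pool.Agent.H39.L.H447R3_SpDefs

/-!
# The sign conjecture and pairs of varieties: definitions
-/

set_option autoImplicit false

open CategoryTheory AlgebraicGeometry Pool.Agent.Y116.UV Pool.Agent.W5h93.EV

universe v

namespace Pool.Agent.W5h93.EX

open Pool.Agent.H914 Pool.Agent.H914.VarClass Pool.Agent.H914.VarClass.Obj
  Pool.Agent.H914.WeilCohomology Pool.Agent.H447

variable {k : Type} [Field k] {𝒱 : VarClass k} {ops : CycleOps 𝒱}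

/-- For subsets `S`, `A` and `B` of a vector space: the dimension of the span `⟨S⟩` of `S`, minus the
dimensions of the spans of `⟨S⟩ ∩ A` and of `⟨S⟩ ∩ B`. -/
noncomputable def spanDefect {K M : Type*} [Field K] [AddCommGroup M] [Module K M] (S A B : Set M) :
    ℤ :=
  (Set.finrank K S : ℤ) - Set.finrank K (↑(Submodule.span K S) ∩ A) -
    Set.finrank K (↑(Submodule.span K S) ∩ B)

/-- For a set `S` of linear maps from `V` to `U` and subsets `A` and `B` of `V`: the dimension of the
span `⟨S⟩` of `S`, minus the dimension of the space of the maps in `⟨S⟩` which vanish on `A`, minus the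
dimension of the space of the maps in `⟨S⟩` which vanish on `B`. -/
noncomputable def splitDefect {K V U : Type*} [Field K] [AddCommGroup V] [Module K V]
    [AddCommGroup U] [Module K U] (S : Set (V →ₗ[K] U)) (A B : Set V) : ℤ :=
  spanDefect (K := K) S {φ | ∀ x ∈ A, φ x = 0} {φ | ∀ x ∈ B, φ x = 0}

/-- The operators `H(X) → H(Y)` given by the cycles of codimension `c` on `X × Y`. -/
def cycOps (W : WeilCohomology.{0, v} ops) (X Y : 𝒱.Obj) (c : ℕ) : Set (W.H X →ₗ[W.K] W.H Y) :=
  (fun z => W.corr (W.cl (X.prod Y) z)) '' {z | (X.prod Y).IsCyc c z}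

/-- The cohomology classes of `X` of the degrees `2 j + ε`, `j = 0, 1, 2, …`. -/
def degs (W : WeilCohomology.{0, v} ops) (X : 𝒱.Obj) (ε : ℕ) : Set (W.H X) :=
  {x | ∃ j, x ∈ W.gr X (2 * j + ε)}

/-- The dimension of the space of the algebraic correspondences of codimension `c` from `X` to `Y`, that
is, of the span of the operators `H(X) → H(Y)` given by the cycles of codimension `c` on `X × Y`, minus
the dimensions of the subspaces of those which vanish on the odd cohomology, and of those which vanish
on the even cohomology of `X`. -/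
noncomputable def signDefect (W : WeilCohomology.{0, v} ops) (X Y : 𝒱.Obj) (c : ℕ) : ℤ :=
  splitDefect (cycOps W X Y c) (degs W X 1) (degs W X 0)

/-- The varieties of the class `𝒱` as schemes over `k`. -/
def schemes (𝒱 : VarClass k) (S : Sch k) : Prop := ∃ X : 𝒱.Obj, sch X.V = S

/-- `η` is a biadditive invariant of pairs of separated schemes of finite type over `k`; for varieties
`X`, `Y` of the class `𝒱` its coefficients are the numbers `signDefect W X Y c`. -/
structure IsPairDefect (W : WeilCohomology.{0, v} ops) (η : Sch k → Sch k → ℤ → ℤ) : Prop where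
  biadditive : IsBiadditive η
  value : ∀ (X Y : 𝒱.Obj) (c : ℕ), η (sch X.V) (sch Y.V) c = signDefect W X Y c
  neg : ∀ (X Y : 𝒱.Obj) (c : ℤ), c < 0 → η (sch X.V) (sch Y.V) c = 0

/-- The sign conjecture for all varieties of the class of dimension at most `n`. -/
def SignDim (W : WeilCohomology.{0, v} ops) (n : ℕ) : Prop :=
  ∀ X : 𝒱.Obj, topologicalKrullDim X.V.X ≤ n → SignStd W X

end Pool.Agent.W5h93.EX
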