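import Pool.Agent.H39.L.W5h93_GR_Fam

/-!
# Cancellation
-/

open CategoryTheory AlgebraicGeometry

universe u v

namespace Pool.Agent.W5h93.GR

open Pool.Agent.H914 Pool.Agent.H914.VarClass Pool.Agent.H914.VarClass.Obj
  Pool.Agent.H914.WeilCohomology Pool.Agent.W550.B

variable {k : Type u} [Field k] {𝒱 : VarClass k} {ops : CycleOps 𝒱}
  {W : WeilCohomology.{u, v} ops}

/-- A scalar which avoids finitely many values. -/
lemma exists_scalar {K : Type*} [Field K] [CharZero K] {V V' : Type*} [AddCommGroup V] [Module K V]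
    [AddCommGroup V'] [Module K V'] [Module.Finite K V] [Module.Finite K V']
    (δ : Module.End K V) (N : Module.End K V') :
    ∃ t : K, t ≠ 0 ∧ (∀ x, δ x + t • x = 0 → x = 0) ∧ ∀ x, x + t • N x = 0 → x = 0 := by
  set S : Set K := {0} ∪ (fun μ => -μ) '' {μ | δ.HasEigenvalue μ} ∪
    (fun μ => -μ⁻¹) '' {μ | N.HasEigenvalue μ} with hS
  have hfin : S.Finite := ((Set.finite_singleton 0).union
    (δ.finite_hasEigenvalue.image _)).union (N.finite_hasEigenvalue.image _)
  obtain ⟨t, ht⟩ := hfin.exists_notMem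
  have h0 : t ≠ 0 := fun h => ht (Or.inl (Or.inl h))
  refine ⟨t, h0, fun x hx => ?_, fun x hx => ?_⟩
  · by_contra hx0
    apply ht
    left; right
    refine ⟨-t, ?_, neg_neg t⟩
    apply Module.End.hasEigenvalue_of_hasEigenvector (x := x)
    refine ⟨?_, hx0⟩
    rw [Module.End.mem_eigenspace_iff, neg_smul]
    exact eq_neg_of_add_eq_zero_left hx
  · by_contra hx0
    apply ht
    right
    refine ⟨-t⁻¹, ?_, by simp⟩
    apply Module.End.hasEigenvalue_of_hasEigenvector (x := x)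
    refine ⟨?_, hx0⟩
    rw [Module.End.mem_eigenspace_iff]
    have h1 : t • N x = -x := eq_neg_of_add_eq_zero_right hx
    have h2 := congrArg (fun y => t⁻¹ • y) h1
    simp only [smul_smul, inv_mul_cancel₀ h0, one_smul, smul_neg] at h2
    rw [h2, neg_smul]

variable {ι κ μ : Type} [Fintype ι] [DecidableEq ι] [Fintype κ] [DecidableEq κ]
  [Fintype μ] [DecidableEq μ] {f : ι → 𝒱.Obj × ℤ} {g : κ → 𝒱.Obj × ℤ} {h : μ → 𝒱.Obj × ℤ}

/-- **Cancellation, one direction.** -/
theorem exists_injective {w : ℤ} (hf : ∀ i, w ≤ (f i).2)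
    (H : IsoAbove W w (Sum.elim f h) (Sum.elim g h)) :
    ∃ S : VF W f →ₗ[W.K] VF W g, IsMor S ∧ Function.Injective S := by
  obtain ⟨F, G, hF, hG, hGF, -⟩ := H
  set α := p1 W g h ∘ₗ F ∘ₗ i1 W f h with hα
  set β := p1 W g h ∘ₗ F ∘ₗ i2 W f h with hβ
  set γ := p2 W g h ∘ₗ F ∘ₗ i1 W f h with hγ
  set δ : Module.End W.K (VF W h) := p2 W g h ∘ₗ F ∘ₗ i2 W f h with hδ
  have hαm : IsMor α := isMor_p1.comp (hF.comp isMor_i1)
  have hβm : IsMor β := isMor_p1.comp (hF.comp isMor_i2)
  have hγm : IsMor γ := isMor_p2.comp (hF.comp isMor_i1)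
  have hδm : IsMor δ := isMor_p2.comp (hF.comp isMor_i2)
  set N : Module.End W.K (VF W (Sum.elim f h)) := G ∘ₗ i2 W g h ∘ₗ p2 W f h with hN
  obtain ⟨t, -, ht1, ht2⟩ := exists_scalar δ N
  set δt : Module.End W.K (VF W h) := δ + t • LinearMap.id with hδt
  have hδtm : IsMor δt := hδm.add (IsMor.smul t IsMor.id)
  obtain ⟨P, hP⟩ := exists_poly_inv (R := δt) (M := ⊤) (fun _ _ => Submodule.mem_top)
    (fun a _ ha => ht1 a ha)
  set R := Polynomial.aeval δt P with hR
  have hRm : IsMor R := hδtm.aeval P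
  refine ⟨α - β ∘ₗ R ∘ₗ γ, hαm.sub (hβm.comp (hRm.comp hγm)), ?_⟩
  rw [← LinearMap.ker_eq_bot, LinearMap.ker_eq_bot']
  intro a ha
  set b : VF W h := -R (γ a) with hb
  have hatop : a ∈ hi W w f := by rw [hi_eq_top hf]; exact Submodule.mem_top
  have hbhi : b ∈ hi W w h := Submodule.neg_mem _ (hRm.hi_mem (hγm.hi_mem hatop))
  set x : VF W (Sum.elim f h) := i1 W f h a + i2 W f h b with hx
  have hxhi : x ∈ hi W w (Sum.elim f h) :=
    Submodule.add_mem _ (isMor_i1.hi_mem hatop) (isMor_i2.hi_mem hbhi)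
  have e1 : δ b + t • b = - γ a := by
    have h1 := (hP (γ a) Submodule.mem_top).2
    have h2 : δt b = - γ a := by rw [hb, map_neg, ← hR] at *; rw [h1]
    rw [← h2]
    rfl
  have e2 : F x = - (t • i2 W g h b) := by
    apply ext_sum
    · have h3 : α a - β (R (γ a)) = 0 := ha
      have h4 : p1 W g h (F x) = α a + β b := by
        rw [hx, map_add, map_add]; rfl
      rw [h4, hb, map_neg, ← sub_eq_add_neg, h3, map_neg, map_smul, p1_i2, smul_zero, neg_zero]
    · have h4 : p2 W g h (F x) = γ a + δ b := by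
        rw [hx, map_add, map_add]; rfl
      have h6 : p2 W g h (-(t • i2 W g h b)) = -(t • b) := by
        rw [map_neg (p2 W g h), map_smul (p2 W g h), p2_i2]
      have h5 : δ b = - γ a - t • b := by rw [← e1]; abel
      rw [h4, h5, h6]; abel
  have e3 : x + t • N x = 0 := by
    have h1 := hGF x hxhi
    have h2 : N x = G (i2 W g h b) := by
      change G (i2 W g h (p2 W f h x)) = _
      rw [hx, map_add, p2_i1, p2_i2, zero_add]
    rw [e2, map_neg, map_smul] at h1
    rw [h2, ← h1]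
    simp
  have e4 := ht2 x e3
  have e5 : p1 W f h x = a := by rw [hx, map_add, p1_i1, p1_i2, add_zero]
  rw [← e5, e4, map_zero]

/-- **Cancellation.** -/
theorem cancel {w : ℤ} (hf : ∀ i, w ≤ (f i).2) (hg : ∀ i, w ≤ (g i).2)
    (H : IsoAbove W w (Sum.elim f h) (Sum.elim g h)) :
    ∃ (S : VF W f →ₗ[W.K] VF W g) (S' : VF W g →ₗ[W.K] VF W f), IsMor S ∧ IsMor S' ∧
      Function.Bijective S ∧ Function.Bijective S' := by
  obtain ⟨S, hS, hSi⟩ := exists_injective hf H
  obtain ⟨S', hS', hSi'⟩ := exists_injective hg H.symm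
  have h1 := LinearMap.finrank_le_finrank_of_injective hSi
  have h2 := LinearMap.finrank_le_finrank_of_injective hSi'
  have h3 : Module.finrank W.K (VF W f) = Module.finrank W.K (VF W g) := le_antisymm h1 h2
  exact ⟨S, S', hS, hS',
    ⟨hSi, (LinearMap.injective_iff_surjective_of_finrank_eq_finrank h3).1 hSi⟩,
    ⟨hSi', (LinearMap.injective_iff_surjective_of_finrank_eq_finrank h3.symm).1 hSi'⟩⟩

end Pool.Agent.W5h93.GR
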