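import Pool.Agent.H39.L.W550_B_AddTop

/-!
# Families of twists and matrices of correspondences
-/

open CategoryTheory AlgebraicGeometry

universe u v

namespace Pool.Agent.W5h93.GR

open Pool.Agent.H914 Pool.Agent.H914.VarClass Pool.Agent.H914.VarClass.Obj
  Pool.Agent.H914.WeilCohomology Pool.Agent.W550.B

variable {k : Type u} [Field k] {𝒱 : VarClass k} {ops : CycleOps 𝒱}
  {W : WeilCohomology.{u, v} ops}

/-- The cohomology of a family of twists. -/
abbrev VF (W : WeilCohomology.{u, v} ops) {ι : Type} (f : ι → 𝒱.Obj × ℤ) : Type v :=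
  ∀ i, W.H (f i).1

section Mor

variable {ι κ μ : Type} [Fintype ι] [DecidableEq ι] [Fintype κ] [DecidableEq κ]
  [Fintype μ] [DecidableEq μ] {f : ι → 𝒱.Obj × ℤ} {g : κ → 𝒱.Obj × ℤ} {h : μ → 𝒱.Obj × ℤ}

/-- The entries of a matrix. -/
def ent (F : VF W f →ₗ[W.K] VF W g) (i : ι) (j : κ) : W.H (f i).1 →ₗ[W.K] W.H (g j).1 :=
  LinearMap.proj j ∘ₗ F ∘ₗ LinearMap.single W.K (fun i => W.H (f i).1) i

omit [Fintype ι] [Fintype κ] [DecidableEq κ] in
lemma ent_apply (F : VF W f →ₗ[W.K] VF W g) (i : ι) (j : κ) (x : W.H (f i).1) :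
    ent F i j x = F (Pi.single i x) j := rfl

omit [Fintype κ] [DecidableEq κ] in
lemma apply_eq_sum (F : VF W f →ₗ[W.K] VF W g) (v : VF W f) (j : κ) :
    F v j = ∑ i, ent F i j (v i) := by
  conv_lhs => rw [← Finset.univ_sum_single v]
  rw [map_sum, Finset.sum_apply]
  rfl

/-- The matrix consists of combinations of algebraic correspondences and preserves the weights. -/
def IsMor (F : VF W f →ₗ[W.K] VF W g) : Prop :=
  ∀ i j, ent F i j ∈ KOp W (f i).1 (g j).1 ((f i).2 - (g j).2)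

omit [Fintype μ] [DecidableEq μ] [Fintype ι] in
lemma ent_comp (G : VF W g →ₗ[W.K] VF W h) (F : VF W f →ₗ[W.K] VF W g) (i : ι) (l : μ) :
    ent (G ∘ₗ F) i l = ∑ j, ent G j l ∘ₗ ent F i j := by
  apply LinearMap.ext
  intro x
  rw [ent_apply, LinearMap.comp_apply, apply_eq_sum, LinearMap.sum_apply]
  rfl

omit [Fintype μ] [DecidableEq μ] [Fintype ι] in
lemma IsMor.comp {G : VF W g →ₗ[W.K] VF W h} {F : VF W f →ₗ[W.K] VF W g} (hG : IsMor G)
    (hF : IsMor F) : IsMor (G ∘ₗ F) := by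
  intro i l
  rw [ent_comp]
  exact Submodule.sum_mem _ fun j _ => KOp.cast (KOp.comp (hG j l) (hF i j)) (by ring)

omit [Fintype ι] [Fintype κ] [DecidableEq κ] in
lemma IsMor.add {G F : VF W f →ₗ[W.K] VF W g} (hG : IsMor G)
    (hF : IsMor F) : IsMor (G + F) := fun i j => Submodule.add_mem _ (hG i j) (hF i j)

omit [Fintype ι] [Fintype κ] [DecidableEq κ] in
lemma IsMor.smul (c : W.K) {F : VF W f →ₗ[W.K] VF W g} (hF : IsMor F) : IsMor (c • F) := by
  intro i j
  have : ent (c • F) i j = c • ent F i j := by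
    apply LinearMap.ext
    intro x
    rfl
  rw [this]
  exact Submodule.smul_mem _ _ (hF i j)

omit [Fintype ι] [Fintype κ] [DecidableEq κ] in
lemma IsMor.sub {G F : VF W f →ₗ[W.K] VF W g} (hG : IsMor G)
    (hF : IsMor F) : IsMor (G - F) := by
  intro i j
  exact Submodule.sub_mem _ (hG i j) (hF i j)

omit [Fintype ι] [Fintype κ] [DecidableEq κ] in
lemma IsMor.zero : IsMor (0 : VF W f →ₗ[W.K] VF W g) := fun _ _ => Submodule.zero_mem _

omit [Fintype ι] in
lemma IsMor.id : IsMor (LinearMap.id : VF W f →ₗ[W.K] VF W f) := by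
  intro i j
  by_cases hij : i = j
  · subst hij
    have : ent (LinearMap.id : VF W f →ₗ[W.K] VF W f) i i = LinearMap.id := by
      apply LinearMap.ext
      intro x
      rw [ent_apply, LinearMap.id_apply, Pi.single_eq_same]
      rfl
    rw [this]
    exact KOp.cast (KOp.id _) (by ring)
  · have : ent (LinearMap.id : VF W f →ₗ[W.K] VF W f) i j = 0 := by
      apply LinearMap.ext
      intro x
      rw [ent_apply, LinearMap.id_apply, Pi.single_eq_of_ne (Ne.symm hij)]
      rfl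
    rw [this]
    exact Submodule.zero_mem _

/-- The algebra of endomorphisms of a family. -/
def morAlg (W : WeilCohomology.{u, v} ops) (f : ι → 𝒱.Obj × ℤ) :
    Subalgebra W.K (Module.End W.K (VF W f)) where
  carrier := {F | IsMor F}
  mul_mem' := fun ha hb => IsMor.comp ha hb
  one_mem' := IsMor.id
  add_mem' := fun ha hb => IsMor.add ha hb
  zero_mem' := IsMor.zero
  algebraMap_mem' := fun c => by
    rw [Algebra.algebraMap_eq_smul_one]
    exact IsMor.smul c IsMor.id

lemma mem_morAlg {F : Module.End W.K (VF W f)} : F ∈ morAlg W f ↔ IsMor F := Iff.rfl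

lemma IsMor.aeval {F : Module.End W.K (VF W f)} (hF : IsMor F) (P : Polynomial W.K) :
    IsMor (Polynomial.aeval F P) := by
  have h1 : Polynomial.aeval F P ∈ Algebra.adjoin W.K {F} :=
    Polynomial.aeval_mem_adjoin_singleton W.K F
  have h2 : Algebra.adjoin W.K {F} ≤ morAlg W f :=
    Algebra.adjoin_le (Set.singleton_subset_iff.2 hF)
  exact h2 h1

/-- The classes of weight at least `2 w`. -/
def hi (W : WeilCohomology.{u, v} ops) (w : ℤ) (f : ι → 𝒱.Obj × ℤ) : Submodule W.K (VF W f) :=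
  Submodule.pi Set.univ fun i => ⨆ (d : ℕ) (_ : 2 * w ≤ d + 2 * (f i).2), W.gr (f i).1 d

omit [Fintype ι] [DecidableEq ι] in
lemma mem_hi {w : ℤ} {v : VF W f} :
    v ∈ hi W w f ↔ ∀ i, v i ∈ ⨆ (d : ℕ) (_ : 2 * w ≤ d + 2 * (f i).2), W.gr (f i).1 d := by
  simp [hi, Submodule.mem_pi]

lemma KOp.hi_mem {X Y : 𝒱.Obj} {a b w : ℤ} {φ : W.H X →ₗ[W.K] W.H Y}
    (hφ : φ ∈ KOp W X Y (a - b)) {x : W.H X}
    (hx : x ∈ ⨆ (d : ℕ) (_ : 2 * w ≤ d + 2 * a), W.gr X d) :
    φ x ∈ ⨆ (d : ℕ) (_ : 2 * w ≤ d + 2 * b), W.gr Y d := by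
  have key : (⨆ (d : ℕ) (_ : 2 * w ≤ d + 2 * a), W.gr X d) ≤
      (⨆ (d : ℕ) (_ : 2 * w ≤ d + 2 * b), W.gr Y d).comap φ := by
    refine iSup_le fun d => iSup_le fun hd => ?_
    intro x hx
    rw [Submodule.mem_comap]
    have h1 := KOp.isHom hφ (d : ℤ) x (by rw [grZ_natCast]; exact hx)
    by_cases h2 : 0 ≤ (d : ℤ) + 2 * (a - b)
    · obtain ⟨e, he⟩ := Int.eq_ofNat_of_zero_le h2
      rw [he, grZ_natCast] at h1
      exact Submodule.mem_iSup_of_mem e (Submodule.mem_iSup_of_mem (by omega) h1)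
    · rw [grZ_of_neg (by omega)] at h1
      rw [(Submodule.mem_bot _).1 h1]
      exact Submodule.zero_mem _
  exact key hx

omit [Fintype κ] [DecidableEq κ] in
lemma IsMor.hi_mem {F : VF W f →ₗ[W.K] VF W g} (hF : IsMor F) {w : ℤ} {x : VF W f}
    (hx : x ∈ hi W w f) : F x ∈ hi W w g := by
  rw [mem_hi] at hx ⊢
  intro j
  rw [apply_eq_sum]
  exact Submodule.sum_mem _ fun i _ => KOp.hi_mem (hF i j) (hx i)

omit [Fintype ι] [DecidableEq ι] in
lemma hi_eq_top {w : ℤ} (hf : ∀ i, w ≤ (f i).2) : hi W w f = ⊤ := by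
  rw [eq_top_iff]
  intro x _
  rw [mem_hi]
  intro i
  refine gr_induction (W.isInternal (f i).1)
    (p := fun y => y ∈ ⨆ (d : ℕ) (_ : 2 * w ≤ d + 2 * (f i).2), W.gr (f i).1 d) ?_ ?_ (x i)
  · intro d a ha
    have := hf i
    exact Submodule.mem_iSup_of_mem d (Submodule.mem_iSup_of_mem (by omega) ha)
  · intro a b ha hb
    exact Submodule.add_mem _ ha hb

omit [Fintype ι] [DecidableEq ι] in
lemma hi_eq_bot {w : ℤ} (hf : ∀ i, ((f i).1.dim : ℤ) + (f i).2 < w) : hi W w f = ⊥ := by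
  rw [eq_bot_iff]
  intro x hx
  rw [Submodule.mem_bot]
  funext i
  have h1 := mem_hi.1 hx i
  have h2 : (⨆ (d : ℕ) (_ : 2 * w ≤ d + 2 * (f i).2), W.gr (f i).1 d) = ⊥ := by
    rw [eq_bot_iff]
    refine iSup_le fun d => iSup_le fun hd => ?_
    have := hf i
    rw [W.gr_eq_bot _ d (by omega)]
  rw [h2] at h1
  exact (Submodule.mem_bot _).1 h1

/-- The families are isomorphic in the weights at least `2 w`. -/
def IsoAbove (W : WeilCohomology.{u, v} ops) (w : ℤ) (f : ι → 𝒱.Obj × ℤ) (g : κ → 𝒱.Obj × ℤ) :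
    Prop :=
  ∃ (F : VF W f →ₗ[W.K] VF W g) (G : VF W g →ₗ[W.K] VF W f), IsMor F ∧ IsMor G ∧
    (∀ x ∈ hi W w f, G (F x) = x) ∧ ∀ x ∈ hi W w g, F (G x) = x

lemma IsoAbove.symm {w : ℤ} (H : IsoAbove W w f g) : IsoAbove W w g f := by
  obtain ⟨F, G, h1, h2, h3, h4⟩ := H
  exact ⟨G, F, h2, h1, h4, h3⟩

omit [Fintype ι] in
lemma IsoAbove.refl {w : ℤ} : IsoAbove W w f f :=
  ⟨LinearMap.id, LinearMap.id, IsMor.id, IsMor.id, fun _ _ => rfl, fun _ _ => rfl⟩

lemma IsoAbove.trans {w : ℤ} (H : IsoAbove W w f g) (H' : IsoAbove W w g h) :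
    IsoAbove W w f h := by
  obtain ⟨F, G, h1, h2, h3, h4⟩ := H
  obtain ⟨F', G', h1', h2', h3', h4'⟩ := H'
  refine ⟨F' ∘ₗ F, G ∘ₗ G', h1'.comp h1, h2.comp h2', fun x hx => ?_, fun x hx => ?_⟩
  · change G (G' (F' (F x))) = x
    rw [h3' _ (h1.hi_mem hx), h3 x hx]
  · change F' (F (G (G' x))) = x
    rw [h4 _ (h2'.hi_mem hx), h4' x hx]

end Mor

section Sum

variable {ι κ ι' κ' : Type} [Fintype ι] [DecidableEq ι] [Fintype κ] [DecidableEq κ]
  [Fintype ι'] [DecidableEq ι'] [Fintype κ'] [DecidableEq κ']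
  {f : ι → 𝒱.Obj × ℤ} {g : κ → 𝒱.Obj × ℤ} {f' : ι' → 𝒱.Obj × ℤ} {g' : κ' → 𝒱.Obj × ℤ}

/-- first projection -/
def p1 (W : WeilCohomology.{u, v} ops) (f : ι → 𝒱.Obj × ℤ) (g : κ → 𝒱.Obj × ℤ) :
    VF W (Sum.elim f g) →ₗ[W.K] VF W f where
  toFun x := fun i => x (Sum.inl i)
  map_add' _ _ := rfl
  map_smul' _ _ := rfl

/-- second projection -/
def p2 (W : WeilCohomology.{u, v} ops) (f : ι → 𝒱.Obj × ℤ) (g : κ → 𝒱.Obj × ℤ) :
    VF W (Sum.elim f g) →ₗ[W.K] VF W g where
  toFun x := fun i => x (Sum.inr i)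
  map_add' _ _ := rfl
  map_smul' _ _ := rfl

/-- first injection -/
def i1 (W : WeilCohomology.{u, v} ops) (f : ι → 𝒱.Obj × ℤ) (g : κ → 𝒱.Obj × ℤ) :
    VF W f →ₗ[W.K] VF W (Sum.elim f g) where
  toFun x := fun s => match s with
    | Sum.inl i => x i
    | Sum.inr _ => 0
  map_add' x y := by
    funext s
    cases s with
    | inl i => rfl
    | inr i => exact (add_zero _).symm
  map_smul' c x := by
    funext s
    cases s with
    | inl i => rfl
    | inr i => exact (smul_zero (A := W.H (g i).1) c).symm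

/-- second injection -/
def i2 (W : WeilCohomology.{u, v} ops) (f : ι → 𝒱.Obj × ℤ) (g : κ → 𝒱.Obj × ℤ) :
    VF W g →ₗ[W.K] VF W (Sum.elim f g) where
  toFun x := fun s => match s with
    | Sum.inl _ => 0
    | Sum.inr i => x i
  map_add' x y := by
    funext s
    cases s with
    | inl i => exact (add_zero _).symm
    | inr i => rfl
  map_smul' c x := by
    funext s
    cases s with
    | inl i => exact (smul_zero (A := W.H (f i).1) c).symm
    | inr i => rfl

omit [Fintype ι] [DecidableEq ι] [Fintype κ] [DecidableEq κ] in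
@[simp] lemma p1_i1 (x : VF W f) : p1 W f g (i1 W f g x) = x := rfl
omit [Fintype ι] [DecidableEq ι] [Fintype κ] [DecidableEq κ] in
@[simp] lemma p2_i2 (x : VF W g) : p2 W f g (i2 W f g x) = x := rfl
omit [Fintype ι] [DecidableEq ι] [Fintype κ] [DecidableEq κ] in
@[simp] lemma p2_i1 (x : VF W f) : p2 W f g (i1 W f g x) = 0 := rfl
omit [Fintype ι] [DecidableEq ι] [Fintype κ] [DecidableEq κ] in
@[simp] lemma p1_i2 (x : VF W g) : p1 W f g (i2 W f g x) = 0 := rfl

omit [Fintype ι] [DecidableEq ι] [Fintype κ] [DecidableEq κ] in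
lemma i1_p1_add (x : VF W (Sum.elim f g)) :
    i1 W f g (p1 W f g x) + i2 W f g (p2 W f g x) = x := by
  funext s
  cases s with
  | inl i => exact add_zero _
  | inr i => exact zero_add _

omit [Fintype ι] [DecidableEq ι] [Fintype κ] [DecidableEq κ] in
lemma ext_sum {x y : VF W (Sum.elim f g)} (h1 : p1 W f g x = p1 W f g y)
    (h2 : p2 W f g x = p2 W f g y) : x = y := by
  rw [← i1_p1_add x, ← i1_p1_add y, h1, h2]

omit [Fintype ι] [Fintype κ] in
lemma isMor_p1 : IsMor (p1 W f g) := by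
  rintro (i | i) j
  · by_cases hij : i = j
    · subst hij
      have h : ent (p1 W f g) (Sum.inl i) i = (LinearMap.id : W.H (f i).1 →ₗ[W.K] _) :=
        LinearMap.ext fun x => Pi.single_eq_same (M := fun s => W.H (Sum.elim f g s).1)
          (Sum.inl i) x
      rw [h]
      exact KOp.cast (KOp.id _) (sub_self _).symm
    · have h : ent (p1 W f g) (Sum.inl i) j = 0 :=
        LinearMap.ext fun x => Pi.single_eq_of_ne (M := fun s => W.H (Sum.elim f g s).1)
          (fun h => hij (Sum.inl_injective h).symm) x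
      rw [h]
      exact Submodule.zero_mem _
  · have h : ent (p1 W f g) (Sum.inr i) j = 0 :=
      LinearMap.ext fun x => Pi.single_eq_of_ne (M := fun s => W.H (Sum.elim f g s).1)
        (i' := Sum.inl j) (by simp) x
    rw [h]
    exact Submodule.zero_mem _

omit [Fintype ι] [Fintype κ] in
lemma isMor_p2 : IsMor (p2 W f g) := by
  rintro (i | i) j
  · have h : ent (p2 W f g) (Sum.inl i) j = 0 :=
      LinearMap.ext fun x => Pi.single_eq_of_ne (M := fun s => W.H (Sum.elim f g s).1)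
        (i' := Sum.inr j) (by simp) x
    rw [h]
    exact Submodule.zero_mem _
  · by_cases hij : i = j
    · subst hij
      have h : ent (p2 W f g) (Sum.inr i) i = (LinearMap.id : W.H (g i).1 →ₗ[W.K] _) :=
        LinearMap.ext fun x => Pi.single_eq_same (M := fun s => W.H (Sum.elim f g s).1)
          (Sum.inr i) x
      rw [h]
      exact KOp.cast (KOp.id _) (sub_self _).symm
    · have h : ent (p2 W f g) (Sum.inr i) j = 0 :=
        LinearMap.ext fun x => Pi.single_eq_of_ne (M := fun s => W.H (Sum.elim f g s).1)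
          (fun h => hij (Sum.inr_injective h).symm) x
      rw [h]
      exact Submodule.zero_mem _

omit [Fintype ι] [Fintype κ] [DecidableEq κ] in
lemma isMor_i1 : IsMor (i1 W f g) := by
  rintro i (j | j)
  · exact IsMor.id i j
  · have h : ent (i1 W f g) i (Sum.inr j) = 0 := by
      apply LinearMap.ext
      intro x
      rfl
    rw [h]
    exact Submodule.zero_mem _

omit [Fintype ι] [DecidableEq ι] [Fintype κ] in
lemma isMor_i2 : IsMor (i2 W f g) := by
  rintro i (j | j)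
  · have h : ent (i2 W f g) i (Sum.inl j) = 0 := by
      apply LinearMap.ext
      intro x
      rfl
    rw [h]
    exact Submodule.zero_mem _
  · exact IsMor.id i j

lemma IsoAbove.sum {w : ℤ} (H : IsoAbove W w f g) (H' : IsoAbove W w f' g') :
    IsoAbove W w (Sum.elim f f') (Sum.elim g g') := by
  obtain ⟨F, G, h1, h2, h3, h4⟩ := H
  obtain ⟨F', G', h1', h2', h3', h4'⟩ := H'
  refine ⟨i1 W g g' ∘ₗ F ∘ₗ p1 W f f' + i2 W g g' ∘ₗ F' ∘ₗ p2 W f f',
    i1 W f f' ∘ₗ G ∘ₗ p1 W g g' + i2 W f f' ∘ₗ G' ∘ₗ p2 W g g',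
    (isMor_i1.comp (h1.comp isMor_p1)).add (isMor_i2.comp (h1'.comp isMor_p2)),
    (isMor_i1.comp (h2.comp isMor_p1)).add (isMor_i2.comp (h2'.comp isMor_p2)),
    fun x hx => ?_, fun x hx => ?_⟩
  · apply ext_sum
    · simp only [LinearMap.add_apply, LinearMap.comp_apply, map_add, p1_i1, p1_i2, add_zero,
        map_zero]
      exact h3 _ (isMor_p1.hi_mem hx)
    · simp only [LinearMap.add_apply, LinearMap.comp_apply, map_add, p2_i1, p2_i2, zero_add,
        p1_i1, p1_i2, add_zero, map_zero]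
      exact h3' _ (isMor_p2.hi_mem hx)
  · apply ext_sum
    · simp only [LinearMap.add_apply, LinearMap.comp_apply, map_add, p1_i1, p1_i2, add_zero,
        map_zero]
      exact h4 _ (isMor_p1.hi_mem hx)
    · simp only [LinearMap.add_apply, LinearMap.comp_apply, map_add, p2_i1, p2_i2, zero_add,
        p1_i1, p1_i2, add_zero, map_zero]
      exact h4' _ (isMor_p2.hi_mem hx)

/-- Reindexing. -/
lemma IsoAbove.reindex {w : ℤ} (e : ι ≃ κ) (he : ∀ i, g (e i) = f i) : IsoAbove W w f g := by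
  obtain rfl : f = g ∘ e := (funext he).symm
  let E := LinearEquiv.piCongrLeft W.K (fun j => W.H (g j).1) e
  have hE : ∀ (x : VF W (g ∘ e)) (i : ι), E x (e i) = x i := fun x i =>
    Equiv.piCongrLeft_apply_apply (P := fun j => W.H (g j).1) e x i
  refine ⟨E.toLinearMap, E.symm.toLinearMap, ?_, ?_, fun x _ => E.symm_apply_apply x,
    fun x _ => E.apply_symm_apply x⟩
  · intro i j
    obtain ⟨j, rfl⟩ := e.surjective j
    have h : ent (f := g ∘ e) (g := g) E.toLinearMap i (e j) =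
        ent (LinearMap.id : VF W (g ∘ e) →ₗ[W.K] VF W (g ∘ e)) i j := by
      apply LinearMap.ext
      intro x
      rw [ent_apply, ent_apply]
      exact hE _ j
    rw [h]
    exact IsMor.id i j
  · intro j i
    obtain ⟨j, rfl⟩ := e.surjective j
    have h : ent (f := g) (g := g ∘ e) E.symm.toLinearMap (e j) i =
        ent (LinearMap.id : VF W (g ∘ e) →ₗ[W.K] VF W (g ∘ e)) j i := by
      apply LinearMap.ext
      intro x
      rw [ent_apply, ent_apply]
      have h1 : E.symm (Pi.single (e j) x : VF W g) = (Pi.single j x : VF W (g ∘ e)) := by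
        rw [LinearEquiv.symm_apply_eq]
        funext l
        obtain ⟨l, rfl⟩ := e.surjective l
        rw [hE]
        by_cases hl : l = j
        · subst hl
          rw [Pi.single_eq_same, Pi.single_eq_same]
        · rw [Pi.single_eq_of_ne hl, Pi.single_eq_of_ne (fun h => hl (e.injective h))]
      change E.symm (Pi.single (e j) x : VF W g) i = _
      rw [h1]
      rfl
    rw [h]
    exact IsMor.id (f := g ∘ e) j i

end Sum

end Pool.Agent.W5h93.GR
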